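import Pool.Agent.Lib.MP_87c685_nt_PP15.Ar4

open Finset

namespace PP15

namespace ArAux

theorem zmod2_ite (x y : ZMod 2) : (if x = 1 then y else 0) = y * x := by
  revert x y; decide

theorem mem_fam {k : ℕ} {M : Finset ℕ} {A : I k → Finset ℕ} (h : A ∈ Fam k M) :
    (∀ u, A u ⊆ M) ∧ (∀ u v, u ≠ v → Disjoint (A u) (A v)) ∧ ∀ p ∈ M, ∃ u, p ∈ A u := by
  classical
  unfold Fam at h
  rw [mem_filter, Fintype.mem_piFinset] at h
  obtain ⟨h1, h2, h3⟩ := h
  refine ⟨fun u => mem_powerset.1 (h1 u), h2, fun p hp => ?_⟩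
  rw [← h3, mem_biUnion] at hp
  obtain ⟨u, _, hu⟩ := hp
  exact ⟨u, hu⟩

theorem mem_prj {k : ℕ} {M : Finset ℕ} {A : I k → Finset ℕ} (h : A ∈ Fam k M) {u : I k} {p : ℕ}
    (hp : p ∈ A u) (i : Fin k) : p ∈ prj A i ↔ u.1 i = 1 := by
  classical
  obtain ⟨h1, h2, h3⟩ := mem_fam h
  unfold prj
  rw [mem_biUnion]
  constructor
  · rintro ⟨v, hv, hpv⟩
    rw [mem_filter] at hv
    have hvu : v = u := by
      by_contra hne
      exact (Finset.disjoint_left.1 (h2 v u hne)) hpv hp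
    rw [← hvu]
    exact hv.2
  · intro hu
    exact ⟨u, mem_filter.2 ⟨mem_univ _, hu⟩, hp⟩

theorem prj_sub {k : ℕ} {M : Finset ℕ} {A : I k → Finset ℕ} (h : A ∈ Fam k M) (i : Fin k) :
    prj A i ⊆ M := by
  classical
  obtain ⟨h1, h2, h3⟩ := mem_fam h
  intro p hp
  unfold prj at hp
  rw [mem_biUnion] at hp
  obtain ⟨v, _, hpv⟩ := hp
  exact h1 v hpv

theorem prj_dot {k : ℕ} {M : Finset ℕ} {A : I k → Finset ℕ} (h : A ∈ Fam k M) {u : I k} {p : ℕ}
    (hp : p ∈ A u) (a : V k) : (∑ i, if p ∈ prj A i then a i else 0) = a ⬝ᵥ u.1 := by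
  unfold dotProduct
  refine Finset.sum_congr rfl fun i _ => ?_
  rw [← zmod2_ite (u.1 i) (a i)]
  by_cases hu : u.1 i = 1
  · rw [if_pos ((mem_prj h hp i).2 hu), if_pos hu]
  · rw [if_neg (fun h' => hu ((mem_prj h hp i).1 h')), if_neg hu]

theorem mem_supp {k : ℕ} {A : I k → Finset ℕ} {u : I k} : u ∈ supp A ↔ (A u).Nonempty := by
  classical
  unfold supp
  rw [mem_filter]
  exact ⟨fun h => h.2, fun h => ⟨mem_univ _, h⟩⟩

theorem spn_iff {k : ℕ} {M : Finset ℕ} {A : I k → Finset ℕ} (h : A ∈ Fam k M) :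
    SpnT M (prj A) ↔ Spn (supp A) := by
  obtain ⟨h1, h2, h3⟩ := mem_fam h
  unfold SpnT Spn
  refine forall_congr' fun a => forall_congr' fun _ => ?_
  constructor
  · rintro ⟨p, hp, q, hq, hne⟩
    obtain ⟨u, hu⟩ := h3 p hp
    obtain ⟨v, hv⟩ := h3 q hq
    rw [prj_dot h hu, prj_dot h hv] at hne
    exact ⟨u, mem_supp.2 ⟨p, hu⟩, v, mem_supp.2 ⟨q, hv⟩, hne⟩
  · rintro ⟨u, hu, v, hv, hne⟩
    obtain ⟨p, hp⟩ := mem_supp.1 hu
    obtain ⟨q, hq⟩ := mem_supp.1 hv
    refine ⟨p, h1 u hp, q, h1 v hq, ?_⟩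
    rw [prj_dot h hp, prj_dot h hq]
    exact hne

theorem sum_clA {k : ℕ} {M : Finset ℕ} (hM : ∀ p ∈ M, p.Prime ∧ 7 ≤ p) {A : I k → Finset ℕ}
    (h : A ∈ Fam k M) : ∑ u, clA A u = cl (Nn M) := by
  classical
  have h' := h
  unfold Fam at h'
  rw [mem_filter, Fintype.mem_piFinset] at h'
  obtain ⟨h1, h2, h3⟩ := h'
  rw [cl_Nn M hM]
  have e1 : ∀ u, clA A u = ∑ p ∈ A u, cl p := fun u =>
    cl_Nn (A u) fun p hp => hM p ((mem_fam h).1 u hp)
  rw [Finset.sum_congr rfl fun u _ => e1 u]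
  rw [← Finset.sum_biUnion]
  · refine Finset.sum_congr ?_ fun _ _ => rfl
    rw [← h3]
  · intro u _ v _ huv
    exact h2 u v huv

theorem cl_prj {k : ℕ} {M : Finset ℕ} (hM : ∀ p ∈ M, p.Prime ∧ 7 ≤ p) {A : I k → Finset ℕ}
    (h : A ∈ Fam k M) (i : Fin k) :
    cl (Nn (prj A i)) = ∑ u : I k, if u.1 i = 1 then clA A u else 0 := by
  classical
  obtain ⟨h1, h2, h3⟩ := mem_fam h
  rw [cl_Nn (prj A i) fun p hp => hM p (prj_sub h i hp)]
  have e1 : ∀ u, clA A u = ∑ p ∈ A u, cl p := fun u =>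
    cl_Nn (A u) fun p hp => hM p (h1 u hp)
  rw [← Finset.sum_filter, Finset.sum_congr rfl fun u _ => e1 u]
  rw [← Finset.sum_biUnion]
  · refine Finset.sum_congr ?_ fun _ _ => rfl
    unfold prj
    ext p
    simp only [mem_biUnion]
  · intro u _ v _ huv
    exact h2 u v huv

/-- the bijection between `k`-tuples of elements of `PhiF n` and pairs. -/
theorem card_eq (k : ℕ) (s : Prop) (B0 : Finset ℕ) (hB : B0 ⊆ {2, 3, 5}) (M : Finset ℕ)
    (hM : ∀ p ∈ M, p.Prime ∧ 7 ≤ p) (hs : SgnOK B0 (cl (Nn M))) [DecidablePred fun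
      x : (Fin k → Finset ℕ) × (Fin k → Finset ℕ) => (s → SpnT M x.2) ∧
        ∀ i, LL B0 (cl (Nn M)) (x.1 i) (cl (Nn (x.2 i))) ∧ ∀ q ∈ M, sy B0 M (x.1 i) (x.2 i) q = 1] :
    TT k s (Nn B0 * Nn M) =
      (((Fintype.piFinset fun _ : Fin k => (small B0 (cl (Nn M))).powerset) ×ˢ
        (Fintype.piFinset fun _ : Fin k => M.powerset)).filter fun x =>
        (s → SpnT M x.2) ∧
        ∀ i, LL B0 (cl (Nn M)) (x.1 i) (cl (Nn (x.2 i))) ∧
          ∀ q ∈ M, sy B0 M (x.1 i) (x.2 i) q = 1).card := by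
  classical
  obtain ⟨_, _, hbig, _, _, hSS, hsm⟩ := ar0 B0 hB M hM
  have hlt : ∀ p ∈ small B0 (cl (Nn M)), p < 7 := by
    intro p hp
    have := hsm hp
    simp only [mem_insert, mem_singleton] at this
    rcases this with rfl | rfl | rfl <;> norm_num
  have hSM : ∀ p, p ∈ small B0 (cl (Nn M)) → p ∉ M := fun p hp hpM => by
    have h1 := hlt p hp
    have h2 := (hM p hpM).2
    omega
  have spn_un : ∀ c m' : Fin k → Finset ℕ, (∀ i, c i ⊆ small B0 (cl (Nn M))) →
      (SpnT M (fun i => c i ∪ m' i) ↔ SpnT M m') := by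
    intro c m' hc
    unfold SpnT
    have e : ∀ p ∈ M, ∀ a : V k, (∑ i, if p ∈ c i ∪ m' i then a i else 0) =
        ∑ i, if p ∈ m' i then a i else 0 := by
      intro p hp a
      refine Finset.sum_congr rfl fun i _ => ?_
      have hpc : p ∉ c i := fun h' => hSM p (hc i h') hp
      by_cases h' : p ∈ m' i
      · rw [if_pos (mem_union_right _ h'), if_pos h']
      · rw [if_neg (by rw [mem_union]; exact fun h'' => h''.elim hpc h'), if_neg h']
    refine forall_congr' fun a => forall_congr' fun _ => ?_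
    constructor
    · rintro ⟨p, hp, q, hq, hne⟩
      refine ⟨p, hp, q, hq, ?_⟩
      rwa [e p hp, e q hq] at hne
    · rintro ⟨p, hp, q, hq, hne⟩
      refine ⟨p, hp, q, hq, ?_⟩
      rwa [e p hp, e q hq]
  unfold TT
  rw [hbig]
  symm
  refine Finset.card_bij' (fun x _ => fun i => x.1 i ∪ x.2 i)
    (fun m _ => (fun i => m i ∩ small B0 (cl (Nn M)), fun i => m i ∩ M)) ?_ ?_ ?_ ?_
  · intro x hx
    rw [mem_filter, mem_product, Fintype.mem_piFinset, Fintype.mem_piFinset] at hx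
    obtain ⟨⟨hx1, hx2⟩, hx3, hx4⟩ := hx
    have hc : ∀ i, x.1 i ⊆ small B0 (cl (Nn M)) := fun i => mem_powerset.1 (hx1 i)
    have hm : ∀ i, x.2 i ⊆ M := fun i => mem_powerset.1 (hx2 i)
    rw [mem_filter, Fintype.mem_piFinset]
    refine ⟨fun i => ?_, fun h => ?_⟩
    · exact (ar1 B0 hB M hM hs (x.1 i) (x.2 i) (hc i) (hm i)).2 (hx4 i)
    · exact (spn_un x.1 x.2 hc).2 (hx3 h)
  · intro m hm
    rw [mem_filter, Fintype.mem_piFinset] at hm
    obtain ⟨hm1, hm2⟩ := hm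
    have hdec : ∀ i, m i = (m i ∩ small B0 (cl (Nn M))) ∪ (m i ∩ M) := by
      intro i
      rw [← Finset.inter_union_distrib_left, ← hSS]
      refine (Finset.inter_eq_left.2 ?_).symm
      have := hm1 i
      unfold X15B.PhiF at this
      rw [mem_filter, mem_powerset] at this
      exact this.1
    rw [mem_filter, mem_product, Fintype.mem_piFinset, Fintype.mem_piFinset]
    refine ⟨⟨fun i => mem_powerset.2 Finset.inter_subset_right,
      fun i => mem_powerset.2 Finset.inter_subset_right⟩, fun h => ?_, fun i => ?_⟩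
    · refine (spn_un (fun i => m i ∩ small B0 (cl (Nn M))) (fun i => m i ∩ M)
        fun i => Finset.inter_subset_right).1 ?_
      have e : (fun i => (m i ∩ small B0 (cl (Nn M))) ∪ (m i ∩ M)) = m := by
        funext i
        exact (hdec i).symm
      rw [e]
      exact hm2 h
    · refine (ar1 B0 hB M hM hs (m i ∩ small B0 (cl (Nn M))) (m i ∩ M)
        Finset.inter_subset_right Finset.inter_subset_right).1 ?_
      rw [← hdec i]
      exact hm1 i
  · intro x hx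
    rw [mem_filter, mem_product, Fintype.mem_piFinset, Fintype.mem_piFinset] at hx
    obtain ⟨⟨hx1, hx2⟩, _, _⟩ := hx
    have hc : ∀ i, x.1 i ⊆ small B0 (cl (Nn M)) := fun i => mem_powerset.1 (hx1 i)
    have hm : ∀ i, x.2 i ⊆ M := fun i => mem_powerset.1 (hx2 i)
    refine Prod.ext ?_ ?_
    · funext i
      ext p
      simp only [mem_inter, mem_union]
      constructor
      · rintro ⟨h1 | h1, h2⟩
        · exact h1
        · exact absurd (hm i h1) (hSM p h2)
      · intro h1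
        exact ⟨Or.inl h1, hc i h1⟩
    · funext i
      ext p
      simp only [mem_inter, mem_union]
      constructor
      · rintro ⟨h1 | h1, h2⟩
        · exact absurd h2 (hSM p (hc i h1))
        · exact h1
      · intro h1
        exact ⟨Or.inr h1, hm i h1⟩
  · intro m hm
    rw [mem_filter, Fintype.mem_piFinset] at hm
    obtain ⟨hm1, hm2⟩ := hm
    funext i
    show (m i ∩ small B0 (cl (Nn M))) ∪ (m i ∩ M) = m i
    rw [← Finset.inter_union_distrib_left, ← hSS]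
    refine Finset.inter_eq_left.2 ?_
    have := hm1 i
    unfold X15B.PhiF at this
    rw [mem_filter, mem_powerset] at this
    exact this.1

end ArAux

open ArAux

open Classical in
/-- The moments as sums over families. -/
theorem ar (k : ℕ) (s : Prop) (B0 : Finset ℕ) (hB : B0 ⊆ {2, 3, 5}) (M : Finset ℕ)
    (hM : ∀ p ∈ M, p.Prime ∧ 7 ≤ p) (hs : SgnOK B0 (cl (Nn M))) :
    (TT k s (Nn B0 * Nn M) : ℝ) = ((1 / 2 : ℝ) ^ k) ^ M.card *
      ∑ A ∈ Fam k M, ff k s B0 (cl (Nn M)) (clA A) (supp A) * S A := by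
  obtain ⟨_, _, _, _, _, _, hsm⟩ := ar0 B0 hB M hM
  rw [card_eq k s B0 hB M hM hs, Finset.card_filter, Nat.cast_sum, Finset.sum_product]
  have step : ∀ c ∈ Fintype.piFinset fun _ : Fin k => (small B0 (cl (Nn M))).powerset,
      (∑ m ∈ Fintype.piFinset fun _ : Fin k => M.powerset,
        (((if (s → SpnT M m) ∧ ∀ i, LL B0 (cl (Nn M)) (c i) (cl (Nn (m i))) ∧
          ∀ q ∈ M, sy B0 M (c i) (m i) q = 1 then 1 else 0 : ℕ) : ℝ))) =
      ((1 / 2 : ℝ) ^ k) ^ M.card * ∑ A ∈ Fam k M,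
        (if (s → Spn (supp A)) ∧
          ∀ i, LL B0 (cl (Nn M)) (c i) (∑ u : I k, if u.1 i = 1 then clA A u else 0)
          then ∏ u : I k, sg ((∑ i, u.2 i • lam (c i) + (u.1 ⬝ᵥ u.2) • lam B0) ⬝ᵥ clA A u)
          else 0) * S A := by
    intro c hc
    rw [Fintype.mem_piFinset] at hc
    have hc' : ∀ i, c i ⊆ {2, 3, 5} := fun i => (mem_powerset.1 (hc i)).trans hsm
    have h3 := ar3 (k := k) M (fun m => if (s → SpnT M m) ∧
      ∀ i, LL B0 (cl (Nn M)) (c i) (cl (Nn (m i))) then (1 : ℝ) else 0)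
      (fun m i q => sy B0 M (c i) (m i) q)
    have e1 : ∀ m ∈ Fintype.piFinset fun _ : Fin k => M.powerset,
        (((if (s → SpnT M m) ∧ ∀ i, LL B0 (cl (Nn M)) (c i) (cl (Nn (m i))) ∧
          ∀ q ∈ M, sy B0 M (c i) (m i) q = 1 then 1 else 0 : ℕ) : ℝ)) =
        (if (s → SpnT M m) ∧ ∀ i, LL B0 (cl (Nn M)) (c i) (cl (Nn (m i))) then (1 : ℝ) else 0) *
          ∏ q ∈ M, ∏ i, ((1 + sy B0 M (c i) (m i) q) / 2) := by
      intro m hm
      rw [Fintype.mem_piFinset] at hm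
      have hm' : ∀ i, m i ⊆ M := fun i => mem_powerset.1 (hm i)
      have hsign := fun i q hq => sy_sign B0 hB M (c i) (m i) hM (hc' i) (hm' i) q hq
      by_cases hall : ∀ i, ∀ q ∈ M, sy B0 M (c i) (m i) q = 1
      · have hprod : ∏ q ∈ M, ∏ i, ((1 + sy B0 M (c i) (m i) q) / 2) = 1 := by
          refine Finset.prod_eq_one fun q hq => Finset.prod_eq_one fun i _ => ?_
          rw [hall i q hq]
          norm_num
        rw [hprod, mul_one]
        by_cases hcond : (s → SpnT M m) ∧ ∀ i, LL B0 (cl (Nn M)) (c i) (cl (Nn (m i)))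
        · rw [if_pos hcond, if_pos ⟨hcond.1, fun i => ⟨hcond.2 i, hall i⟩⟩, Nat.cast_one]
        · rw [if_neg hcond, if_neg (fun h => hcond ⟨h.1, fun i => (h.2 i).1⟩), Nat.cast_zero]
      · have hneg : ¬ ((s → SpnT M m) ∧ ∀ i, LL B0 (cl (Nn M)) (c i) (cl (Nn (m i))) ∧
            ∀ q ∈ M, sy B0 M (c i) (m i) q = 1) := fun h => hall fun i => (h.2 i).2
        rw [if_neg hneg, Nat.cast_zero]
        push Not at hall
        obtain ⟨i, q, hq, hne⟩ := hall
        have hm1 : sy B0 M (c i) (m i) q = -1 := (hsign i q hq).resolve_left hne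
        have hprod : ∏ q ∈ M, ∏ i, ((1 + sy B0 M (c i) (m i) q) / 2) = 0 := by
          refine Finset.prod_eq_zero hq (Finset.prod_eq_zero (mem_univ i) ?_)
          rw [hm1]
          norm_num
        rw [hprod, mul_zero]
    rw [Finset.sum_congr rfl e1]
    refine h3.trans ?_
    congr 1
    refine Finset.sum_congr rfl fun A hA => ?_
    have h4 := ar4 M hM A hA B0 hB c hc'
    rw [h4, ← mul_assoc]
    congr 1
    have hcl : ∀ i, cl (Nn (prj A i)) = ∑ u : I k, if u.1 i = 1 then clA A u else 0 :=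
      cl_prj hM hA
    have hiff : ((s → SpnT M (prj A)) ∧ ∀ i, LL B0 (cl (Nn M)) (c i) (cl (Nn (prj A i)))) ↔
        ((s → Spn (supp A)) ∧
          ∀ i, LL B0 (cl (Nn M)) (c i) (∑ u : I k, if u.1 i = 1 then clA A u else 0)) := by
      refine and_congr (imp_congr_right fun _ => spn_iff hA) (forall_congr' fun i => ?_)
      rw [hcl i]
    by_cases hcond : (s → Spn (supp A)) ∧
          ∀ i, LL B0 (cl (Nn M)) (c i) (∑ u : I k, if u.1 i = 1 then clA A u else 0)
    · rw [if_pos hcond, if_pos (hiff.2 hcond), one_mul]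
    · rw [if_neg hcond, if_neg (fun h => hcond (hiff.1 h)), zero_mul]
  rw [Finset.sum_congr rfl step, ← Finset.mul_sum]
  congr 1
  rw [Finset.sum_comm]
  refine Finset.sum_congr rfl fun A hA => ?_
  rw [← Finset.sum_mul]
  congr 1
  unfold ff
  by_cases hsp : s → Spn (supp A)
  · rw [if_pos ⟨sum_clA hM hA, hsp⟩]
    refine Finset.sum_congr rfl fun c _ => ?_
    by_cases hL : ∀ i, LL B0 (cl (Nn M)) (c i) (∑ u : I k, if u.1 i = 1 then clA A u else 0)
    · rw [if_pos ⟨hsp, hL⟩, if_pos hL]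
    · rw [if_neg (fun h => hL h.2), if_neg hL]
  · rw [if_neg (fun h => hsp h.2)]
    refine Finset.sum_eq_zero fun c _ => ?_
    rw [if_neg (fun h => hsp h.1)]

end PP15
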