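import Pool.Agent.Lib.MP_87c685_nt_PP15.Bas2

open Finset

namespace PP15

/-- The symbol `(c ∪ m', -n)_q` at a prime `q ∈ M`, `n = N(B0) N(M)`. -/
noncomputable def sy (B0 M c m' : Finset ℕ) (q : ℕ) : ℝ :=
  if q ∈ m' then jac (Nn c * Nn B0 * Nn (M \ m')) q else jac (Nn c * Nn m') q

private theorem Ar1_sg_one_iff (t : ZMod 2) : sg t = 1 ↔ t = 0 := by
  unfold sg
  by_cases h : t = 0
  · simp [h]
  · simp only [h, if_false, iff_false]
    norm_num

private theorem Ar1_prime {B0 : Finset ℕ} (hB : B0 ⊆ {2, 3, 5}) : ∀ p ∈ B0, p.Prime := by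
  intro p hp
  have h := hB hp
  simp only [mem_insert, mem_singleton] at h
  rcases h with rfl | rfl | rfl <;> norm_num

private theorem Ar1_lt {B0 : Finset ℕ} (hB : B0 ⊆ {2, 3, 5}) : ∀ p ∈ B0, p < 7 := by
  intro p hp
  have h := hB hp
  simp only [mem_insert, mem_singleton] at h
  omega

private theorem Ar1_disj {B0 M : Finset ℕ} (hB : B0 ⊆ {2, 3, 5})
    (hM : ∀ p ∈ M, p.Prime ∧ 7 ≤ p) : Disjoint B0 M := by
  rw [Finset.disjoint_left]
  intro p hp hp'
  have h1 := Ar1_lt hB p hp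
  have h2 := (hM p hp').2
  omega

private theorem Ar1_Nn_single (p : ℕ) : Nn {p} = p := by
  simp [Nn]

private theorem Ar1_cop {A : Finset ℕ} (hA : ∀ p ∈ A, p.Prime) {p : ℕ} (hp : p.Prime)
    (h : p ∉ A) : (Nn A).Coprime p := by
  have h1 := Nn_coprime A {p} hA (by
    intro q hq
    rw [mem_singleton] at hq
    rw [hq]
    exact hp) (by
    rw [Finset.disjoint_singleton_right]
    exact h)
  rwa [Ar1_Nn_single] at h1

private theorem Ar1_dvd {A : Finset ℕ} {p : ℕ} (h : p ∈ A) : p ∣ Nn A :=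
  Finset.dvd_prod_of_mem _ h

private theorem Ar1_pf {A : Finset ℕ} (hA : ∀ p ∈ A, p.Prime) : (Nn A).primeFactors = A :=
  Nat.primeFactors_prod hA

private theorem Ar1_sqf {A : Finset ℕ} (hA : ∀ p ∈ A, p.Prime) : Squarefree (Nn A) := by
  classical
  induction A using Finset.induction_on with
  | empty =>
    rw [Nn_empty]
    exact squarefree_one
  | insert p A hp ih =>
    have h1 : Nn (insert p A) = p * Nn A := Finset.prod_insert hp
    have hA' : ∀ q ∈ A, q.Prime := fun q hq => hA q (mem_insert_of_mem hq)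
    have hpp := hA p (mem_insert_self p A)
    rw [h1, Nat.squarefree_mul (Ar1_cop hA' hpp hp).symm]
    exact ⟨hpp.squarefree, ih hA'⟩

private theorem Ar1_union {B0 M : Finset ℕ} (hB : B0 ⊆ {2, 3, 5})
    (hM : ∀ p ∈ M, p.Prime ∧ 7 ≤ p) : ∀ p ∈ B0 ∪ M, p.Prime := by
  intro p hp
  rcases mem_union.mp hp with h | h
  · exact Ar1_prime hB p h
  · exact (hM p h).1

/-- `n` modulo `4` -/
private theorem Ar1_four {B0 M : Finset ℕ} (hB : B0 ⊆ {2, 3, 5})
    (hM : ∀ p ∈ M, p.Prime ∧ 7 ≤ p) :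
    (Nn B0 * Nn M) % 4 = 3 ↔ (2 ∉ B0 ∧ cl (Nn B0) 0 + cl (Nn M) 0 = 1) := by
  by_cases h2 : 2 ∈ B0
  · have h1 : 2 ∣ Nn B0 * Nn M := (Ar1_dvd h2).mul_right _
    constructor
    · intro h
      omega
    · intro h
      exact absurd h2 h.1
  · have h1 : Odd (Nn B0) := by
      rw [← Nat.coprime_two_right]
      exact Ar1_cop (Ar1_prime hB) Nat.prime_two h2
    have h3 : Odd (Nn M) := (Nn_facts M hM).2.2.1
    rw [← cl_mul_zero _ _ h1 h3]
    have h4 : cl (Nn B0 * Nn M) 0 = if (Nn B0 * Nn M) % 4 = 3 then 1 else 0 := rfl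
    rw [h4]
    constructor
    · intro h
      exact ⟨h2, by rw [if_pos h]⟩
    · rintro ⟨-, h⟩
      by_contra h5
      rw [if_neg h5] at h
      exact absurd h (by decide)

/-- `n` modulo `3` -/
private theorem Ar1_three {B0 M : Finset ℕ} (hB : B0 ⊆ {2, 3, 5})
    (hM : ∀ p ∈ M, p.Prime ∧ 7 ≤ p) :
    (Nn B0 * Nn M) % 3 = 1 ↔ (3 ∉ B0 ∧ cl (Nn B0) 2 + cl (Nn M) 2 = 0) := by
  by_cases h2 : 3 ∈ B0
  · have h1 : 3 ∣ Nn B0 * Nn M := (Ar1_dvd h2).mul_right _
    constructor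
    · intro h
      omega
    · intro h
      exact absurd h2 h.1
  · have h1 : (Nn B0).Coprime 3 := Ar1_cop (Ar1_prime hB) Nat.prime_three h2
    have h3 : (Nn M).Coprime 3 := by
      apply Ar1_cop (fun p hp => (hM p hp).1) Nat.prime_three
      intro h
      have := (hM 3 h).2
      omega
    rw [← cl_mul_two _ _ h1 h3]
    have h4 : cl (Nn B0 * Nn M) 2 = if (Nn B0 * Nn M) % 3 = 2 then 1 else 0 := rfl
    have h5 : (Nn B0 * Nn M).Coprime 3 := Nat.Coprime.mul_left h1 h3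
    have h6 : ¬ (3 ∣ Nn B0 * Nn M) := by
      intro h
      have := Nat.Coprime.eq_one_of_dvd h5.symm h
      omega
    rw [h4]
    constructor
    · intro h
      exact ⟨h2, by rw [if_neg (by omega)]⟩
    · rintro ⟨-, h⟩
      have h7 : (Nn B0 * Nn M) % 3 ≠ 2 := by
        intro h7
        rw [if_pos h7] at h
        exact absurd h (by decide)
      omega

/-- `n` modulo `5` -/
private theorem Ar1_five {B0 M : Finset ℕ} (hB : B0 ⊆ {2, 3, 5})
    (hM : ∀ p ∈ M, p.Prime ∧ 7 ≤ p) :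
    ((Nn B0 * Nn M) % 5 = 1 ∨ (Nn B0 * Nn M) % 5 = 4) ↔
      (5 ∉ B0 ∧ cl (Nn B0) 3 + cl (Nn M) 3 = 0) := by
  by_cases h2 : 5 ∈ B0
  · have h1 : 5 ∣ Nn B0 * Nn M := (Ar1_dvd h2).mul_right _
    constructor
    · intro h
      omega
    · intro h
      exact absurd h2 h.1
  · have h1 : (Nn B0).Coprime 5 := Ar1_cop (Ar1_prime hB) Nat.prime_five h2
    have h3 : (Nn M).Coprime 5 := by
      apply Ar1_cop (fun p hp => (hM p hp).1) Nat.prime_five
      intro h
      have := (hM 5 h).2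
      omega
    rw [← cl_mul_three _ _ h1 h3]
    have h4 : cl (Nn B0 * Nn M) 3 =
      if (Nn B0 * Nn M) % 5 = 2 ∨ (Nn B0 * Nn M) % 5 = 3 then 1 else 0 := rfl
    have h5 : (Nn B0 * Nn M).Coprime 5 := Nat.Coprime.mul_left h1 h3
    have h6 : ¬ (5 ∣ Nn B0 * Nn M) := by
      intro h
      have := Nat.Coprime.eq_one_of_dvd h5.symm h
      omega
    rw [h4]
    constructor
    · intro h
      exact ⟨h2, by rw [if_neg (by omega)]⟩
    · rintro ⟨-, h⟩
      have h7 : ¬ ((Nn B0 * Nn M) % 5 = 2 ∨ (Nn B0 * Nn M) % 5 = 3) := by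
        intro h7
        rw [if_pos h7] at h
        exact absurd h (by decide)
      omega

/-- Invariants of `n = N(B0) N(M)`. -/
theorem ar0 (B0 : Finset ℕ) (hB : B0 ⊆ {2, 3, 5}) (M : Finset ℕ)
    (hM : ∀ p ∈ M, p.Prime ∧ 7 ≤ p) :
    Squarefree (Nn B0 * Nn M) ∧ (Nn B0 * Nn M).primeFactors = B0 ∪ M ∧
      bigP (Nn B0 * Nn M) = M ∧ (Sgn (Nn B0 * Nn M) ↔ SgnOK B0 (cl (Nn M))) ∧
      disc (Nn B0 * Nn M) = kap B0 (cl (Nn M)) * Nn M ∧
      X15B.SS (Nn B0 * Nn M) = small B0 (cl (Nn M)) ∪ M ∧ small B0 (cl (Nn M)) ⊆ {2, 3, 5} := by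
  have hu : Nn (B0 ∪ M) = Nn B0 * Nn M := Nn_union B0 M (Ar1_disj hB hM)
  have hpf : (Nn B0 * Nn M).primeFactors = B0 ∪ M := by
    rw [← hu]
    exact Ar1_pf (Ar1_union hB hM)
  refine ⟨?_, hpf, ?_, ?_, ?_, ?_, ?_⟩
  · rw [← hu]
    exact Ar1_sqf (Ar1_union hB hM)
  · unfold bigP
    rw [hpf]
    ext p
    rw [mem_filter, mem_union]
    constructor
    · rintro ⟨h | h, h7⟩
      · have := Ar1_lt hB p h
        omega
      · exact h
    · intro h
      exact ⟨Or.inr h, (hM p h).2⟩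
  · unfold Sgn SgnOK
    rw [Ar1_three hB hM, Ar1_five hB hM]
  · unfold disc kap
    by_cases h : (Nn B0 * Nn M) % 4 = 3
    · rw [if_pos h, if_pos ((Ar1_four hB hM).mp h)]
    · rw [if_neg h, if_neg (fun h' => h ((Ar1_four hB hM).mpr h')), mul_assoc]
  · unfold X15B.SS small
    rw [hpf]
    have h4 : (if (Nn B0 * Nn M) % 4 = 3 then (∅ : Finset ℕ) else {2}) =
        if 2 ∉ B0 ∧ cl (Nn B0) 0 + cl (Nn M) 0 = 1 then ∅ else {2} := by
      by_cases h : (Nn B0 * Nn M) % 4 = 3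
      · rw [if_pos h, if_pos ((Ar1_four hB hM).mp h)]
      · rw [if_neg h, if_neg (fun h' => h ((Ar1_four hB hM).mpr h'))]
    have h3 : (if (Nn B0 * Nn M) % 3 = 1 then ({5} : Finset ℕ) else ∅) =
        if 3 ∉ B0 ∧ cl (Nn B0) 2 + cl (Nn M) 2 = 0 then {5} else ∅ := by
      by_cases h : (Nn B0 * Nn M) % 3 = 1
      · rw [if_pos h, if_pos ((Ar1_three hB hM).mp h)]
      · rw [if_neg h, if_neg (fun h' => h ((Ar1_three hB hM).mpr h'))]
    have h5 : (B0 ∪ M).filter (fun p => p ≠ 2) = B0.filter (fun p => p ≠ 2) ∪ M := by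
      rw [filter_union]
      congr 1
      rw [filter_eq_self]
      intro p hp
      have := (hM p hp).2
      omega
    rw [h4, h3, h5]
    ext p
    simp only [mem_union]
    tauto
  · unfold small
    intro p hp
    rw [mem_union, mem_union] at hp
    rcases hp with (hp | hp) | hp
    · exact hB (mem_filter.mp hp).1
    · split_ifs at hp
      · exact absurd hp (notMem_empty p)
      · rw [mem_singleton] at hp
        simp [hp]
    · split_ifs at hp
      · rw [mem_singleton] at hp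
        simp [hp]
      · exact absurd hp (notMem_empty p)

/-- the product of symbols over a set -/
private theorem Ar1_prod (n q : ℕ) (m : Finset ℕ) :
    (∏ s ∈ m, X15B.ep n q s = 1) ↔
      (if q ∈ m then jac (n / q) q else 1) * jac (Nn (m.erase q)) q = 1 := by
  have h1 : ((∏ s ∈ m, X15B.ep n q s : ℤ) : ℝ) =
      (if q ∈ m then jac (n / q) q else 1) * jac (Nn (m.erase q)) q := by
    have h2 : ∀ s, ((X15B.ep n q s : ℤ) : ℝ) = if s = q then jac (n / q) q else jac s q := by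
      intro s
      unfold X15B.ep jac
      split_ifs <;> rfl
    rw [Int.cast_prod, jac_Nn_left]
    simp only [h2]
    by_cases hq : q ∈ m
    · rw [if_pos hq, ← Finset.mul_prod_erase m _ hq, if_pos rfl]
      congr 1
      apply Finset.prod_congr rfl
      intro s hs
      rw [if_neg (Finset.ne_of_mem_erase hs)]
    · rw [if_neg hq, one_mul, Finset.erase_eq_of_notMem hq]
      apply Finset.prod_congr rfl
      intro s hs
      rw [if_neg]
      rintro rfl
      exact hq hs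
  rw [← h1]
  norm_cast

/-- Membership in `PhiF n`. -/
theorem ar1 (B0 : Finset ℕ) (hB : B0 ⊆ {2, 3, 5}) (M : Finset ℕ)
    (hM : ∀ p ∈ M, p.Prime ∧ 7 ≤ p) (hs : SgnOK B0 (cl (Nn M))) (c m' : Finset ℕ)
    (hc : c ⊆ small B0 (cl (Nn M))) (hm : m' ⊆ M) :
    (c ∪ m' ∈ X15B.PhiF (Nn B0 * Nn M)) ↔
      (LL B0 (cl (Nn M)) c (cl (Nn m')) ∧ ∀ q ∈ M, sy B0 M c m' q = 1) := by
  obtain ⟨-, hpf, -, -, -, hSS, hsm⟩ := ar0 B0 hB M hM
  have hc5 : c ⊆ {2, 3, 5} := hc.trans hsm
  have hcp := Ar1_prime hc5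
  have hclt := Ar1_lt hc5
  have hBp := Ar1_prime hB
  have hBlt := Ar1_lt hB
  have hm' : ∀ p ∈ m', p.Prime ∧ 7 ≤ p := fun p hp => hM p (hm hp)
  have hu : Nn (B0 ∪ M) = Nn B0 * Nn M := Nn_union B0 M (Ar1_disj hB hM)
  obtain ⟨n, hn⟩ : ∃ n, n = Nn B0 * Nn M := ⟨_, rfl⟩
  -- the quotients
  have hdiv : ∀ q ∈ B0 ∪ M, n / q = Nn ((B0 ∪ M).erase q) := by
    intro q hq
    rw [hn, ← hu]
    apply Nat.div_eq_of_eq_mul_right (Ar1_union hB hM q hq).pos
    exact (Finset.mul_prod_erase (B0 ∪ M) (fun p => p) hq).symm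
  have hdivB : ∀ q ∈ B0, n / q = Nn (B0.erase q) * Nn M := by
    intro q hq
    rw [hdiv q (mem_union_left _ hq)]
    have h1 : (B0 ∪ M).erase q = B0.erase q ∪ M := by
      ext p
      simp only [mem_erase, mem_union]
      constructor
      · rintro ⟨h1, h2 | h2⟩
        · exact Or.inl ⟨h1, h2⟩
        · exact Or.inr h2
      · rintro (⟨h1, h2⟩ | h2)
        · exact ⟨h1, Or.inl h2⟩
        · refine ⟨?_, Or.inr h2⟩
          rintro rfl
          have := hBlt p hq
          have := (hM p h2).2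
          omega
    rw [h1, Nn_union]
    exact Ar1_disj ((erase_subset q B0).trans hB) hM
  have hmem : c ∪ m' ∈ (X15B.SS n).powerset := by
    rw [mem_powerset, hn, hSS]
    exact union_subset_union hc hm
  have hPhi : (c ∪ m' ∈ X15B.PhiF n) ↔ ∀ q ∈ X15B.TT n, ∏ s ∈ c ∪ m', X15B.ep n q s = 1 := by
    unfold X15B.PhiF
    rw [mem_filter]
    exact ⟨fun h => h.2, fun h => ⟨hmem, h⟩⟩
  -- the class of `m'`
  have hγ : ∀ i, cl (Nn m') i = ∑ p ∈ m', cl p i := by
    intro i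
    rw [cl_Nn m' hm', Finset.sum_apply]
  -- the conditions at `3` and `5`
  have herase : ∀ q, q < 7 → (c ∪ m').erase q = c.erase q ∪ m' := by
    intro q hq
    ext p
    simp only [mem_erase, mem_union]
    constructor
    · rintro ⟨h1, h2 | h2⟩
      · exact Or.inl ⟨h1, h2⟩
      · exact Or.inr h2
    · rintro (⟨h1, h2⟩ | h2)
      · exact ⟨h1, Or.inl h2⟩
      · refine ⟨?_, Or.inr h2⟩
        rintro rfl
        have := (hm' p h2).2
        omega
  have hdisj : ∀ q, Disjoint (c.erase q) m' := by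
    intro q
    exact Ar1_disj ((erase_subset q c).trans hc5) hm'
  have hmemq : ∀ q, q < 7 → (q ∈ c ∪ m' ↔ q ∈ c) := by
    intro q hq
    rw [mem_union]
    constructor
    · rintro (h | h)
      · exact h
      · have := (hm' q h).2
        omega
    · exact Or.inl
  have hcopq : ∀ q, q.Prime → q < 7 → ∀ p ∈ c.erase q ∪ m', p.Coprime q := by
    intro q hq hq7 p hp
    rw [mem_union, mem_erase] at hp
    rcases hp with ⟨h1, h2⟩ | h2
    · exact (Nat.coprime_primes (hcp p h2) hq).mpr h1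
    · have := (hm' p h2).2
      exact (Nat.coprime_primes (hm' p h2).1 hq).mpr (by omega)
  have hq3 : jac (Nn ((c ∪ m').erase 3)) 3 = sg (∑ s ∈ c.erase 3, cl s 2 + cl (Nn m') 2) := by
    rw [herase 3 (by norm_num), jac_Nn_left, hγ, ← Finset.sum_union (hdisj 3), sg_sum]
    apply Finset.prod_congr rfl
    intro s hs'
    exact jac_mod_three s (hcopq 3 Nat.prime_three (by norm_num) s hs')
  have hq5 : jac (Nn ((c ∪ m').erase 5)) 5 = sg (∑ s ∈ c.erase 5, cl s 3 + cl (Nn m') 3) := by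
    rw [herase 5 (by norm_num), jac_Nn_left, hγ, ← Finset.sum_union (hdisj 5), sg_sum]
    apply Finset.prod_congr rfl
    intro s hs'
    exact jac_mod_five s (hcopq 5 Nat.prime_five (by norm_num) s hs')
  have hcop3 : ∀ A : Finset ℕ, A ⊆ {2, 3, 5} → 3 ∉ A → (Nn A).Coprime 3 := fun A hA h =>
    Ar1_cop (Ar1_prime hA) Nat.prime_three h
  have hcop5 : ∀ A : Finset ℕ, A ⊆ {2, 3, 5} → 5 ∉ A → (Nn A).Coprime 5 := fun A hA h =>
    Ar1_cop (Ar1_prime hA) Nat.prime_five h
  have hM3 : (Nn M).Coprime 3 := by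
    apply Ar1_cop (fun p hp => (hM p hp).1) Nat.prime_three
    intro h
    have := (hM 3 h).2
    omega
  have hM5 : (Nn M).Coprime 5 := by
    apply Ar1_cop (fun p hp => (hM p hp).1) Nat.prime_five
    intro h
    have := (hM 5 h).2
    omega
  have c3 : 3 ∈ B0 → ((∏ s ∈ c ∪ m', X15B.ep n 3 s = 1) ↔
      cl (Nn m') 2 + ∑ s ∈ c.erase 3, cl s 2 +
        (if 3 ∈ c then cl (Nn (B0.erase 3)) 2 + cl (Nn M) 2 else 0) = 0) := by
    intro h3
    rw [Ar1_prod, hq3, ← Ar1_sg_one_iff]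
    have h1 : (if 3 ∈ c ∪ m' then jac (n / 3) 3 else 1) =
        sg (if 3 ∈ c then cl (Nn (B0.erase 3)) 2 + cl (Nn M) 2 else 0) := by
      by_cases h : 3 ∈ c
      · rw [if_pos h, if_pos ((hmemq 3 (by norm_num)).mpr h), hdivB 3 h3, jac_mul_left,
          jac_mod_three _ (hcop3 _ ((erase_subset 3 B0).trans hB) (notMem_erase 3 B0)),
          jac_mod_three _ hM3, sg_add]
      · rw [if_neg h, if_neg (fun h' => h ((hmemq 3 (by norm_num)).mp h')), sg_zero]
    rw [h1, ← sg_add]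
    have h2 : ∀ x y z : ZMod 2, x + (y + z) = z + y + x := by
      intro x y z
      ring
    rw [h2]
  have c3' : 3 ∉ c → ((∏ s ∈ c ∪ m', X15B.ep n 3 s = 1) ↔
      cl (Nn m') 2 + ∑ s ∈ c, cl s 2 = 0) := by
    intro h3
    rw [Ar1_prod, hq3, ← Ar1_sg_one_iff, if_neg (fun h' => h3 ((hmemq 3 (by norm_num)).mp h')),
      one_mul, erase_eq_of_notMem h3, add_comm]
  have c5 : 5 ∈ B0 → ((∏ s ∈ c ∪ m', X15B.ep n 5 s = 1) ↔
      cl (Nn m') 3 + ∑ s ∈ c.erase 5, cl s 3 +
        (if 5 ∈ c then cl (Nn (B0.erase 5)) 3 + cl (Nn M) 3 else 0) = 0) := by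
    intro h5
    rw [Ar1_prod, hq5, ← Ar1_sg_one_iff]
    have h1 : (if 5 ∈ c ∪ m' then jac (n / 5) 5 else 1) =
        sg (if 5 ∈ c then cl (Nn (B0.erase 5)) 3 + cl (Nn M) 3 else 0) := by
      by_cases h : 5 ∈ c
      · rw [if_pos h, if_pos ((hmemq 5 (by norm_num)).mpr h), hdivB 5 h5, jac_mul_left,
          jac_mod_five _ (hcop5 _ ((erase_subset 5 B0).trans hB) (notMem_erase 5 B0)),
          jac_mod_five _ hM5, sg_add]
      · rw [if_neg h, if_neg (fun h' => h ((hmemq 5 (by norm_num)).mp h')), sg_zero]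
    rw [h1, ← sg_add]
    have h2 : ∀ x y z : ZMod 2, x + (y + z) = z + y + x := by
      intro x y z
      ring
    rw [h2]
  -- the conditions at the primes of `M`
  have cM : ∀ q ∈ M, ((∏ s ∈ c ∪ m', X15B.ep n q s = 1) ↔ sy B0 M c m' q = 1) := by
    intro q hq
    obtain ⟨hqp, hq7⟩ := hM q hq
    have hqc : q ∉ c := fun h => by
      have := hclt q h
      omega
    have hqB : q ∉ B0 := fun h => by
      have := hBlt q h
      omega
    rw [Ar1_prod]
    unfold sy
    by_cases hqm : q ∈ m'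
    · rw [if_pos hqm, if_pos (mem_union_right _ hqm)]
      have h1 : (c ∪ m').erase q = c ∪ m'.erase q := by
        ext p
        simp only [mem_erase, mem_union]
        constructor
        · rintro ⟨h1, h2 | h2⟩
          · exact Or.inl h2
          · exact Or.inr ⟨h1, h2⟩
        · rintro (h2 | ⟨h1, h2⟩)
          · refine ⟨?_, Or.inl h2⟩
            rintro rfl
            exact hqc h2
          · exact ⟨h1, Or.inr h2⟩
      have h2 : (B0 ∪ M).erase q = (B0 ∪ (M \ m')) ∪ m'.erase q := by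
        ext p
        simp only [mem_erase, mem_union, mem_sdiff]
        constructor
        · rintro ⟨h1, h2 | h2⟩
          · exact Or.inl (Or.inl h2)
          · by_cases h3 : p ∈ m'
            · exact Or.inr ⟨h1, h3⟩
            · exact Or.inl (Or.inr ⟨h2, h3⟩)
        · rintro ((h2 | ⟨h2, h3⟩) | ⟨h1, h2⟩)
          · refine ⟨?_, Or.inl h2⟩
            rintro rfl
            exact hqB h2
          · refine ⟨?_, Or.inr h2⟩
            rintro rfl
            exact h3 hqm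
          · exact ⟨h1, Or.inr (hm h2)⟩
      have h3 : Nn ((c ∪ m').erase q) = Nn c * Nn (m'.erase q) := by
        rw [h1, Nn_union]
        exact (Ar1_disj hc5 hm').mono_right (erase_subset q m')
      have hM' : ∀ p ∈ M \ m', p.Prime ∧ 7 ≤ p := fun p hp => hM p (mem_sdiff.mp hp).1
      have h4 : n / q = Nn B0 * Nn (M \ m') * Nn (m'.erase q) := by
        rw [hdiv q (mem_union_right _ hq), h2, Nn_union, Nn_union _ _ (Ar1_disj hB hM')]
        rw [Finset.disjoint_union_left]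
        constructor
        · exact (Ar1_disj hB hm').mono_right (erase_subset q m')
        · exact Finset.sdiff_disjoint.mono_right (erase_subset q m')
      have h5 : (Nn (m'.erase q)).Coprime q :=
        Ar1_cop (fun p hp => (hm' p (mem_of_mem_erase hp)).1) hqp (notMem_erase q m')
      have h6 := jac_sq _ _ h5
      rw [h3, h4, jac_mul_left, jac_mul_left, jac_mul_left, jac_mul_left, jac_mul_left]
      have h7 : jac (Nn B0) q * jac (Nn (M \ m')) q * jac (Nn (m'.erase q)) q *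
          (jac (Nn c) q * jac (Nn (m'.erase q)) q) =
          jac (Nn c) q * jac (Nn B0) q * jac (Nn (M \ m')) q *
            (jac (Nn (m'.erase q)) q * jac (Nn (m'.erase q)) q) := by ring
      rw [h7, h6, mul_one]
    · have h0 : q ∉ c ∪ m' := fun h => by
        rcases mem_union.mp h with h | h
        · exact hqc h
        · exact hqm h
      rw [if_neg hqm, if_neg h0, one_mul, erase_eq_of_notMem h0,
        Nn_union _ _ (Ar1_disj hc5 hm')]
  have hB2 : ∀ q ∈ B0, q ≠ 2 → q = 3 ∨ q = 5 := by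
    intro q hq h2
    have h := hB hq
    simp only [mem_insert, mem_singleton] at h
    omega
  have hcB3 : 3 ∈ c → 3 ∈ B0 := by
    intro h
    have h1 := hc h
    unfold small at h1
    rw [mem_union, mem_union] at h1
    rcases h1 with (h1 | h1) | h1
    · exact (mem_filter.mp h1).1
    · split_ifs at h1
      · exact absurd h1 (notMem_empty 3)
      · rw [mem_singleton] at h1
        omega
    · split_ifs at h1
      · rw [mem_singleton] at h1
        omega
      · exact absurd h1 (notMem_empty 3)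
  rw [← hn, hPhi]
  have hTT : ∀ q, q ∈ X15B.TT n ↔ ((q ∈ B0 ∧ q ≠ 2) ∨ q ∈ M) ∨
      ((3 ∉ B0 ∧ cl (Nn B0) 2 + cl (Nn M) 2 = 0) ∧ q = 3) := by
    intro q
    unfold X15B.TT
    rw [hn, hpf, mem_union, mem_filter, mem_union, ← Ar1_three hB hM]
    constructor
    · rintro (⟨h1 | h1, h2⟩ | h1)
      · exact Or.inl (Or.inl ⟨h1, h2⟩)
      · exact Or.inl (Or.inr h1)
      · right
        split_ifs at h1 with h2
        · rw [mem_singleton] at h1
          exact ⟨h2, h1⟩
        · exact absurd h1 (notMem_empty q)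
    · rintro ((⟨h1, h2⟩ | h1) | ⟨h1, h2⟩)
      · exact Or.inl ⟨Or.inl h1, h2⟩
      · refine Or.inl ⟨Or.inr h1, ?_⟩
        have := (hM q h1).2
        omega
      · right
        rw [if_pos h1, mem_singleton]
        exact h2
  constructor
  · intro h
    refine ⟨⟨?_, ?_, ?_⟩, ?_⟩
    · intro h3
      exact (c3 h3).mp (h 3 ((hTT 3).mpr (Or.inl (Or.inl ⟨h3, by norm_num⟩))))
    · intro h3
      exact (c3' (fun h' => h3.1 (hcB3 h'))).mp (h 3 ((hTT 3).mpr (Or.inr ⟨h3, rfl⟩)))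
    · intro h5
      exact (c5 h5).mp (h 5 ((hTT 5).mpr (Or.inl (Or.inl ⟨h5, by norm_num⟩))))
    · intro q hq
      exact (cM q hq).mp (h q ((hTT q).mpr (Or.inl (Or.inr hq))))
  · rintro ⟨⟨h1, h2, h3⟩, h4⟩ q hq
    rcases (hTT q).mp hq with (⟨h5, h6⟩ | h5) | ⟨h5, rfl⟩
    · rcases hB2 q h5 h6 with rfl | rfl
      · exact (c3 h5).mpr (h1 h5)
      · exact (c5 h5).mpr (h3 h5)
    · exact (cM q h5).mpr (h4 q h5)
    · exact (c3' (fun h' => h5.1 (hcB3 h'))).mpr (h2 h5)

/-- The symbols are signs. -/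
theorem sy_sign (B0 : Finset ℕ) (hB : B0 ⊆ {2, 3, 5}) (M c m' : Finset ℕ)
    (hM : ∀ p ∈ M, p.Prime ∧ 7 ≤ p) (hc : c ⊆ {2, 3, 5}) (hm : m' ⊆ M) (q : ℕ) (hq : q ∈ M) :
    sy B0 M c m' q = 1 ∨ sy B0 M c m' q = -1 := by
  obtain ⟨hqp, hq7⟩ := hM q hq
  have hc' : (Nn c).Coprime q := Ar1_cop (Ar1_prime hc) hqp (fun h => by
    have := Ar1_lt hc q h
    omega)
  have hB' : (Nn B0).Coprime q := Ar1_cop (Ar1_prime hB) hqp (fun h => by
    have := Ar1_lt hB q h
    omega)
  unfold sy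
  by_cases hqm : q ∈ m'
  · rw [if_pos hqm]
    apply jac_sign
    have h1 : (Nn (M \ m')).Coprime q := by
      apply Ar1_cop (fun p hp => (hM p (mem_sdiff.mp hp).1).1) hqp
      intro h
      exact (mem_sdiff.mp h).2 hqm
    exact Nat.Coprime.mul_left (Nat.Coprime.mul_left hc' hB') h1
  · rw [if_neg hqm]
    apply jac_sign
    exact Nat.Coprime.mul_left hc' (Ar1_cop (fun p hp => (hM p (hm hp)).1) hqp hqm)

end PP15
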