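import Pool.Agent.Lib.MP_87c685_nt_PP15.Defs

open Finset

namespace PP15

open Classical in
/-- The `k` sets attached to a family. -/
noncomputable def prj {k : ℕ} (A : I k → Finset ℕ) (i : Fin k) : Finset ℕ :=
  (univ.filter fun u : I k => u.1 i = 1).biUnion A

namespace Ar3

variable {k : ℕ} {M : Finset ℕ}

/-- the sets given by a labelling -/
private def mk (x : M → V k) (i : Fin k) : Finset ℕ :=
  (univ.filter fun q : M => x q i = 1).map (Function.Embedding.subtype _)

/-- the family given by a labelling -/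
private def fam (l : M → I k) (u : I k) : Finset ℕ :=
  (univ.filter fun q : M => l q = u).map (Function.Embedding.subtype _)

private lemma mem_mk (x : M → V k) (i : Fin k) (q : ℕ) :
    q ∈ mk x i ↔ ∃ h : q ∈ M, x ⟨q, h⟩ i = 1 := by
  unfold mk
  simp

private lemma mem_fam (l : M → I k) (u : I k) (q : ℕ) :
    q ∈ fam l u ↔ ∃ h : q ∈ M, l ⟨q, h⟩ = u := by
  unfold fam
  simp

private lemma zmod_two (t : ZMod 2) : (if t = 1 then (1 : ZMod 2) else 0) = t := by
  revert t
  decide

private lemma sum_pow (f : (Fin k → Finset ℕ) → ℝ) :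
    ∑ m ∈ Fintype.piFinset (fun _ : Fin k => M.powerset), f m = ∑ x : M → V k, f (mk x) := by
  classical
  refine Finset.sum_bij' (fun m _ => fun (q : M) i => if (q : ℕ) ∈ m i then 1 else 0)
    (fun x _ => mk x) (fun _ _ => mem_univ _) ?_ ?_ ?_ ?_
  · intro x _
    rw [Fintype.mem_piFinset]
    intro i
    rw [Finset.mem_powerset]
    intro q hq
    exact ((mem_mk x i q).1 hq).1
  · intro m hm
    rw [Fintype.mem_piFinset] at hm
    funext i
    ext q
    rw [mem_mk]
    constructor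
    · rintro ⟨h, h1⟩
      by_contra h2
      rw [if_neg h2] at h1
      exact zero_ne_one h1
    · intro h
      exact ⟨Finset.mem_powerset.1 (hm i) h, if_pos h⟩
  · intro x _
    funext q i
    have h1 : ((q : ℕ) ∈ mk x i) ↔ x q i = 1 := by
      rw [mem_mk]
      exact ⟨fun h => h.2, fun h => ⟨q.2, h⟩⟩
    simp only [h1]
    exact zmod_two _
  · intro m hm
    rw [Fintype.mem_piFinset] at hm
    congr 1
    funext i
    ext q
    rw [mem_mk]
    constructor
    · intro h
      exact ⟨Finset.mem_powerset.1 (hm i) h, if_pos h⟩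
    · rintro ⟨h, h1⟩
      by_contra h2
      rw [if_neg h2] at h1
      exact zero_ne_one h1

private lemma exists_label {A : I k → Finset ℕ} (hA : A ∈ Fam k M) (q : M) :
    ∃ u, (q : ℕ) ∈ A u := by
  classical
  unfold Fam at hA
  rw [Finset.mem_filter] at hA
  have h1 : (q : ℕ) ∈ univ.biUnion A := by
    rw [hA.2.2]
    exact q.2
  obtain ⟨u, _, hu⟩ := Finset.mem_biUnion.1 h1
  exact ⟨u, hu⟩

private lemma label_unique {A : I k → Finset ℕ} (hA : A ∈ Fam k M) {q : ℕ} {u v : I k}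
    (hu : q ∈ A u) (hv : q ∈ A v) : u = v := by
  classical
  unfold Fam at hA
  rw [Finset.mem_filter] at hA
  by_contra hne
  exact Finset.disjoint_left.1 (hA.2.1 u v hne) hu hv

private lemma sub_M {A : I k → Finset ℕ} (hA : A ∈ Fam k M) (u : I k) : A u ⊆ M := by
  classical
  unfold Fam at hA
  rw [Finset.mem_filter, Fintype.mem_piFinset] at hA
  exact Finset.mem_powerset.1 (hA.1 u)

private lemma fam_mem (l : M → I k) : fam l ∈ Fam k M := by
  classical
  unfold Fam
  rw [Finset.mem_filter, Fintype.mem_piFinset]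
  refine ⟨fun u => ?_, ?_, ?_⟩
  · rw [Finset.mem_powerset]
    intro q hq
    exact ((mem_fam l u q).1 hq).1
  · intro u v huv
    rw [Finset.disjoint_left]
    intro q hq hq'
    obtain ⟨h, h1⟩ := (mem_fam l u q).1 hq
    obtain ⟨h', h2⟩ := (mem_fam l v q).1 hq'
    exact huv (h1.symm.trans h2)
  · ext q
    rw [Finset.mem_biUnion]
    constructor
    · rintro ⟨u, _, hu⟩
      exact ((mem_fam l u q).1 hu).1
    · intro h
      exact ⟨l ⟨q, h⟩, mem_univ _, (mem_fam l _ q).2 ⟨h, rfl⟩⟩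

private lemma sum_fam (f : (I k → Finset ℕ) → ℝ) :
    ∑ A ∈ Fam k M, f A = ∑ l : M → I k, f (fam l) := by
  classical
  have hinv : ∀ A (hA : A ∈ Fam k M), fam (fun q : M => (exists_label hA q).choose) = A := by
    intro A hA
    funext u
    ext q
    rw [mem_fam]
    constructor
    · rintro ⟨h, h1⟩
      have h2 := (exists_label hA ⟨q, h⟩).choose_spec
      rw [h1] at h2
      exact h2
    · intro h
      have hM : q ∈ M := sub_M hA u h
      exact ⟨hM, label_unique hA (exists_label hA ⟨q, hM⟩).choose_spec h⟩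
  refine Finset.sum_bij' (fun A hA => fun q : M => (exists_label hA q).choose)
    (fun l _ => fam l) (fun _ _ => mem_univ _) (fun l _ => fam_mem l) ?_ ?_ ?_
  · intro A hA
    exact hinv A hA
  · intro l _
    funext q
    have h1 := (exists_label (fam_mem l) q).choose_spec
    exact ((mem_fam l _ q).1 h1).2.symm
  · intro A hA
    rw [hinv A hA]

private lemma prj_fam (l : M → I k) : prj (fam l) = mk (fun q => (l q).1) := by
  classical
  funext i
  ext q
  unfold prj
  rw [Finset.mem_biUnion, mem_mk]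
  constructor
  · rintro ⟨u, hu, hq⟩
    obtain ⟨h, h1⟩ := (mem_fam l u q).1 hq
    rw [Finset.mem_filter] at hu
    exact ⟨h, by rw [h1]; exact hu.2⟩
  · rintro ⟨h, h1⟩
    refine ⟨l ⟨q, h⟩, ?_, (mem_fam l _ q).2 ⟨h, rfl⟩⟩
    rw [Finset.mem_filter]
    exact ⟨mem_univ _, h1⟩

private lemma prod_fam (l : M → I k) (g : I k → ℕ → ℝ) :
    ∏ u, ∏ q ∈ fam l u, g u q = ∏ q : M, g (l q) q := by
  classical
  rw [← Finset.prod_fiberwise Finset.univ l (fun q : M => g (l q) q)]
  refine Finset.prod_congr rfl fun u _ => ?_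
  unfold fam
  rw [Finset.prod_map]
  refine Finset.prod_congr rfl fun q hq => ?_
  rw [Finset.mem_filter] at hq
  rw [hq.2]
  rfl

private lemma expand_one (a : Fin k → ℝ) :
    ∏ i, ((1 + a i) / 2) = (1 / 2 : ℝ) ^ k * ∑ y : V k, ∏ i, (if y i = 1 then a i else 1) := by
  classical
  have h1 : ∀ i, (1 + a i) / 2 = (1 / 2 : ℝ) * ∑ t : ZMod 2, (if t = 1 then a i else 1) := by
    intro i
    have h2 : ∑ t : ZMod 2, (if t = 1 then a i else 1) = 1 + a i := by
      change ∑ t : Fin 2, (if (t : ZMod 2) = 1 then a i else 1) = 1 + a i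
      rw [Fin.sum_univ_two]
      simp
    rw [h2]
    ring
  rw [Finset.prod_congr rfl fun i _ => h1 i, Finset.prod_mul_distrib, Finset.prod_const,
    Finset.card_univ, Fintype.card_fin, Finset.prod_univ_sum, Fintype.piFinset_univ]

private lemma expand (a : Fin k → ℕ → ℝ) :
    ∏ q ∈ M, ∏ i, ((1 + a i q) / 2) = ((1 / 2 : ℝ) ^ k) ^ M.card *
      ∑ Y : M → V k, ∏ q : M, ∏ i, (if Y q i = 1 then a i q else 1) := by
  classical
  rw [← Finset.prod_coe_sort M (fun q => ∏ i, ((1 + a i q) / 2))]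
  rw [Finset.prod_congr rfl fun (q : M) _ => expand_one (fun i => a i q),
    Finset.prod_mul_distrib, Finset.prod_const, Finset.card_univ, Fintype.card_coe,
    Finset.prod_univ_sum, Fintype.piFinset_univ]

end Ar3

open Classical in
/-- Expansion over families. -/
theorem ar3 {k : ℕ} (M : Finset ℕ) (h : (Fin k → Finset ℕ) → ℝ)
    (s : (Fin k → Finset ℕ) → Fin k → ℕ → ℝ) :
    ∑ m ∈ Fintype.piFinset fun _ : Fin k => M.powerset,
      h m * ∏ q ∈ M, ∏ i, ((1 + s m i q) / 2) =
    ((1 / 2 : ℝ) ^ k) ^ M.card * ∑ A ∈ Fam k M, h (prj A) *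
      ∏ u : I k, ∏ q ∈ A u, ∏ i, if u.2 i = 1 then s (prj A) i q else 1 := by
  classical
  rw [Ar3.sum_pow, Ar3.sum_fam]
  have hL : ∀ x : M → V k, h (Ar3.mk x) * ∏ q ∈ M, ∏ i, ((1 + s (Ar3.mk x) i q) / 2) =
      ((1 / 2 : ℝ) ^ k) ^ M.card * ∑ Y : M → V k, h (Ar3.mk x) *
        ∏ q : M, ∏ i, (if Y q i = 1 then s (Ar3.mk x) i q else 1) := by
    intro x
    rw [Ar3.expand (s (Ar3.mk x)), ← Finset.mul_sum]
    ring
  rw [Finset.sum_congr rfl fun x _ => hL x, ← Finset.mul_sum]
  congr 1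
  have hR : ∀ l : M → I k, h (prj (Ar3.fam l)) * ∏ u : I k, ∏ q ∈ Ar3.fam l u, ∏ i,
      (if u.2 i = 1 then s (prj (Ar3.fam l)) i q else 1) =
      h (Ar3.mk (fun q => (l q).1)) * ∏ q : M, ∏ i,
        (if (l q).2 i = 1 then s (Ar3.mk (fun q => (l q).1)) i q else 1) := by
    intro l
    rw [Ar3.prj_fam, Ar3.prod_fam l (fun u q => ∏ i,
      (if u.2 i = 1 then s (Ar3.mk (fun q => (l q).1)) i q else 1))]
  rw [Finset.sum_congr rfl fun l _ => hR l]
  rw [← Fintype.sum_prod_type' (fun (x Y : M → V k) => h (Ar3.mk x) *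
    ∏ q : M, ∏ i, (if Y q i = 1 then s (Ar3.mk x) i q else 1))]
  exact (Equiv.sum_comp (Equiv.arrowProdEquivProdArrow M (fun _ => V k) (fun _ => V k))
    (fun p : (M → V k) × (M → V k) => h (Ar3.mk p.1) *
    ∏ q : M, ∏ i, (if p.2 q i = 1 then s (Ar3.mk p.1) i q else 1))).symm

end PP15
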