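import Pool.Agent.Lib.MP_87c685_nt_PP15.Ar1
import Pool.Agent.Lib.MP_87c685_nt_PP15.Ar3

open Finset

namespace PP15

theorem Ar4_zmod (t : ZMod 2) : t = 0 ∨ t = 1 := by
  revert t
  decide

/-- A product of powers of a sign. -/
theorem Ar4_sign {ι : Type*} (s : Finset ι) (t : ι → ZMod 2) (x : ℝ) (hx : x * x = 1) :
    ∏ i ∈ s, (if t i = 1 then x else 1) = if ∑ i ∈ s, t i = 1 then x else 1 := by
  classical
  induction s using Finset.induction_on with
  | empty => simp
  | insert a s ha ih =>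
    rw [Finset.prod_insert ha, Finset.sum_insert ha, ih]
    rcases Ar4_zmod (t a) with h1 | h1 <;> rcases Ar4_zmod (∑ i ∈ s, t i) with h2 | h2
    · simp [h1, h2]
    · simp [h1, h2]
    · simp [h1, h2]
    · rw [h1, h2, if_pos rfl, if_neg (by decide)]
      exact hx

theorem Ar4_sg_mul (t w : ZMod 2) : sg (t * w) = if t = 1 then sg w else 1 := by
  rcases Ar4_zmod t with h | h
  · rw [h, zero_mul, sg_zero, if_neg (by decide)]
  · rw [h, one_mul, if_pos rfl]

theorem Ar4_jac_prod {ι : Type*} (s : Finset ι) (N : ι → ℕ) (q : ℕ) :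
    jac (∏ v ∈ s, N v) q = ∏ v ∈ s, jac (N v) q := by
  classical
  induction s using Finset.induction_on with
  | empty => simp [jac_one_left]
  | insert a s ha ih => rw [Finset.prod_insert ha, Finset.prod_insert ha, jac_mul_left, ih]

theorem Ar4_Nn_biUnion {k : ℕ} (A : I k → Finset ℕ) (s : Finset (I k))
    (hd : ∀ u v, u ≠ v → Disjoint (A u) (A v)) :
    Nn (s.biUnion A) = ∏ v ∈ s, Nn (A v) := by
  unfold Nn
  rw [Finset.prod_biUnion]
  intro u _ v _ huv
  exact hd u v huv

/-- The sum of the exponents. -/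
theorem Ar4_dot {k : ℕ} (c : Fin k → G) (b : G) (t : V k) (w : ZMod 2) (g : G) :
    sg ((∑ i, t i • c i + w • b) ⬝ᵥ g) =
      (∏ i, if t i = 1 then sg (c i ⬝ᵥ g) else 1) * if w = 1 then sg (b ⬝ᵥ g) else 1 := by
  rw [add_dotProduct, sg_add, sum_dotProduct, sg_sum]
  congr 1
  · apply Finset.prod_congr rfl
    intro i _
    rw [smul_dotProduct, smul_eq_mul, Ar4_sg_mul]
  · rw [smul_dotProduct, smul_eq_mul, Ar4_sg_mul]

open Classical in
/-- The symbols of a family. -/
theorem ar4 {k : ℕ} (M : Finset ℕ) (hM : ∀ p ∈ M, p.Prime ∧ 7 ≤ p) (A : I k → Finset ℕ)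
    (hA : A ∈ Fam k M) (B0 : Finset ℕ) (hB : B0 ⊆ {2, 3, 5}) (c : Fin k → Finset ℕ)
    (hc : ∀ i, c i ⊆ {2, 3, 5}) :
    ∏ u : I k, ∏ q ∈ A u, ∏ i, (if u.2 i = 1 then sy B0 M (c i) (prj A i) q else 1) =
    (∏ u : I k, sg ((∑ i, u.2 i • lam (c i) + (u.1 ⬝ᵥ u.2) • lam B0) ⬝ᵥ clA A u)) * S A := by
  have hA' := hA
  unfold Fam at hA'
  rw [Finset.mem_filter, Fintype.mem_piFinset] at hA'
  obtain ⟨hsub0, hdis, hun⟩ := hA'
  have hsub : ∀ u, A u ⊆ M := fun u => Finset.mem_powerset.1 (hsub0 u)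
  -- membership in the projections
  have hmem : ∀ (u : I k) (q : ℕ), q ∈ A u → ∀ i, (q ∈ prj A i ↔ u.1 i = 1) := by
    intro u q hq i
    unfold prj
    rw [Finset.mem_biUnion]
    constructor
    · rintro ⟨v, hv, hqv⟩
      by_cases h : v = u
      · rw [← h]
        exact (Finset.mem_filter.1 hv).2
      · exact absurd hqv (Finset.disjoint_right.1 (hdis v u h) hq)
    · intro h
      exact ⟨u, Finset.mem_filter.2 ⟨Finset.mem_univ _, h⟩, hq⟩
  have hcomp : ∀ i, M \ prj A i = (univ.filter fun v : I k => ¬ v.1 i = 1).biUnion A := by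
    intro i
    ext q
    rw [Finset.mem_sdiff, Finset.mem_biUnion]
    constructor
    · rintro ⟨hq, hq'⟩
      rw [← hun, Finset.mem_biUnion] at hq
      obtain ⟨v, -, hv⟩ := hq
      refine ⟨v, Finset.mem_filter.2 ⟨Finset.mem_univ _, fun h => hq' ?_⟩, hv⟩
      exact (hmem v q hv i).2 h
    · rintro ⟨v, hv, hqv⟩
      refine ⟨hsub v hqv, fun h => (Finset.mem_filter.1 hv).2 ?_⟩
      exact (hmem v q hqv i).1 h
  have hN1 : ∀ i, Nn (prj A i) = ∏ v ∈ univ.filter fun v : I k => v.1 i = 1, Nn (A v) :=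
    fun i => Ar4_Nn_biUnion A _ hdis
  have hN2 : ∀ i, Nn (M \ prj A i) = ∏ v ∈ univ.filter fun v : I k => ¬ v.1 i = 1, Nn (A v) := by
    intro i
    rw [hcomp]
    exact Ar4_Nn_biUnion A _ hdis
  -- the symbol at a prime of `A u`
  have hsy : ∀ (u : I k) (q : ℕ), q ∈ A u → ∀ i, sy B0 M (c i) (prj A i) q =
      jac (Nn (c i)) q * (if u.1 i = 1 then jac (Nn B0) q else 1) *
        ∏ v : I k, if u.1 i + v.1 i = 1 then jac (Nn (A v)) q else 1 := by
    intro u q hq i
    unfold sy
    rcases Ar4_zmod (u.1 i) with h | h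
    · have hn : ¬ u.1 i = 1 := by rw [h]; decide
      rw [if_neg (fun h' => hn ((hmem u q hq i).1 h')), if_neg hn, jac_mul_left, hN1,
        Ar4_jac_prod, mul_one, Finset.prod_filter]
      congr 1
      apply Finset.prod_congr rfl
      intro v _
      rw [h, zero_add]
    · rw [if_pos ((hmem u q hq i).2 h), if_pos h, jac_mul_left, jac_mul_left, hN2,
        Ar4_jac_prod, Finset.prod_filter]
      congr 1
      apply Finset.prod_congr rfl
      intro v _
      rw [h]
      rcases Ar4_zmod (v.1 i) with h2 | h2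
      · rw [h2, if_pos (by decide), if_pos (by decide)]
      · rw [h2, if_neg (by decide), if_neg (by decide)]
  -- primes and coprimality
  have hpr : ∀ (u : I k) (q : ℕ), q ∈ A u → q.Prime ∧ 7 ≤ q := fun u q hq => hM q (hsub u hq)
  have hco30 : ∀ u, (Nn (A u)).Coprime 30 := fun u =>
    (Nn_facts (A u) (fun p hp => hpr u p hp)).2.1
  have hsmall : ∀ (C : Finset ℕ), C ⊆ {2, 3, 5} → ∀ q : ℕ, q.Prime → 7 ≤ q →
      (Nn C).Coprime q := by
    intro C hC q hq h7
    unfold Nn
    apply Nat.Coprime.prod_left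
    intro p hp
    have h := hC hp
    simp only [Finset.mem_insert, Finset.mem_singleton] at h
    rw [Nat.coprime_primes (by rcases h with h | h | h <;> rw [h] <;> norm_num) hq]
    omega
  have hcoA : ∀ (u v : I k) (q : ℕ), u ≠ v → q ∈ A u → (Nn (A v)).Coprime q := by
    intro u v q huv hq
    unfold Nn
    apply Nat.Coprime.prod_left
    intro p hp
    rw [Nat.coprime_primes (hpr v p hp).1 (hpr u q hq).1]
    intro h
    rw [h] at hp
    exact Finset.disjoint_left.1 (hdis u v huv) hq hp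
  -- the product over `i`
  have hprod : ∀ (u : I k) (q : ℕ), q ∈ A u →
      ∏ i, (if u.2 i = 1 then sy B0 M (c i) (prj A i) q else 1) =
      (∏ i, if u.2 i = 1 then jac (Nn (c i)) q else 1) *
        (if u.1 ⬝ᵥ u.2 = 1 then jac (Nn B0) q else 1) *
        ∏ v : I k, if ex u v = 1 then jac (Nn (A v)) q else 1 := by
    intro u q hq
    have e1 : (if u.1 ⬝ᵥ u.2 = 1 then jac (Nn B0) q else 1) =
        ∏ i, if u.1 i * u.2 i = 1 then jac (Nn B0) q else 1 := by
      rw [Ar4_sign univ (fun i => u.1 i * u.2 i) (jac (Nn B0) q)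
        (jac_sq _ _ (hsmall B0 hB q (hpr u q hq).1 (hpr u q hq).2))]
      rfl
    have e2 : ∀ v : I k, (if ex u v = 1 then jac (Nn (A v)) q else 1) =
        ∏ i, if u.2 i * (u.1 i + v.1 i) = 1 then jac (Nn (A v)) q else 1 := by
      intro v
      by_cases huv : u = v
      · have h0 : ∀ i, u.2 i * (u.1 i + v.1 i) = 0 := by
          intro i
          rw [← huv, CharTwo.add_self_eq_zero, mul_zero]
        have h1 : ex u v = 0 := by
          have h2 : u.1 + v.1 = 0 := by
            funext i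
            rw [← huv]
            exact CharTwo.add_self_eq_zero (u.1 i)
          unfold ex
          rw [h2, dotProduct_zero]
        rw [h1, if_neg (by decide)]
        symm
        apply Finset.prod_eq_one
        intro i _
        rw [h0, if_neg (by decide)]
      · rw [Ar4_sign univ (fun i => u.2 i * (u.1 i + v.1 i)) (jac (Nn (A v)) q)
          (jac_sq _ _ (hcoA u v q huv hq))]
        rfl
    rw [e1, Finset.prod_congr rfl fun v _ => e2 v, Finset.prod_comm, ← Finset.prod_mul_distrib,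
      ← Finset.prod_mul_distrib]
    apply Finset.prod_congr rfl
    intro i _
    rcases Ar4_zmod (u.2 i) with h | h
    · have hn : ¬ (0 : ZMod 2) = 1 := by decide
      simp [h]
    · simp only [h, if_true, mul_one, one_mul]
      exact hsy u q hq i
  -- the product over `q`
  have hq1 : ∀ (u : I k) (X : ℕ), ∏ q ∈ A u, jac X q = jac X (Nn (A u)) := by
    intro u X
    rw [jac_Nn_right (A u) X (fun p hp => (hpr u p hp).1.ne_zero)]
  have hq2 : ∀ (u : I k) (P : Prop) [Decidable P] (X : ℕ),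
      ∏ q ∈ A u, (if P then jac X q else 1) = if P then jac X (Nn (A u)) else 1 := by
    intro u P _ X
    split_ifs with h
    · exact hq1 u X
    · exact Finset.prod_const_one
  have hu : ∀ u : I k, ∏ q ∈ A u, ∏ i, (if u.2 i = 1 then sy B0 M (c i) (prj A i) q else 1) =
      sg ((∑ i, u.2 i • lam (c i) + (u.1 ⬝ᵥ u.2) • lam B0) ⬝ᵥ clA A u) *
        ∏ v : I k, if ex u v = 1 then jac (Nn (A v)) (Nn (A u)) else 1 := by
    intro u
    rw [Finset.prod_congr rfl fun q hq => hprod u q hq, Finset.prod_mul_distrib,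
      Finset.prod_mul_distrib, Finset.prod_comm, hq2, Finset.prod_comm (s := A u), Ar4_dot]
    congr 1
    · congr 1
      · apply Finset.prod_congr rfl
        intro i _
        rw [hq2, jac_lam (c i) (hc i) _ (hco30 u)]
        rfl
      · rw [jac_lam B0 hB _ (hco30 u)]
        rfl
    · apply Finset.prod_congr rfl
      intro v _
      rw [hq2]
  rw [Finset.prod_congr rfl fun u _ => hu u, Finset.prod_mul_distrib]
  rfl

end PP15
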