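import Pool.Agent.Lib.MP_87c685_nt_PP15.Bas1
import Pool.Agent.Lib.MP_87c685_nt_PPA.Defs

open Finset

namespace PP15

/-- From sign vectors to classes. -/
def cv (s : Fin 4 → ℤ) : G :=
  ![if s 0 = -1 then 1 else 0, if s 1 = -1 then 1 else 0,
    (if s 0 = -1 then 1 else 0) + (if s 2 = -1 then 1 else 0), if s 3 = -1 then 1 else 0]

/-- From classes to sign vectors. -/
def vc (g : G) : Fin 4 → ℤ :=
  ![if g 0 = 1 then -1 else 1, if g 1 = 1 then -1 else 1, if g 0 + g 2 = 1 then -1 else 1,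
    if g 3 = 1 then -1 else 1]

theorem vc_mem (g : G) : vc g ∈ PPA.SV := by
  unfold PPA.SV
  rw [Fintype.mem_piFinset]
  intro i
  fin_cases i <;> simp only [vc, Fin.zero_eta, Fin.mk_one, Fin.reduceFinMk, Matrix.cons_val] <;>
    split_ifs <;> simp

theorem cv_vc (g : G) : cv (vc g) = g := by
  have h2 : ∀ a : ZMod 2, (if (if a = 1 then (-1 : ℤ) else 1) = -1 then (1 : ZMod 2) else 0) = a := by
    decide
  have h3 : ∀ a b : ZMod 2, (if (if a = 1 then (-1 : ℤ) else 1) = -1 then (1 : ZMod 2) else 0) +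
      (if (if a + b = 1 then (-1 : ℤ) else 1) = -1 then (1 : ZMod 2) else 0) = b := by
    decide
  funext i
  fin_cases i
  · exact h2 (g 0)
  · exact h2 (g 1)
  · exact h3 (g 0) (g 2)
  · exact h2 (g 3)

/-- coordinates of sign vectors -/
theorem Cnv_sv {s : Fin 4 → ℤ} (hs : s ∈ PPA.SV) (i : Fin 4) : s i = 1 ∨ s i = -1 := by
  unfold PPA.SV at hs
  rw [Fintype.mem_piFinset] at hs
  simpa using hs i

theorem vc_cv (s : Fin 4 → ℤ) (hs : s ∈ PPA.SV) : vc (cv s) = s := by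
  have h := Cnv_sv hs
  funext i
  fin_cases i
  · change (if (if s 0 = -1 then (1 : ZMod 2) else 0) = 1 then (-1 : ℤ) else 1) = s 0
    rcases h 0 with h0 | h0 <;> rw [h0] <;> decide
  · change (if (if s 1 = -1 then (1 : ZMod 2) else 0) = 1 then (-1 : ℤ) else 1) = s 1
    rcases h 1 with h0 | h0 <;> rw [h0] <;> decide
  · change (if (if s 0 = -1 then (1 : ZMod 2) else 0) + ((if s 0 = -1 then (1 : ZMod 2) else 0) +
      (if s 2 = -1 then (1 : ZMod 2) else 0)) = 1 then (-1 : ℤ) else 1) = s 2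
    rcases h 0 with h0 | h0 <;> rcases h 2 with h2 | h2 <;> rw [h0, h2] <;> decide
  · change (if (if s 3 = -1 then (1 : ZMod 2) else 0) = 1 then (-1 : ℤ) else 1) = s 3
    rcases h 3 with h0 | h0 <;> rw [h0] <;> decide

theorem Cnv_vc_add (g h : G) : vc (g + h) = vc g * vc h := by
  have h2 : ∀ a b : ZMod 2, (if a + b = 1 then (-1 : ℤ) else 1) =
      (if a = 1 then (-1 : ℤ) else 1) * (if b = 1 then (-1 : ℤ) else 1) := by
    decide
  have h3 : ∀ a b c d : ZMod 2, (if a + b + (c + d) = 1 then (-1 : ℤ) else 1) =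
      (if a + c = 1 then (-1 : ℤ) else 1) * (if b + d = 1 then (-1 : ℤ) else 1) := by
    decide
  funext i
  fin_cases i
  · exact h2 (g 0) (h 0)
  · exact h2 (g 1) (h 1)
  · exact h3 (g 0) (h 0) (g 2) (h 2)
  · exact h2 (g 3) (h 3)

theorem Cnv_vc_zero : vc 0 = 1 := by
  funext i
  fin_cases i <;> decide

theorem vc_sum {ι : Type*} (s : Finset ι) (g : ι → G) : vc (∑ i ∈ s, g i) = ∏ i ∈ s, vc (g i) := by
  classical
  induction s using Finset.induction_on with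
  | empty => simpa using Cnv_vc_zero
  | insert a s ha ih => rw [Finset.sum_insert ha, Finset.prod_insert ha, Cnv_vc_add, ih]

theorem Cnv_neg (m : ℕ) (hm : Odd m) : jacobiSym (-1) m = if m % 4 = 3 then -1 else 1 := by
  rw [jacobiSym.at_neg_one hm, ZMod.χ₄_nat_eq_if_mod_four]
  have h := Nat.odd_iff.1 hm
  have h1 : m % 4 = 1 ∨ m % 4 = 3 := by omega
  rcases h1 with h1 | h1 <;> simp [h, h1]

theorem Cnv_two (m : ℕ) (hm : Odd m) :
    jacobiSym 2 m = if m % 8 = 3 ∨ m % 8 = 5 then -1 else 1 := by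
  rw [jacobiSym.at_two hm, ZMod.χ₈_nat_eq_if_mod_eight]
  have h := Nat.odd_iff.1 hm
  have h1 : m % 8 = 1 ∨ m % 8 = 3 ∨ m % 8 = 5 ∨ m % 8 = 7 := by omega
  rcases h1 with h1 | h1 | h1 | h1 <;> simp [h, h1]

theorem Cnv_five (m : ℕ) (hm : Odd m) (h5 : m % 5 ≠ 0) :
    jacobiSym 5 m = if m % 5 = 2 ∨ m % 5 = 3 then -1 else 1 := by
  have h := jacobiSym.quadratic_reciprocity_one_mod_four (a := 5) (b := m) (by norm_num) hm
  have h' : jacobiSym 5 m = jacobiSym (m : ℤ) 5 := by exact_mod_cast h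
  rw [h', jacobiSym.mod_left]
  have h1 : m % 5 = 1 ∨ m % 5 = 2 ∨ m % 5 = 3 ∨ m % 5 = 4 := by omega
  have h2 : (m : ℤ) % (5 : ℕ) = ((m % 5 : ℕ) : ℤ) := by push_cast; rfl
  rw [h2]
  rcases h1 with h1 | h1 | h1 | h1 <;> rw [h1] <;> norm_num

theorem Cnv_three (m : ℕ) (hm : Odd m) (h3 : m % 3 ≠ 0) :
    jacobiSym 3 m = (if m % 4 = 3 then -1 else 1) * (if m % 3 = 2 then -1 else 1) := by
  have hj : jacobiSym (m : ℤ) 3 = if m % 3 = 2 then -1 else 1 := by
    rw [jacobiSym.mod_left]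
    have h1 : m % 3 = 1 ∨ m % 3 = 2 := by omega
    have h2 : (m : ℤ) % (3 : ℕ) = ((m % 3 : ℕ) : ℤ) := by push_cast; rfl
    rw [h2]
    rcases h1 with h1 | h1 <;> rw [h1] <;> norm_num
  have h := Nat.odd_iff.1 hm
  have h1 : m % 4 = 1 ∨ m % 4 = 3 := by omega
  rcases h1 with h1 | h1
  · have h4 := jacobiSym.quadratic_reciprocity_one_mod_four' (a := 3) (b := m) (by decide) h1
    have h5 : jacobiSym 3 m = jacobiSym (m : ℤ) 3 := by exact_mod_cast h4
    rw [h5, hj, if_neg (by omega : ¬ m % 4 = 3), one_mul]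
  · have h4 := jacobiSym.quadratic_reciprocity_three_mod_four (a := 3) (b := m) (by norm_num) h1
    have h5 : jacobiSym 3 m = -jacobiSym (m : ℤ) 3 := by exact_mod_cast h4
    rw [h5, hj, if_pos h1, neg_one_mul]

theorem Cnv_cop (m : ℕ) (hm : m.Coprime 30) : Odd m ∧ m % 3 ≠ 0 ∧ m % 5 ≠ 0 := by
  refine ⟨?_, ?_, ?_⟩
  · rw [Nat.odd_iff]
    by_contra h
    have h2 : 2 ∣ m := by omega
    have := Nat.dvd_gcd h2 (by norm_num : 2 ∣ 30)
    rw [hm] at this
    omega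
  · intro h
    have h2 : 3 ∣ m := by omega
    have := Nat.dvd_gcd h2 (by norm_num : 3 ∣ 30)
    rw [hm] at this
    omega
  · intro h
    have h2 : 5 ∣ m := by omega
    have := Nat.dvd_gcd h2 (by norm_num : 5 ∣ 30)
    rw [hm] at this
    omega

theorem Cnv_sg (m : ℕ) (hm : m.Coprime 30) : PPA.sg m =
    ![if m % 4 = 3 then -1 else 1, if m % 8 = 3 ∨ m % 8 = 5 then -1 else 1,
      (if m % 4 = 3 then -1 else 1) * (if m % 3 = 2 then -1 else 1),
      if m % 5 = 2 ∨ m % 5 = 3 then -1 else 1] := by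
  obtain ⟨h2, h3, h5⟩ := Cnv_cop m hm
  unfold PPA.sg
  rw [Cnv_neg m h2, Cnv_two m h2, Cnv_three m h2 h3, Cnv_five m h2 h5]

theorem sg_mem (m : ℕ) (hm : m.Coprime 30) : PPA.sg m ∈ PPA.SV := by
  rw [Cnv_sg m hm]
  unfold PPA.SV
  rw [Fintype.mem_piFinset]
  intro i
  fin_cases i <;> simp only [Fin.zero_eta, Fin.mk_one, Fin.reduceFinMk, Matrix.cons_val] <;>
    split_ifs <;> simp

theorem cv_sg (m : ℕ) (hm : m.Coprime 30) : cv (PPA.sg m) = cl m := by
  rw [Cnv_sg m hm]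
  unfold cv cl
  funext i
  fin_cases i <;> simp only [Fin.zero_eta, Fin.mk_one, Fin.reduceFinMk, Matrix.cons_val] <;>
    split_ifs <;> first | rfl | (exfalso; omega)

/-- Classes and sign vectors. -/
theorem sg_eq_iff (m : ℕ) (hm : m.Coprime 30) (a : G) : PPA.sg m = vc a ↔ cl m = a := by
  rw [← cv_sg m hm]
  constructor
  · intro h
    rw [h, cv_vc]
  · intro h
    rw [← h, vc_cv _ (sg_mem m hm)]

end PP15
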