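import Pool.Agent.Lib.MP_87c685_nt_PPA.Main
import Pool.Agent.Lib.MP_87c685_nt_PPA.Sgn

open Finset Filter Topology

namespace PP15

/-- The product of Jacobi symbols. -/
def JJ {V : Type} [Fintype V] (φ : V → V → ℕ) (D : V → ℕ) : ℤ :=
  ∏ v, ∏ w, jacobiSym (D v) (D w) ^ φ v w

/-- The normalised sum with a general function of the sign vectors and the support. -/
noncomputable def TF {V : Type} [Fintype V] [DecidableEq V] (φ : V → V → ℕ) (N : ℕ)
    (f : (V → Fin 4 → ℤ) → Finset V → ℝ) (n : ℕ) : ℝ :=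
  (∑ D ∈ PPA.DD V n, f (fun v => PPA.sg (D v)) (PPA.supp D) * (JJ φ D : ℝ)) /
    (N : ℝ) ^ n.primeFactors.card

/-- The mean value belonging to `U`. -/
noncomputable def MF {V : Type} [Fintype V] [DecidableEq V] (φ : V → V → ℕ) (c : Fin 4 → ℤ)
    (f : (V → Fin 4 → ℤ) → Finset V → ℝ) (U : Finset V) : ℝ :=
  (∑ s ∈ PPA.SU U c, f s U * (PPA.FU φ 0 U s : ℝ)) / (PPA.SU U c).card

/-- the sign with exponent `t` -/
def MF_sig (t : Fin 2) : ℤ := if t = 0 then 1 else -1

/-- the coefficients of a function of signs -/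
noncomputable def MF_co {ι : Type} [Fintype ι] [DecidableEq ι] (h : (ι → ℤ) → ℝ)
    (e : ι → Fin 2) : ℝ :=
  ∑ t : ι → Fin 2, h (fun i => MF_sig (t i)) *
    ∏ i, ((MF_sig (t i) : ℝ) ^ (e i : ℕ) / 2)

theorem MF_expand {ι : Type} [Fintype ι] [DecidableEq ι] (h : (ι → ℤ) → ℝ) (s : ι → ℤ)
    (hs : ∀ i, s i = 1 ∨ s i = -1) :
    h s = ∑ e : ι → Fin 2, MF_co h e * ∏ i, (s i : ℝ) ^ (e i : ℕ) := by
  obtain ⟨t0, ht0⟩ : ∃ t0 : ι → Fin 2, ∀ i, s i = MF_sig (t0 i) := by
    refine ⟨fun i => if s i = 1 then 0 else 1, fun i => ?_⟩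
    show s i = MF_sig (if s i = 1 then 0 else 1)
    rcases hs i with h1 | h1
    · rw [if_pos h1, h1]
      rfl
    · rw [if_neg (by rw [h1]; norm_num), h1]
      rfl
  have hprod : ∀ t : ι → Fin 2, ∏ i, ((1 + (s i : ℝ) * MF_sig (t i)) / 2) =
      if t = t0 then 1 else 0 := by
    intro t
    split_ifs with h1
    · apply Finset.prod_eq_one
      intro i _
      rw [h1, ht0 i]
      unfold MF_sig
      split_ifs <;> norm_num
    · obtain ⟨i, hi⟩ : ∃ i, t i ≠ t0 i := by
        by_contra hcon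
        push Not at hcon
        exact h1 (funext hcon)
      apply Finset.prod_eq_zero (Finset.mem_univ i)
      rw [ht0 i]
      have h2 : (MF_sig (t0 i) : ℝ) * MF_sig (t i) = -1 := by
        have h3 : ∀ a b : Fin 2, b ≠ a → (MF_sig a : ℝ) * MF_sig b = -1 := by
          intro a b hab
          fin_cases a <;> fin_cases b <;> simp_all [MF_sig]
        exact h3 _ _ hi
      rw [h2]
      norm_num
  have hex : ∀ t : ι → Fin 2, ∏ i, ((1 + (s i : ℝ) * MF_sig (t i)) / 2) =
      ∑ e : ι → Fin 2, ∏ i, ((s i : ℝ) ^ (e i : ℕ) * ((MF_sig (t i) : ℝ) ^ (e i : ℕ) / 2)) := by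
    intro t
    have h1 : ∀ i, ((1 + (s i : ℝ) * MF_sig (t i)) / 2) =
        ∑ j : Fin 2, ((s i : ℝ) ^ (j : ℕ) * ((MF_sig (t i) : ℝ) ^ (j : ℕ) / 2)) := by
      intro i
      rw [Fin.sum_univ_two]
      simp
      ring
    rw [Finset.prod_congr rfl fun i _ => h1 i, Finset.prod_univ_sum]
    simp
  calc h s = ∑ t : ι → Fin 2, h (fun i => MF_sig (t i)) *
        ∏ i, ((1 + (s i : ℝ) * MF_sig (t i)) / 2) := by
        rw [Finset.sum_eq_single t0]
        · rw [hprod, if_pos rfl, mul_one]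
          congr 1
          funext i
          exact ht0 i
        · intro t _ ht
          rw [hprod, if_neg ht, mul_zero]
        · intro h1
          exact absurd (Finset.mem_univ _) h1
    _ = ∑ t : ι → Fin 2, ∑ e : ι → Fin 2, h (fun i => MF_sig (t i)) *
        ∏ i, ((s i : ℝ) ^ (e i : ℕ) * ((MF_sig (t i) : ℝ) ^ (e i : ℕ) / 2)) := by
        apply Finset.sum_congr rfl
        intro t _
        rw [hex, Finset.mul_sum]
    _ = _ := by
        rw [Finset.sum_comm]
        apply Finset.sum_congr rfl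
        intro e _
        unfold MF_co
        rw [Finset.sum_mul]
        apply Finset.sum_congr rfl
        intro t _
        rw [Finset.prod_mul_distrib]
        ring

/-- the exponents, curried -/
def MF_e {V : Type} (e : V × Fin 4 → Fin 2) : V → Fin 4 → ℕ := fun v i => (e (v, i) : ℕ)

/-- the coefficients of `f · T` -/
noncomputable def MF_c {V : Type} [Fintype V] [DecidableEq V]
    (f : (V → Fin 4 → ℤ) → Finset V → ℝ) (T : Finset V) (e : V × Fin 4 → Fin 2) : ℝ :=
  MF_co (fun s' : V × Fin 4 → ℤ => f (fun v i => s' (v, i)) T) e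

theorem MF_fexp {V : Type} [Fintype V] [DecidableEq V]
    (f : (V → Fin 4 → ℤ) → Finset V → ℝ) (T : Finset V) (s : V → Fin 4 → ℤ)
    (hs : ∀ v i, s v i = 1 ∨ s v i = -1) :
    f s T = ∑ e : V × Fin 4 → Fin 2, MF_c f T e * ∏ v, ∏ i, (s v i : ℝ) ^ MF_e e v i := by
  have h := MF_expand (fun s' : V × Fin 4 → ℤ => f (fun v i => s' (v, i)) T)
    (fun p => s p.1 p.2) (fun p => hs p.1 p.2)
  refine (show f s T = _ from h).trans ?_
  apply Finset.sum_congr rfl
  intro e _
  rw [Fintype.prod_prod_type]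
  rfl

theorem MF_SV (s : Fin 4 → ℤ) (hs : s ∈ PPA.SV) (i : Fin 4) : s i = 1 ∨ s i = -1 := by
  unfold PPA.SV at hs
  rw [Fintype.mem_piFinset] at hs
  have := hs i
  simpa using this

open Classical in
theorem MF_TF {V : Type} [Fintype V] [DecidableEq V] (φ : V → V → ℕ) (N : ℕ)
    (f : (V → Fin 4 → ℤ) → Finset V → ℝ) (n : ℕ) (hn : PPA.Ok n) :
    TF φ N f n = ∑ T : Finset V, ∑ e : V × Fin 4 → Fin 2,
      MF_c f T e * PPA.TT φ (MF_e e) N (fun T' => T' = T) n := by
  have h1 : ∀ D ∈ PPA.DD V n, f (fun v => PPA.sg (D v)) (PPA.supp D) * (JJ φ D : ℝ) =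
      ∑ T : Finset V, ∑ e : V × Fin 4 → Fin 2,
        MF_c f T e * (if PPA.supp D = T then (PPA.F φ (MF_e e) D : ℝ) else 0) := by
    intro D hD
    have hco : ∀ v, (D v).Coprime 30 := by
      intro v
      unfold PPA.DD at hD
      rw [Finset.mem_filter, Fintype.mem_piFinset] at hD
      exact Nat.Coprime.coprime_dvd_left (Nat.dvd_of_mem_divisors (hD.1 v)) hn.2
    rw [MF_fexp f (PPA.supp D) (fun v => PPA.sg (D v))
      (fun v i => MF_SV _ (PPA.sg_mem _ (hco v)) i),
      Finset.sum_eq_single (PPA.supp D)]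
    · rw [Finset.sum_mul]
      apply Finset.sum_congr rfl
      intro e _
      rw [if_pos rfl, mul_assoc]
      congr 1
      unfold PPA.F JJ
      push_cast
      rfl
    · intro T _ hT
      apply Finset.sum_eq_zero
      intro e _
      rw [if_neg (Ne.symm hT), mul_zero]
    · intro h
      exact absurd (Finset.mem_univ _) h
  unfold TF PPA.TT
  rw [Finset.sum_congr rfl h1, Finset.sum_comm, Finset.sum_div]
  apply Finset.sum_congr rfl
  intro T _
  rw [Finset.sum_comm, Finset.sum_div]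
  apply Finset.sum_congr rfl
  intro e _
  rw [← Finset.mul_sum, mul_div_assoc, Finset.sum_filter]
  congr 2
  apply Finset.sum_congr rfl
  intro D _
  by_cases h : PPA.supp D = T
  · rw [if_pos h, if_pos h]
  · rw [if_neg h, if_neg h]

open Classical in
theorem MF_single {V : Type} [Fintype V] [DecidableEq V] (P : Finset V → Prop) (N : ℕ)
    (T : Finset V) (g : Finset V → ℝ)
    [DecidablePred fun U : Finset V => P U ∧ U.card = N ∧ U = T] :
    ∑ U ∈ univ.filter (fun U : Finset V => P U ∧ U.card = N ∧ U = T), g U =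
      if P T ∧ T.card = N then g T else 0 := by
  by_cases hT : P T ∧ T.card = N
  · rw [if_pos hT, Finset.sum_filter, Finset.sum_eq_single T]
    · rw [if_pos ⟨hT.1, hT.2, rfl⟩]
    · intro U _ hU
      rw [if_neg fun h => hU h.2.2]
    · intro h
      exact absurd (Finset.mem_univ _) h
  · rw [if_neg hT, Finset.sum_eq_zero]
    intro U hU
    exfalso
    rw [Finset.mem_filter] at hU
    rw [← hU.2.2.2] at hT
    exact hT ⟨hU.2.1, hU.2.2.1⟩

open Classical in
theorem MF_MF {V : Type} [Fintype V] [DecidableEq V] (φ : V → V → ℕ) (c : Fin 4 → ℤ)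
    (f : (V → Fin 4 → ℤ) → Finset V → ℝ) (U : Finset V) :
    MF φ c f U = ∑ e : V × Fin 4 → Fin 2, MF_c f U e * PPA.MU φ (MF_e e) c U := by
  have h1 : ∀ s ∈ PPA.SU U c, f s U * (PPA.FU φ 0 U s : ℝ) =
      ∑ e : V × Fin 4 → Fin 2, MF_c f U e * (PPA.FU φ (MF_e e) U s : ℝ) := by
    intro s hs
    unfold PPA.SU at hs
    rw [Finset.mem_filter, Fintype.mem_piFinset] at hs
    have hin : ∀ v i, s v i = 1 ∨ s v i = -1 := by
      intro v i
      have h := hs.1 v
      by_cases hv : v ∈ U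
      · rw [if_pos hv] at h
        exact MF_SV _ h i
      · rw [if_neg hv, Finset.mem_singleton] at h
        left
        rw [h]
        rfl
    have hout : ∀ v, v ∉ U → ∀ i, s v i = 1 := by
      intro v hv i
      have h := hs.1 v
      rw [if_neg hv, Finset.mem_singleton] at h
      rw [h]
      rfl
    rw [MF_fexp f U s hin, Finset.sum_mul]
    apply Finset.sum_congr rfl
    intro e _
    rw [mul_assoc]
    congr 1
    have h2 : ∏ v, ∏ i, (s v i : ℝ) ^ MF_e e v i = ∏ v ∈ U, ∏ i, (s v i : ℝ) ^ MF_e e v i := by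
      symm
      apply Finset.prod_subset (Finset.subset_univ U)
      intro v _ hv
      apply Finset.prod_eq_one
      intro i _
      rw [hout v hv i]
      simp
    rw [h2]
    unfold PPA.FU
    push_cast
    simp
  unfold MF PPA.MU
  rw [Finset.sum_congr rfl h1, Finset.sum_comm, Finset.sum_div]
  apply Finset.sum_congr rfl
  intro e _
  rw [← Finset.mul_sum, mul_div_assoc]

open Classical in
/-- The interface theorem for general functions of the sign vectors and the support. -/
theorem mainF {V : Type} [Fintype V] [DecidableEq V] (φ : V → V → ℕ)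
    (N : ℕ) (hN : 0 < N) (hφ : ∀ v w, φ v w ≤ 1) (h0 : ∀ v, φ v v = 0)
    (h1 : ∀ U : Finset V, PPA.Unlinked φ U → U.card ≤ N)
    (h2 : ∀ U : Finset V, PPA.Unlinked φ U → U.card = N → ∀ v ∉ U, ∃ u ∈ U, ∃ w ∈ U,
      (φ v u + φ u v) % 2 ≠ (φ v w + φ w v) % 2)
    (f : (V → Fin 4 → ℤ) → Finset V → ℝ) (c : Fin 4 → ℤ) (hc : c ∈ PPA.SV) :
    Tendsto (fun x : ℕ => (∑ n ∈ (range (x + 1)).filter (fun n => PPA.Ok n ∧ PPA.sg n = c),
      (TF φ N f n - ∑ U ∈ univ.filter (fun U : Finset V => PPA.Unlinked φ U ∧ U.card = N),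
        MF φ c f U)) / x) atTop (𝓝 0) := by
  have key : Tendsto (fun x : ℕ => ∑ T : Finset V, ∑ e : V × Fin 4 → Fin 2, MF_c f T e *
      ((∑ n ∈ (range (x + 1)).filter (fun n => PPA.Ok n ∧ PPA.sg n = c),
        (PPA.TT φ (MF_e e) N (fun T' => T' = T) n -
          if PPA.Unlinked φ T ∧ T.card = N then PPA.MU φ (MF_e e) c T else 0)) / x))
      atTop (𝓝 0) := by
    have h3 : Tendsto (fun x : ℕ => ∑ T : Finset V, ∑ e : V × Fin 4 → Fin 2, MF_c f T e *
      ((∑ n ∈ (range (x + 1)).filter (fun n => PPA.Ok n ∧ PPA.sg n = c),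
        (PPA.TT φ (MF_e e) N (fun T' => T' = T) n -
          if PPA.Unlinked φ T ∧ T.card = N then PPA.MU φ (MF_e e) c T else 0)) / x))
      atTop (𝓝 (∑ T : Finset V, ∑ e : V × Fin 4 → Fin 2, MF_c f T e * 0)) := by
      apply tendsto_finsetSum
      intro T _
      apply tendsto_finsetSum
      intro e _
      have h := PPA.main φ (MF_e e) N hN hφ h0 h1 h2 (fun T' => T' = T) c hc
      simp only [MF_single] at h
      exact h.const_mul _
    simpa using h3
  refine key.congr fun x => ?_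
  have hMF : ∑ U ∈ univ.filter (fun U : Finset V => PPA.Unlinked φ U ∧ U.card = N),
      MF φ c f U = ∑ T : Finset V, ∑ e : V × Fin 4 → Fin 2, MF_c f T e *
        if PPA.Unlinked φ T ∧ T.card = N then PPA.MU φ (MF_e e) c T else 0 := by
    rw [Finset.sum_filter]
    apply Finset.sum_congr rfl
    intro T _
    by_cases hT : PPA.Unlinked φ T ∧ T.card = N
    · rw [if_pos hT, MF_MF]
      apply Finset.sum_congr rfl
      intro e _
      rw [if_pos hT]
    · rw [if_neg hT]
      symm
      apply Finset.sum_eq_zero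
      intro e _
      rw [if_neg hT, mul_zero]
  rw [hMF]
  have hn : ∀ n ∈ (range (x + 1)).filter (fun n => PPA.Ok n ∧ PPA.sg n = c),
      (TF φ N f n - ∑ T : Finset V, ∑ e : V × Fin 4 → Fin 2, MF_c f T e *
        if PPA.Unlinked φ T ∧ T.card = N then PPA.MU φ (MF_e e) c T else 0) =
      ∑ T : Finset V, ∑ e : V × Fin 4 → Fin 2, MF_c f T e *
        (PPA.TT φ (MF_e e) N (fun T' => T' = T) n -
          if PPA.Unlinked φ T ∧ T.card = N then PPA.MU φ (MF_e e) c T else 0) := by
    intro n hn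
    rw [MF_TF φ N f n (Finset.mem_filter.1 hn).2.1, ← Finset.sum_sub_distrib]
    apply Finset.sum_congr rfl
    intro T _
    rw [← Finset.sum_sub_distrib]
    apply Finset.sum_congr rfl
    intro e _
    ring
  symm
  rw [Finset.sum_congr rfl hn, Finset.sum_comm, Finset.sum_div]
  apply Finset.sum_congr rfl
  intro T _
  rw [Finset.sum_comm, Finset.sum_div]
  apply Finset.sum_congr rfl
  intro e _
  rw [← Finset.mul_sum, mul_div_assoc]

end PP15
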