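import Pool.Agent.Lib.MP_87c685_nt_PP15.BadI
import Pool.Agent.Lib.MP_87c685_nt_PP15.Cnv
import Pool.Agent.Lib.MP_87c685_nt_PP15.MF

open Finset Filter Topology

namespace PP15

/-- the exponents of a set of small primes -/
def BadC_th (c : Finset ℕ) : Fin 4 → Fin 2 :=
  ![0, if 2 ∈ c then 1 else 0, if 3 ∈ c then 1 else 0, if 5 ∈ c then 1 else 0]

theorem BadC_tt : ∀ c ∈ ({2, 3, 5} : Finset ℕ).powerset, PPA.tt (BadC_th c) = (Nn c : ℤ) := by
  unfold PPA.tt BadC_th Nn
  decide

theorem BadC_ne : ∀ c ∈ ({2, 3, 5} : Finset ℕ).powerset, c ≠ ∅ → ∃ i, BadC_th c i = 1 := by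
  unfold BadC_th
  decide

/-- the exponents on the two labels -/
def BadC_e (c : Finset ℕ) : Bool → Fin 4 → ℕ :=
  fun b i => if b then (BadC_th c i : ℕ) else 0

theorem BadC_F (c : Finset ℕ) (hc : c ⊆ {2, 3, 5}) (D : Bool → ℕ) :
    PPA.F (fun _ _ => 0) (BadC_e c) D = jacobiSym (Nn c : ℤ) (D true) := by
  have h : ∏ i, PPA.sg (D true) i ^ (BadC_th c i : ℕ) = jacobiSym (Nn c : ℤ) (D true) := by
    rw [PPA.sg_tt, BadC_tt c (mem_powerset.2 hc)]
  unfold PPA.F
  rw [Fintype.prod_bool]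
  simp only [BadC_e, if_true, h, pow_zero, prod_const_one, mul_one, Bool.false_eq_true, if_false]

/-- the symbol as a multiplicative function -/
def BadC_f (m : ℤ) : ArithmeticFunction ℤ :=
  ⟨fun d => if d = 0 then 0 else jacobiSym m d, by simp⟩

theorem BadC_f_apply (m : ℤ) (d : ℕ) (hd : d ≠ 0) : BadC_f m d = jacobiSym m d := by
  show (if d = 0 then 0 else jacobiSym m d) = _
  rw [if_neg hd]

theorem BadC_f_mult (m : ℤ) : (BadC_f m).IsMultiplicative := by
  rw [ArithmeticFunction.IsMultiplicative.iff_ne_zero]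
  refine ⟨?_, ?_⟩
  · rw [BadC_f_apply m 1 one_ne_zero, jacobiSym.one_right]
  · intro a b ha hb _
    rw [BadC_f_apply m _ (mul_ne_zero ha hb), BadC_f_apply m _ ha, BadC_f_apply m _ hb,
      jacobiSym.mul_right' m ha hb]

theorem BadC_sum (m : ℤ) (n : ℕ) (hn : Squarefree n) :
    ∑ D ∈ PPA.DD Bool n, jacobiSym m (D true) = ∏ q ∈ n.primeFactors, (1 + jacobiSym m q) := by
  have h1 : ∑ D ∈ PPA.DD Bool n, jacobiSym m (D true) = ∑ d ∈ n.divisors, BadC_f m d := by
    refine Finset.sum_nbij' (fun D => D true) (fun d b => if b then d else n / d) ?_ ?_ ?_ ?_ ?_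
    · intro D hD
      simp only [PPA.DD, mem_filter, Fintype.mem_piFinset] at hD
      exact hD.1 true
    · intro d hd
      simp only [PPA.DD, mem_filter, Fintype.mem_piFinset]
      refine ⟨fun b => ?_, ?_⟩
      · cases b
        · simp only [Bool.false_eq_true, if_false]
          rw [Nat.mem_divisors] at hd ⊢
          exact ⟨Nat.div_dvd_of_dvd hd.1, hd.2⟩
        · simpa using hd
      · rw [Fintype.prod_bool]
        simp only [Bool.false_eq_true, if_false, if_true]
        exact Nat.mul_div_cancel' (Nat.dvd_of_mem_divisors hd)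
    · intro D hD
      simp only [PPA.DD, mem_filter, Fintype.mem_piFinset, Fintype.prod_bool] at hD
      funext b
      cases b
      · simp only [Bool.false_eq_true, if_false]
        have h0 : 0 < D true := Nat.pos_of_mem_divisors (hD.1 true)
        exact Nat.div_eq_of_eq_mul_right h0 hD.2.symm
      · simp
    · intro d hd
      simp
    · intro D hD
      simp only [PPA.DD, mem_filter, Fintype.mem_piFinset] at hD
      rw [BadC_f_apply m _ (Nat.pos_of_mem_divisors (hD.1 true)).ne']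
  rw [h1, ← (BadC_f_mult m).prodPrimeFactors_one_add_of_squarefree hn]
  refine prod_congr rfl fun q hq => ?_
  rw [BadC_f_apply m q (Nat.prime_of_mem_primeFactors hq).ne_zero]

open Classical in
theorem BadC_TT (c : Finset ℕ) (hc : c ⊆ {2, 3, 5}) (n : ℕ) (hn : Squarefree n) :
    PPA.TT (fun _ _ => 0) (BadC_e c) 2 (fun _ => True) n =
      (∏ q ∈ n.primeFactors, (1 + (jacobiSym (Nn c : ℤ) q : ℝ))) / 2 ^ n.primeFactors.card := by
  unfold PPA.TT
  have h := BadC_sum (Nn c : ℤ) n hn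
  rw [Finset.sum_filter]
  simp only [if_true]
  have h2 : ∑ D ∈ PPA.DD Bool n,
      (PPA.F (fun _ _ => 0) (BadC_e c) D : ℝ) =
      ∏ q ∈ n.primeFactors, (1 + (jacobiSym (Nn c : ℤ) q : ℝ)) := by
    simp only [BadC_F c hc]
    have h3 : ((∑ D ∈ PPA.DD Bool n, jacobiSym (Nn c : ℤ) (D true) : ℤ) : ℝ) =
      ((∏ q ∈ n.primeFactors, (1 + jacobiSym (Nn c : ℤ) q) : ℤ) : ℝ) := by rw [h]
    push_cast at h3
    exact h3
  rw [h2]
  norm_num

theorem BadC_TT_nonneg (c : Finset ℕ) (hc : c ⊆ {2, 3, 5}) (n : ℕ) (hn : Squarefree n) :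
    0 ≤ PPA.TT (fun _ _ => 0) (BadC_e c) 2 (fun _ => True) n := by
  rw [BadC_TT c hc n hn]
  refine div_nonneg (prod_nonneg fun q _ => ?_) (by positivity)
  have : (-1 : ℤ) ≤ jacobiSym (Nn c : ℤ) q := by
    rcases jacobiSym.trichotomy (Nn c : ℤ) q with h | h | h <;> rw [h] <;> norm_num
  have h2 : (-1 : ℝ) ≤ (jacobiSym (Nn c : ℤ) q : ℝ) := by exact_mod_cast this
  linarith

theorem BadC_TT_one (c : Finset ℕ) (hc : c ⊆ {2, 3, 5}) (n : ℕ) (hn : Squarefree n)
    (h : ∀ q ∈ n.primeFactors, jac (Nn c) q = 1) :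
    PPA.TT (fun _ _ => 0) (BadC_e c) 2 (fun _ => True) n = 1 := by
  rw [BadC_TT c hc n hn]
  have h2 : ∏ q ∈ n.primeFactors, (1 + (jacobiSym (Nn c : ℤ) q : ℝ)) =
      ∏ q ∈ n.primeFactors, (2 : ℝ) := by
    refine prod_congr rfl fun q hq => ?_
    have := h q hq
    unfold jac at this
    rw [this]
    norm_num
  rw [h2, prod_const]
  exact div_self (by positivity)

/-- flipping the sign number `i` of both labels -/
def BadC_flip (i : Fin 4) (s : Bool → Fin 4 → ℤ) : Bool → Fin 4 → ℤ :=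
  fun v j => if j = i then - s v j else s v j

theorem BadC_flip_flip (i : Fin 4) (s : Bool → Fin 4 → ℤ) :
    BadC_flip i (BadC_flip i s) = s := by
  funext v j
  unfold BadC_flip
  by_cases h : j = i <;> simp [h]

theorem BadC_flip_mem (i : Fin 4) (s : Bool → Fin 4 → ℤ) (g : Fin 4 → ℤ)
    (hs : s ∈ PPA.SU univ g) : BadC_flip i s ∈ PPA.SU univ g := by
  simp only [PPA.SU, PPA.SV, mem_filter, Fintype.mem_piFinset, mem_univ, if_true, mem_insert,
    mem_singleton, Fintype.prod_bool] at hs ⊢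
  refine ⟨fun v j => ?_, ?_⟩
  · unfold BadC_flip
    by_cases h : j = i
    · rw [if_pos h]
      rcases hs.1 v j with h1 | h1 <;> rw [h1] <;> norm_num
    · rw [if_neg h]
      exact hs.1 v j
  · rw [← hs.2]
    funext j
    unfold BadC_flip
    simp only [Pi.mul_apply]
    by_cases h : j = i
    · rw [if_pos h, if_pos h]; ring
    · rw [if_neg h, if_neg h]

theorem BadC_FU (c : Finset ℕ) (s : Bool → Fin 4 → ℤ) :
    PPA.FU (fun _ _ => 0) (BadC_e c) univ s = ∏ i, s true i ^ (BadC_th c i : ℕ) := by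
  unfold PPA.FU
  rw [Fintype.prod_bool]
  simp [BadC_e]

theorem BadC_FU_flip (c : Finset ℕ) (i : Fin 4) (hi : BadC_th c i = 1)
    (s : Bool → Fin 4 → ℤ) :
    PPA.FU (fun _ _ => 0) (BadC_e c) univ (BadC_flip i s) =
      - PPA.FU (fun _ _ => 0) (BadC_e c) univ s := by
  rw [BadC_FU, BadC_FU, ← mul_prod_erase _ _ (mem_univ i), ← mul_prod_erase univ
    (fun j => s true j ^ (BadC_th c j : ℕ)) (mem_univ i)]
  have h1 : ∏ j ∈ univ.erase i, BadC_flip i s true j ^ (BadC_th c j : ℕ) =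
      ∏ j ∈ univ.erase i, s true j ^ (BadC_th c j : ℕ) := by
    refine prod_congr rfl fun j hj => ?_
    unfold BadC_flip
    rw [if_neg (ne_of_mem_erase hj)]
  rw [h1, hi]
  unfold BadC_flip
  rw [if_pos rfl]
  simp

theorem BadC_MU (c : Finset ℕ) (hc : c ⊆ {2, 3, 5}) (h : c ≠ ∅) (g : Fin 4 → ℤ) :
    PPA.MU (fun _ _ => 0) (BadC_e c) g (univ : Finset Bool) = 0 := by
  obtain ⟨i, hi⟩ := BadC_ne c (mem_powerset.2 hc) h
  unfold PPA.MU
  have h1 : ∑ s ∈ PPA.SU (univ : Finset Bool) g,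
      (PPA.FU (fun _ _ => 0) (BadC_e c) univ s : ℝ) = 0 := by
    have h2 : ∑ s ∈ PPA.SU (univ : Finset Bool) g,
        (PPA.FU (fun _ _ => 0) (BadC_e c) univ s : ℝ) =
        ∑ s ∈ PPA.SU (univ : Finset Bool) g,
          -(PPA.FU (fun _ _ => 0) (BadC_e c) univ s : ℝ) := by
      refine Finset.sum_nbij' (BadC_flip i) (BadC_flip i) (fun s hs => BadC_flip_mem i s g hs)
        (fun s hs => BadC_flip_mem i s g hs) (fun s _ => BadC_flip_flip i s)
        (fun s _ => BadC_flip_flip i s) fun s _ => ?_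
      rw [BadC_FU_flip c i hi]
      push_cast
      ring
    rw [sum_neg_distrib] at h2
    linarith
  rw [h1, zero_div]

open Classical in
theorem BadC_tend (c : Finset ℕ) (hc : c ⊆ {2, 3, 5}) (h : c ≠ ∅) (g : Fin 4 → ℤ)
    (hg : g ∈ PPA.SV) :
    Tendsto (fun x : ℕ => (∑ n ∈ (range (x + 1)).filter (fun n => PPA.Ok n ∧ PPA.sg n = g),
      PPA.TT (fun _ _ => 0) (BadC_e c) 2 (fun _ => True) n) / x) atTop (𝓝 0) := by
  have hcard : ∀ U : Finset Bool, U.card = 2 → U = univ := by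
    intro U hU
    exact (Finset.card_eq_iff_eq_univ U).1 (by rw [hU]; rfl)
  have hm := PPA.main (V := Bool) (fun _ _ => 0) (BadC_e c) 2 (by norm_num)
    (fun _ _ => by norm_num) (fun _ => rfl)
    (fun U _ => (Finset.card_le_univ U).trans (by simp))
    (fun U _ hU v hv => absurd (by rw [hcard U hU]; exact mem_univ v) hv)
    (fun _ => True) g hg
  refine hm.congr fun x => ?_
  congr 1
  refine sum_congr rfl fun n _ => ?_
  rw [sub_eq_self]
  refine sum_eq_zero fun U hU => ?_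
  simp only [mem_filter] at hU
  rw [hcard U hU.2.2.1]
  exact BadC_MU c hc h g

open Classical in
/-- Numbers all of whose prime factors have a given symbol equal to `1` are rare. -/
theorem res_rare (c : Finset ℕ) (hc : c ⊆ {2, 3, 5}) (h : c ≠ ∅) :
    Tendsto (fun x : ℕ => (((range (x + 1)).filter fun n => PPA.Ok n ∧
      ∀ q ∈ n.primeFactors, jac (Nn c) q = 1).card : ℝ) / x) atTop (𝓝 0) := by
  have h1 := tendsto_finsetSum (s := PPA.SV) (a := fun _ => (0 : ℝ))
    fun g hg => BadC_tend c hc h g hg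
  rw [sum_const_zero] at h1
  refine squeeze_zero (fun x => by positivity) (fun x => ?_) h1
  rw [← sum_div]
  refine div_le_div_of_nonneg_right ?_ (Nat.cast_nonneg x)
  have h2 : ∑ g ∈ PPA.SV, ∑ n ∈ (range (x + 1)).filter (fun n => PPA.Ok n ∧ PPA.sg n = g),
      PPA.TT (fun _ _ => 0) (BadC_e c) 2 (fun _ => True) n =
      ∑ n ∈ (range (x + 1)).filter (fun n => PPA.Ok n),
        PPA.TT (fun _ _ => 0) (BadC_e c) 2 (fun _ => True) n := by
    rw [← sum_fiberwise_of_maps_to (s := (range (x + 1)).filter (fun n => PPA.Ok n))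
      (t := PPA.SV) (g := fun n => PPA.sg n)
      (fun n hn => PPA.sg_mem n (mem_filter.1 hn).2.2)]
    refine sum_congr rfl fun g _ => ?_
    rw [filter_filter]
  rw [h2]
  calc (((range (x + 1)).filter fun n => PPA.Ok n ∧
      ∀ q ∈ n.primeFactors, jac (Nn c) q = 1).card : ℝ)
      = ∑ n ∈ (range (x + 1)).filter (fun n => PPA.Ok n ∧
          ∀ q ∈ n.primeFactors, jac (Nn c) q = 1), (1 : ℝ) := by
        rw [sum_const, nsmul_eq_mul, mul_one]
    _ = ∑ n ∈ (range (x + 1)).filter (fun n => PPA.Ok n ∧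
          ∀ q ∈ n.primeFactors, jac (Nn c) q = 1),
        PPA.TT (fun _ _ => 0) (BadC_e c) 2 (fun _ => True) n := by
        refine sum_congr rfl fun n hn => ?_
        rw [mem_filter] at hn
        exact (BadC_TT_one c hc n hn.2.1.1 hn.2.2).symm
    _ ≤ _ := by
        refine sum_le_sum_of_subset_of_nonneg ?_ ?_
        · intro n hn
          rw [mem_filter] at hn ⊢
          exact ⟨hn.1, hn.2.1⟩
        · intro n hn _
          exact BadC_TT_nonneg c hc n (mem_filter.1 hn).2.1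

theorem BadC_primes (n : ℕ) (hn : PPA.Ok n) : ∀ p ∈ n.primeFactors, p.Prime ∧ 7 ≤ p := by
  intro p hp
  have hpp := Nat.prime_of_mem_primeFactors hp
  refine ⟨hpp, ?_⟩
  have hd := Nat.dvd_of_mem_primeFactors hp
  have hc : p.Coprime 30 := hn.2.coprime_dvd_left hd
  by_contra h
  have h2 := hpp.two_le
  have h7 : p < 7 := not_le.1 h
  interval_cases p
  · exact absurd hc (by decide)
  · exact absurd hc (by decide)
  · exact absurd hpp (by decide)
  · exact absurd hc (by decide)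
  · exact absurd hpp (by decide)

open Classical in
/-- Bad numbers are rare. -/
theorem bad_rare (B0 : Finset ℕ) (hB : B0 ⊆ {2, 3, 5}) (a : G) (h : SgnOK B0 a) :
    Tendsto (fun x : ℕ => (((Nx a x).filter fun n => Bad (Nn B0 * n)).card : ℝ) / x)
      atTop (𝓝 0) := by
  have h1 := tendsto_finsetSum (s := (({2, 3, 5} : Finset ℕ).powerset).filter fun c => c ≠ ∅)
    (a := fun _ => (0 : ℝ))
    fun c hc => res_rare c (mem_powerset.1 (mem_filter.1 hc).1) (mem_filter.1 hc).2
  rw [sum_const_zero] at h1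
  refine squeeze_zero (fun x => by positivity) (fun x => ?_) h1
  rw [← sum_div]
  refine div_le_div_of_nonneg_right ?_ (Nat.cast_nonneg x)
  rw [← Nat.cast_sum]
  refine Nat.cast_le.2 ((card_le_card ?_).trans card_biUnion_le)
  intro n hn
  rw [mem_filter, Nx, mem_filter] at hn
  obtain ⟨⟨hr, hok, hcl⟩, hbad⟩ := hn
  have hN : Nn n.primeFactors = n := Nn_primeFactors n hok.1
  have hM := BadC_primes n hok
  have hs : Sgn (Nn B0 * Nn n.primeFactors) := by
    rw [(ar0 B0 hB n.primeFactors hM).2.2.2.1, hN, hcl]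
    exact h
  obtain ⟨c, hc, hc0, hq⟩ := bad_imp B0 hB n.primeFactors hM hs (by rw [hN]; exact hbad)
  rw [mem_biUnion]
  exact ⟨c, mem_filter.2 ⟨mem_powerset.2 hc, hc0⟩, mem_filter.2 ⟨hr, hok, hq⟩⟩

end PP15
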