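import Pool.Agent.Lib.MP_87c685_nt_PP15.Ar1

open Finset

namespace PP15

private lemma badI_cop (A : Finset ℕ) (hA : A ⊆ {2, 3, 5}) (q : ℕ) (hq : q.Prime ∧ 7 ≤ q) :
    (Nn A).Coprime q := by
  unfold Nn
  refine Nat.Coprime.prod_left fun p hp => ?_
  have h1 := hA hp
  simp only [Finset.mem_insert, Finset.mem_singleton] at h1
  rcases h1 with rfl | rfl | rfl
  · exact (Nat.coprime_primes Nat.prime_two hq.1).2 (by omega)
  · exact (Nat.coprime_primes Nat.prime_three hq.1).2 (by omega)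
  · exact (Nat.coprime_primes Nat.prime_five hq.1).2 (by omega)

private lemma badI_split (A B : Finset ℕ) : Nn A = Nn (A \ B) * Nn (A ∩ B) := by
  rw [← Nn_union _ _ (Finset.disjoint_sdiff_inter A B), Finset.sdiff_union_inter]

private lemma badI_symm (A B : Finset ℕ) (hA : A ⊆ {2, 3, 5}) (q : ℕ) (hq : q.Prime ∧ 7 ≤ q) :
    jac (Nn A * Nn B) q = jac (Nn ((A \ B) ∪ (B \ A))) q := by
  have h1 : Disjoint (A \ B) (B \ A) := by
    rw [Finset.disjoint_left]
    intro x hx hx'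
    exact (Finset.mem_sdiff.1 hx').2 (Finset.mem_sdiff.1 hx).1
  have h2 := jac_sq (Nn (A ∩ B)) q
    (badI_cop _ (fun x hx => hA (Finset.mem_of_mem_inter_left hx)) q hq)
  rw [Nn_union _ _ h1, badI_split A B, badI_split B A, Finset.inter_comm B A]
  simp only [jac_mul_left]
  linear_combination (jac (Nn (A \ B)) q * jac (Nn (B \ A)) q) * h2

/-- Bad numbers: some product of small primes is a square modulo all big primes. -/
theorem bad_imp (B0 : Finset ℕ) (hB : B0 ⊆ {2, 3, 5}) (M : Finset ℕ)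
    (hM : ∀ p ∈ M, p.Prime ∧ 7 ≤ p) (hs : Sgn (Nn B0 * Nn M)) (hb : Bad (Nn B0 * Nn M)) :
    ∃ c ⊆ ({2, 3, 5} : Finset ℕ), c ≠ ∅ ∧ ∀ q ∈ M, jac (Nn c) q = 1 := by
  obtain ⟨-, h2, h3, h4, -, h6, h7⟩ := ar0 B0 hB M hM
  have hs' := h4.1 hs
  obtain ⟨m, hm, hm2, hm3, hm4⟩ := hb
  rw [h3] at hm2
  rw [h2] at hm4
  have hsub : m ⊆ small B0 (cl (Nn M)) ∪ M := by
    rw [← h6]
    unfold X15B.PhiF at hm
    exact Finset.mem_powerset.1 (Finset.mem_filter.1 hm).1
  have hsplit : (m ∩ small B0 (cl (Nn M))) ∪ (m ∩ M) = m := by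
    rw [← Finset.inter_union_distrib_left]
    exact Finset.inter_eq_left.2 hsub
  have hc1 : m ∩ small B0 (cl (Nn M)) ⊆ small B0 (cl (Nn M)) := Finset.inter_subset_right
  have hc2 : m ∩ small B0 (cl (Nn M)) ⊆ {2, 3, 5} := hc1.trans h7
  have hsy := ((ar1 B0 hB M hM hs' _ (m ∩ M) hc1 Finset.inter_subset_right).1
    (by rw [hsplit]; exact hm)).2
  rcases hm2 with h | h
  · rw [h] at hsy hsplit
    rw [Finset.union_empty] at hsplit
    refine ⟨m ∩ small B0 (cl (Nn M)), hc2, by rw [hsplit]; exact hm3, fun q hq => ?_⟩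
    have h8 := hsy q hq
    unfold sy at h8
    rw [if_neg (Finset.notMem_empty q), Nn_empty, mul_one] at h8
    exact h8
  · have h' : m ∩ M = M := Finset.inter_eq_right.2 h
    rw [h'] at hsy hsplit
    refine ⟨((m ∩ small B0 (cl (Nn M))) \ B0) ∪ (B0 \ (m ∩ small B0 (cl (Nn M)))), ?_, ?_,
      fun q hq => ?_⟩
    · exact Finset.union_subset (Finset.sdiff_subset.trans hc2) (Finset.sdiff_subset.trans hB)
    · intro he
      rw [Finset.union_eq_empty, Finset.sdiff_eq_empty_iff_subset,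
        Finset.sdiff_eq_empty_iff_subset] at he
      apply hm4
      rw [← hsplit, Finset.Subset.antisymm he.1 he.2]
    · rw [← badI_symm _ _ hc2 q (hM q hq)]
      have h8 := hsy q hq
      unfold sy at h8
      rw [if_pos hq, Finset.sdiff_self, Nn_empty, mul_one] at h8
      exact h8

end PP15
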