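import Pool.Agent.Lib.MP_87c685_nt_PP15.Defs

open Finset

namespace PP15

theorem sg_zero : sg 0 = 1 := by
  simp [sg]

theorem sg_one : sg 1 = -1 := by
  simp [sg]

private theorem z2 (a : ZMod 2) : a = 0 ∨ a = 1 := by
  revert a
  decide

theorem sg_add (a b : ZMod 2) : sg (a + b) = sg a * sg b := by
  have h11 : (1 + 1 : ZMod 2) = 0 := by decide
  rcases z2 a with rfl | rfl <;> rcases z2 b with rfl | rfl
  · rw [add_zero, sg_zero, one_mul]
  · rw [zero_add, sg_zero, one_mul]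
  · rw [add_zero, sg_zero, mul_one]
  · rw [h11, sg_zero, sg_one]
    norm_num

theorem sg_sum {ι : Type*} (s : Finset ι) (f : ι → ZMod 2) :
    sg (∑ i ∈ s, f i) = ∏ i ∈ s, sg (f i) := by
  classical
  induction s using Finset.induction_on with
  | empty => rw [Finset.sum_empty, Finset.prod_empty, sg_zero]
  | insert a s ha ih => rw [Finset.sum_insert ha, Finset.prod_insert ha, sg_add, ih]

theorem sg_mul_self (a : ZMod 2) : sg a * sg a = 1 := by
  rcases z2 a with rfl | rfl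
  · rw [sg_zero, one_mul]
  · rw [sg_one]
    norm_num

theorem abs_sg (a : ZMod 2) : |sg a| = 1 := by
  rcases z2 a with rfl | rfl
  · rw [sg_zero, abs_one]
  · rw [sg_one, abs_neg, abs_one]

private theorem coprime_thirty {p : ℕ} (hp : p.Prime) (h7 : 7 ≤ p) : p.Coprime 30 := by
  rw [Nat.Prime.coprime_iff_not_dvd hp]
  intro h
  have h1 : p ∣ 2 * (3 * 5) := h
  rcases (Nat.Prime.dvd_mul hp).1 h1 with h2 | h2
  · have := Nat.le_of_dvd (by norm_num) h2
    omega
  · rcases (Nat.Prime.dvd_mul hp).1 h2 with h3 | h3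
    · have := Nat.le_of_dvd (by norm_num) h3
      omega
    · have := Nat.le_of_dvd (by norm_num) h3
      omega

theorem Nn_empty : Nn ∅ = 1 := by
  unfold Nn
  exact Finset.prod_empty

theorem Nn_union (A B : Finset ℕ) (h : Disjoint A B) : Nn (A ∪ B) = Nn A * Nn B := by
  unfold Nn
  exact Finset.prod_union h

theorem Nn_coprime (A B : Finset ℕ) (hA : ∀ p ∈ A, p.Prime) (hB : ∀ p ∈ B, p.Prime)
    (h : Disjoint A B) : (Nn A).Coprime (Nn B) := by
  unfold Nn
  refine Nat.Coprime.prod_left fun p hp => Nat.Coprime.prod_right fun q hq => ?_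
  refine (Nat.coprime_primes (hA p hp) (hB q hq)).2 ?_
  rintro rfl
  exact Finset.disjoint_left.1 h hp hq

private theorem Nn_insert {p : ℕ} {A : Finset ℕ} (h : p ∉ A) : Nn (insert p A) = p * Nn A := by
  unfold Nn
  exact Finset.prod_insert h

private theorem Nn_aux (A : Finset ℕ) (hA : ∀ p ∈ A, p.Prime ∧ 7 ≤ p) :
    Squarefree (Nn A) ∧ (Nn A).Coprime 30 ∧ (Nn A).primeFactors = A := by
  classical
  induction A using Finset.induction_on with
  | empty =>
    rw [Nn_empty]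
    refine ⟨squarefree_one, Nat.coprime_one_left 30, Nat.primeFactors_one⟩
  | insert p A hp ih =>
    obtain ⟨h1, h2, h3⟩ := ih fun q hq => hA q (Finset.mem_insert_of_mem hq)
    obtain ⟨hpp, h7⟩ := hA p (Finset.mem_insert_self p A)
    have hcop : p.Coprime (Nn A) := by
      rw [Nat.Prime.coprime_iff_not_dvd hpp]
      intro hd
      have h4 : p ∈ (Nn A).primeFactors := Nat.mem_primeFactors.2 ⟨hpp, hd, h1.ne_zero⟩
      rw [h3] at h4
      exact hp h4
    rw [Nn_insert hp]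
    refine ⟨(Nat.squarefree_mul hcop).2 ⟨hpp.prime.squarefree, h1⟩,
      Nat.Coprime.mul_left (coprime_thirty hpp h7) h2, ?_⟩
    rw [hcop.primeFactors_mul, Nat.Prime.primeFactors hpp, h3]
    rfl

/-- Facts on products of sets of primes `≥ 7`. -/
theorem Nn_facts (A : Finset ℕ) (hA : ∀ p ∈ A, p.Prime ∧ 7 ≤ p) :
    Squarefree (Nn A) ∧ (Nn A).Coprime 30 ∧ Odd (Nn A) ∧ 0 < Nn A ∧ (Nn A).primeFactors = A := by
  obtain ⟨h1, h2, h3⟩ := Nn_aux A hA
  refine ⟨h1, h2, ?_, Nat.pos_of_ne_zero h1.ne_zero, h3⟩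
  rw [← Nat.coprime_two_right]
  exact Nat.Coprime.coprime_dvd_right (by norm_num) h2

/-- A product of primes is `1` only if the set is empty. -/
theorem one_lt_Nn (A : Finset ℕ) (hA : ∀ p ∈ A, p.Prime ∧ 7 ≤ p) (h : A.Nonempty) :
    1 < Nn A := by
  obtain ⟨p, hp⟩ := h
  have h1 : p ∣ Nn A := Finset.dvd_prod_of_mem (fun q => q) hp
  have h2 := Nat.le_of_dvd (Nn_facts A hA).2.2.2.1 h1
  have h3 := (hA p hp).2
  omega

/-- A squarefree number is the product of its prime factors. -/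
theorem Nn_primeFactors (n : ℕ) (hn : Squarefree n) : Nn n.primeFactors = n := by
  unfold Nn
  exact Nat.prod_primeFactors_of_squarefree hn

private theorem cl0 (m : ℕ) : cl m 0 = if m % 4 = 3 then 1 else 0 := rfl

private theorem cl1 (m : ℕ) : cl m 1 = if m % 8 = 3 ∨ m % 8 = 5 then 1 else 0 := rfl

private theorem cl2 (m : ℕ) : cl m 2 = if m % 3 = 2 then 1 else 0 := rfl

private theorem cl3 (m : ℕ) : cl m 3 = if m % 5 = 2 ∨ m % 5 = 3 then 1 else 0 := rfl

theorem cl_one : cl 1 = 0 := by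
  funext i
  fin_cases i
  · show cl 1 0 = 0
    rw [cl0]
    decide
  · show cl 1 1 = 0
    rw [cl1]
    decide
  · show cl 1 2 = 0
    rw [cl2]
    decide
  · show cl 1 3 = 0
    rw [cl3]
    decide

/-- the coordinate `0` of the class, for all odd numbers -/
theorem cl_mul_zero (m n : ℕ) (hm : Odd m) (hn : Odd n) : cl (m * n) 0 = cl m 0 + cl n 0 := by
  have h1 : m % 4 = 1 ∨ m % 4 = 3 := by
    obtain ⟨k, rfl⟩ := hm
    omega
  have h2 : n % 4 = 1 ∨ n % 4 = 3 := by
    obtain ⟨k, rfl⟩ := hn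
    omega
  rw [cl0, cl0, cl0, Nat.mul_mod]
  rcases h1 with h1 | h1 <;> rcases h2 with h2 | h2 <;> rw [h1, h2] <;> decide

private theorem cl_mul_one (m n : ℕ) (hm : Odd m) (hn : Odd n) :
    cl (m * n) 1 = cl m 1 + cl n 1 := by
  have h1 : m % 8 = 1 ∨ m % 8 = 3 ∨ m % 8 = 5 ∨ m % 8 = 7 := by
    obtain ⟨k, rfl⟩ := hm
    omega
  have h2 : n % 8 = 1 ∨ n % 8 = 3 ∨ n % 8 = 5 ∨ n % 8 = 7 := by
    obtain ⟨k, rfl⟩ := hn
    omega
  rw [cl1, cl1, cl1, Nat.mul_mod]
  rcases h1 with h1 | h1 | h1 | h1 <;> rcases h2 with h2 | h2 | h2 | h2 <;> rw [h1, h2] <;> decide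

/-- the coordinate `2` of the class, for all numbers prime to `3` -/
theorem cl_mul_two (m n : ℕ) (hm : m.Coprime 3) (hn : n.Coprime 3) :
    cl (m * n) 2 = cl m 2 + cl n 2 := by
  have hm' := (Nat.Prime.coprime_iff_not_dvd Nat.prime_three).1 hm.symm
  have hn' := (Nat.Prime.coprime_iff_not_dvd Nat.prime_three).1 hn.symm
  have h1 : m % 3 = 1 ∨ m % 3 = 2 := by omega
  have h2 : n % 3 = 1 ∨ n % 3 = 2 := by omega
  rw [cl2, cl2, cl2, Nat.mul_mod]
  rcases h1 with h1 | h1 <;> rcases h2 with h2 | h2 <;> rw [h1, h2] <;> decide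

/-- the coordinate `3` of the class, for all numbers prime to `5` -/
theorem cl_mul_three (m n : ℕ) (hm : m.Coprime 5) (hn : n.Coprime 5) :
    cl (m * n) 3 = cl m 3 + cl n 3 := by
  have hm' := (Nat.Prime.coprime_iff_not_dvd Nat.prime_five).1 hm.symm
  have hn' := (Nat.Prime.coprime_iff_not_dvd Nat.prime_five).1 hn.symm
  have h1 : m % 5 = 1 ∨ m % 5 = 2 ∨ m % 5 = 3 ∨ m % 5 = 4 := by omega
  have h2 : n % 5 = 1 ∨ n % 5 = 2 ∨ n % 5 = 3 ∨ n % 5 = 4 := by omega
  rw [cl3, cl3, cl3, Nat.mul_mod]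
  rcases h1 with h1 | h1 | h1 | h1 <;> rcases h2 with h2 | h2 | h2 | h2 <;> rw [h1, h2] <;> decide

theorem cl_mul (m n : ℕ) (hm : m.Coprime 30) (hn : n.Coprime 30) : cl (m * n) = cl m + cl n := by
  have o1 : Odd m := by
    rw [← Nat.coprime_two_right]
    exact Nat.Coprime.coprime_dvd_right (by norm_num) hm
  have o2 : Odd n := by
    rw [← Nat.coprime_two_right]
    exact Nat.Coprime.coprime_dvd_right (by norm_num) hn
  have t1 : m.Coprime 3 := Nat.Coprime.coprime_dvd_right (by norm_num) hm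
  have t2 : n.Coprime 3 := Nat.Coprime.coprime_dvd_right (by norm_num) hn
  have f1 : m.Coprime 5 := Nat.Coprime.coprime_dvd_right (by norm_num) hm
  have f2 : n.Coprime 5 := Nat.Coprime.coprime_dvd_right (by norm_num) hn
  funext i
  rw [Pi.add_apply]
  fin_cases i
  · exact cl_mul_zero m n o1 o2
  · exact cl_mul_one m n o1 o2
  · exact cl_mul_two m n t1 t2
  · exact cl_mul_three m n f1 f2

theorem cl_Nn (A : Finset ℕ) (hA : ∀ p ∈ A, p.Prime ∧ 7 ≤ p) : cl (Nn A) = ∑ p ∈ A, cl p := by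
  classical
  induction A using Finset.induction_on with
  | empty => rw [Nn_empty, cl_one, Finset.sum_empty]
  | insert p A hp ih =>
    have hA' : ∀ q ∈ A, q.Prime ∧ 7 ≤ q := fun q hq => hA q (Finset.mem_insert_of_mem hq)
    obtain ⟨hpp, h7⟩ := hA p (Finset.mem_insert_self p A)
    rw [Nn_insert hp, cl_mul _ _ (coprime_thirty hpp h7) (Nn_facts A hA').2.1, ih hA',
      Finset.sum_insert hp]

/-- Orthogonality on `G`. -/
theorem sum_sg_dot (h : G) : ∑ a : G, sg (a ⬝ᵥ h) = if h = 0 then 16 else 0 := by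
  have h1 : ∀ a : G, sg (a ⬝ᵥ h) = ∏ i, sg (a i * h i) := fun a => sg_sum _ _
  have h2 : ∑ a : G, sg (a ⬝ᵥ h) = ∏ i, ∑ t : ZMod 2, sg (t * h i) := by
    rw [Finset.prod_univ_sum, Fintype.piFinset_univ]
    exact Finset.sum_congr rfl fun a _ => h1 a
  have h3 : ∀ i, ∑ t : ZMod 2, sg (t * h i) = if h i = 0 then 2 else 0 := by
    intro i
    rcases z2 (h i) with h0 | h0
    · rw [h0, if_pos rfl]
      simp only [mul_zero, sg_zero, Finset.sum_const, Finset.card_univ, ZMod.card]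
      norm_num
    · rw [h0, if_neg one_ne_zero]
      have h4 : ∑ t : ZMod 2, sg (t * 1) = sg (0 * 1) + sg (1 * 1) := Fin.sum_univ_two _
      rw [h4, zero_mul, one_mul, sg_zero, sg_one]
      norm_num
  rw [h2, Finset.prod_congr rfl fun i _ => h3 i]
  split_ifs with h5
  · subst h5
    simp only [Pi.zero_apply, if_true, Finset.prod_const, Finset.card_univ, Fintype.card_fin]
    norm_num
  · have h6 : ∃ i, h i ≠ 0 := by
      by_contra h7
      push Not at h7
      exact h5 (funext h7)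
    obtain ⟨i, hi⟩ := h6
    exact Finset.prod_eq_zero (Finset.mem_univ i) (if_neg hi)

end PP15
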