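import Pool.Agent.Lib.MP_87c685_nt_PP15.Bas1

open Finset

namespace PP15

theorem jac_mul_left (m n q : ℕ) : jac (m * n) q = jac m q * jac n q := by
  unfold jac
  rw [Nat.cast_mul, jacobiSym.mul_left]
  push_cast
  rfl

theorem jac_mul_right (m n q : ℕ) (hn : n ≠ 0) (hq : q ≠ 0) :
    jac m (n * q) = jac m n * jac m q := by
  unfold jac
  rw [jacobiSym.mul_right' _ hn hq]
  push_cast
  rfl

theorem jac_one_left (n : ℕ) : jac 1 n = 1 := by
  unfold jac
  rw [Nat.cast_one, jacobiSym.one_left, Int.cast_one]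

theorem jac_one_right (n : ℕ) : jac n 1 = 1 := by
  unfold jac
  rw [jacobiSym.one_right, Int.cast_one]

theorem jac_sign (m n : ℕ) (h : m.Coprime n) : jac m n = 1 ∨ jac m n = -1 := by
  unfold jac
  have h1 : Int.gcd (m : ℤ) (n : ℤ) = 1 := h
  rcases jacobiSym.eq_one_or_neg_one h1 with h2 | h2
  · left
    rw [h2, Int.cast_one]
  · right
    rw [h2]
    norm_num

theorem jac_sq (m n : ℕ) (h : m.Coprime n) : jac m n * jac m n = 1 := by
  rcases jac_sign m n h with h1 | h1 <;> rw [h1] <;> norm_num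

theorem jac_Nn_left (A : Finset ℕ) (q : ℕ) : jac (Nn A) q = ∏ p ∈ A, jac p q := by
  classical
  unfold Nn
  induction A using Finset.induction_on with
  | empty => exact jac_one_left q
  | insert a A ha ih => rw [prod_insert ha, prod_insert ha, jac_mul_left, ih]

theorem jac_Nn_right (A : Finset ℕ) (q : ℕ) (hA : ∀ p ∈ A, p ≠ 0) :
    jac q (Nn A) = ∏ p ∈ A, jac q p := by
  classical
  unfold Nn
  induction A using Finset.induction_on with
  | empty => exact jac_one_right q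
  | insert a A ha ih =>
    have h1 : ∀ p ∈ A, p ≠ 0 := fun p hp => hA p (mem_insert_of_mem hp)
    rw [prod_insert ha, prod_insert ha, jac_mul_right _ _ _ (hA a (mem_insert_self a A))
      (prod_ne_zero_iff.mpr h1), ih h1]

private lemma cl0 (m : ℕ) : cl m 0 = if m % 4 = 3 then 1 else 0 := rfl

private lemma cl1 (m : ℕ) : cl m 1 = if m % 8 = 3 ∨ m % 8 = 5 then 1 else 0 := rfl

private lemma cl2 (m : ℕ) : cl m 2 = if m % 3 = 2 then 1 else 0 := rfl

private lemma cl3 (m : ℕ) : cl m 3 = if m % 5 = 2 ∨ m % 5 = 3 then 1 else 0 := rfl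

/-- quadratic reciprocity -/
theorem jac_recip (m n : ℕ) (hm : Odd m) (hn : Odd n) :
    jac m n = sg (cl m 0 * cl n 0) * jac n m := by
  unfold jac
  have hm2 : m % 2 = 1 := Nat.odd_iff.mp hm
  have hn2 : n % 2 = 1 := Nat.odd_iff.mp hn
  rw [cl0, cl0]
  by_cases h1 : m % 4 = 3
  · by_cases h2 : n % 4 = 3
    · rw [if_pos h1, if_pos h2, jacobiSym.quadratic_reciprocity_three_mod_four h1 h2, one_mul,
        sg_one]
      push_cast
      ring
    · have h3 : n % 4 = 1 := by omega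
      rw [if_pos h1, if_neg h2, jacobiSym.quadratic_reciprocity_one_mod_four' hm h3, mul_zero,
        sg_zero, one_mul]
  · have h3 : m % 4 = 1 := by omega
    rw [if_neg h1, jacobiSym.quadratic_reciprocity_one_mod_four h3 hn, zero_mul, sg_zero, one_mul]

/-- symbols modulo `3` and `5` -/
theorem jac_mod_three (m : ℕ) (hm : m.Coprime 3) : jac m 3 = sg (cl m 2) := by
  have h0 : m % 3 ≠ 0 := by
    intro h
    have h1 : (3 : ℕ) ∣ m := Nat.dvd_of_mod_eq_zero h
    have h2 : (3 : ℕ) ∣ Nat.gcd m 3 := Nat.dvd_gcd h1 (dvd_refl 3)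
    rw [hm] at h2
    omega
  have hlt : m % 3 < 3 := Nat.mod_lt _ (by norm_num)
  unfold jac
  rw [cl2, jacobiSym.mod_left]
  by_cases h : m % 3 = 2
  · have h3 : ((m : ℤ) % ((3 : ℕ) : ℤ)) = 2 := by
      push_cast
      omega
    rw [if_pos h, sg_one, h3]
    have h4 : jacobiSym 2 3 = -1 := by norm_num
    rw [h4]
    norm_num
  · have h3 : ((m : ℤ) % ((3 : ℕ) : ℤ)) = 1 := by
      push_cast
      omega
    rw [if_neg h, sg_zero, h3, jacobiSym.one_left, Int.cast_one]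

theorem jac_mod_five (m : ℕ) (hm : m.Coprime 5) : jac m 5 = sg (cl m 3) := by
  have h0 : m % 5 ≠ 0 := by
    intro h
    have h1 : (5 : ℕ) ∣ m := Nat.dvd_of_mod_eq_zero h
    have h2 : (5 : ℕ) ∣ Nat.gcd m 5 := Nat.dvd_gcd h1 (dvd_refl 5)
    rw [hm] at h2
    omega
  have hlt : m % 5 < 5 := Nat.mod_lt _ (by norm_num)
  unfold jac
  rw [cl3, jacobiSym.mod_left]
  have hc : m % 5 = 1 ∨ m % 5 = 2 ∨ m % 5 = 3 ∨ m % 5 = 4 := by omega
  rcases hc with h | h | h | h
  · have h3 : ((m : ℤ) % ((5 : ℕ) : ℤ)) = 1 := by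
      push_cast
      omega
    have h5 : ¬ (m % 5 = 2 ∨ m % 5 = 3) := by omega
    rw [if_neg h5, sg_zero, h3, jacobiSym.one_left, Int.cast_one]
  · have h3 : ((m : ℤ) % ((5 : ℕ) : ℤ)) = 2 := by
      push_cast
      omega
    have h5 : m % 5 = 2 ∨ m % 5 = 3 := by omega
    have h4 : jacobiSym 2 5 = -1 := by norm_num
    rw [if_pos h5, sg_one, h3, h4]
    norm_num
  · have h3 : ((m : ℤ) % ((5 : ℕ) : ℤ)) = 3 := by
      push_cast
      omega
    have h5 : m % 5 = 2 ∨ m % 5 = 3 := by omega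
    have h4 : jacobiSym 3 5 = -1 := by norm_num
    rw [if_pos h5, sg_one, h3, h4]
    norm_num
  · have h3 : ((m : ℤ) % ((5 : ℕ) : ℤ)) = 4 := by
      push_cast
      omega
    have h5 : ¬ (m % 5 = 2 ∨ m % 5 = 3) := by omega
    have h4 : jacobiSym 4 5 = 1 := by norm_num
    rw [if_neg h5, sg_zero, h3, h4, Int.cast_one]

private lemma odd_of_c (m : ℕ) (hm : m.Coprime 30) : Odd m := by
  have h : m.Coprime 2 := Nat.Coprime.coprime_dvd_right (by norm_num) hm
  rwa [Nat.coprime_two_right] at h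

theorem jac_two (m : ℕ) (hm : m.Coprime 30) : jac 2 m = sg (cl m 1) := by
  have ho := odd_of_c m hm
  have hm2 : m % 2 = 1 := Nat.odd_iff.mp ho
  unfold jac
  rw [cl1, Nat.cast_ofNat, jacobiSym.at_two ho, ZMod.χ₈_nat_eq_if_mod_eight]
  by_cases h : m % 8 = 3 ∨ m % 8 = 5
  · have h1 : ¬ (m % 2 = 0) := by omega
    have h2 : ¬ (m % 8 = 1 ∨ m % 8 = 7) := by omega
    rw [if_pos h, if_neg h1, if_neg h2, sg_one]
    norm_num
  · have h1 : ¬ (m % 2 = 0) := by omega
    have h2 : m % 8 = 1 ∨ m % 8 = 7 := by omega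
    rw [if_neg h, if_neg h1, if_pos h2, sg_zero, Int.cast_one]

theorem jac_three (m : ℕ) (hm : m.Coprime 30) : jac 3 m = sg (cl m 2 + cl m 0) := by
  have ho := odd_of_c m hm
  have h3 : m.Coprime 3 := Nat.Coprime.coprime_dvd_right (by norm_num) hm
  have h1 : cl 3 0 = 1 := rfl
  rw [jac_recip 3 m (by decide) ho, jac_mod_three m h3, h1, one_mul, sg_add, mul_comm]

theorem jac_five (m : ℕ) (hm : m.Coprime 30) : jac 5 m = sg (cl m 3) := by
  have ho := odd_of_c m hm
  have h5 : m.Coprime 5 := Nat.Coprime.coprime_dvd_right (by norm_num) hm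
  have h1 : cl 5 0 = 0 := rfl
  rw [jac_recip 5 m (by decide) ho, jac_mod_five m h5, h1, zero_mul, sg_zero, one_mul]

private lemma jac_lam1 (s : ℕ) (hs : s ∈ ({2, 3, 5} : Finset ℕ)) (m : ℕ) (hm : m.Coprime 30) :
    jac s m = sg (lam1 s ⬝ᵥ cl m) := by
  simp only [mem_insert, mem_singleton] at hs
  rcases hs with h | h | h
  · subst h
    have h1 : lam1 2 ⬝ᵥ cl m = cl m 1 := by
      have h2 : lam1 2 = ![0, 1, 0, 0] := rfl
      rw [h2]
      simp [dotProduct, Fin.sum_univ_four]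
    rw [h1, jac_two m hm]
  · subst h
    have h1 : lam1 3 ⬝ᵥ cl m = cl m 2 + cl m 0 := by
      have h2 : lam1 3 = ![1, 0, 1, 0] := rfl
      rw [h2]
      simp [dotProduct, Fin.sum_univ_four, add_comm]
    rw [h1, jac_three m hm]
  · subst h
    have h1 : lam1 5 ⬝ᵥ cl m = cl m 3 := by
      have h2 : lam1 5 = ![0, 0, 0, 1] := rfl
      rw [h2]
      simp [dotProduct, Fin.sum_univ_four]
    rw [h1, jac_five m hm]

/-- `(N(c) / m)` for a set `c` of small primes -/
theorem jac_lam (c : Finset ℕ) (hc : c ⊆ {2, 3, 5}) (m : ℕ) (hm : m.Coprime 30) :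
    jac (Nn c) m = sg (lam c ⬝ᵥ cl m) := by
  unfold lam
  rw [jac_Nn_left, sum_dotProduct, sg_sum]
  exact prod_congr rfl fun s hs => jac_lam1 s (hc hs) m hm

end PP15
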