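import Pool.Agent.Lib.MP_87c685_nt_PP15.Cnt

open Finset

namespace PP15

/-- The test function. -/
noncomputable def hh (n : ℕ) : ℝ :=
  1 - (TT 1 True n : ℝ) / 2 + (TT 2 True n : ℝ) / 12 - (TT 3 True n : ℝ) / 168 +
    (TT 4 True n : ℝ) / 5040 - (TT 5 True n : ℝ) / 312480

open Classical in
private lemma ineq_TT_le (k n : ℕ) : (TT k True n : ℝ) ≤ ((X15B.PhiF n).card : ℝ) ^ k := by
  have h : TT k True n ≤ (X15B.PhiF n).card ^ k := by
    unfold TT
    refine (Finset.card_le_card (@Finset.filter_subset _ _ (_) _)).trans_eq ?_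
    rw [Fintype.card_piFinset, prod_const, card_univ, Fintype.card_fin]
  exact_mod_cast h

private lemma ineq_one_le (n : ℕ) : (1 : ℝ) ≤ ((X15B.PhiF n).card : ℝ) := by
  have h : ∅ ∈ X15B.PhiF n := by
    unfold X15B.PhiF
    rw [mem_filter]
    exact ⟨empty_mem_powerset _, fun q _ => prod_empty⟩
  have h1 : 1 ≤ (X15B.PhiF n).card := card_pos.mpr ⟨∅, h⟩
  exact_mod_cast h1

private lemma ineq_poly (Y t1 t2 t3 t4 t5 : ℝ) (h1 : t1 = 2 * (Y - 1))
    (h2 : t2 = 4 * ((Y - 1) * (Y - 2))) (h3 : t3 = 8 * ((Y - 1) * (Y - 2) * (Y - 4)))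
    (h4 : t4 = 16 * ((Y - 1) * (Y - 2) * (Y - 4) * (Y - 8)))
    (h5 : t5 = 32 * ((Y - 1) * (Y - 2) * (Y - 4) * (Y - 8) * (Y - 16))) :
    1 - t1 / 2 + t2 / 12 - t3 / 168 + t4 / 5040 - t5 / 312480 =
      -((Y - 2) * (Y - 4) * (Y - 8) * (Y - 16) * (Y - 32)) / 9765 := by
  rw [h1, h2, h3, h4, h5]
  ring

open Classical in
theorem ineq (n : ℕ) (hn : Squarefree n) (hs : Sgn n) :
    hh n ≤ (if (X15B.PhiF n).card ≤ 2 then 1 else 0) +
      (if Bad n then 3 * ((X15B.PhiF n).card : ℝ) ^ 4 else 0) := by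
  by_cases hb : Bad n
  · rw [if_pos hb]
    have hP := ineq_one_le n
    have h2 := ineq_TT_le 2 n
    have h4 := ineq_TT_le 4 n
    set P : ℝ := ((X15B.PhiF n).card : ℝ) with hPd
    have hP2 : 1 ≤ P ^ 2 := one_le_pow₀ hP
    have hP4 : P ^ 2 ≤ P ^ 4 := by
      have : P ^ 4 = P ^ 2 * P ^ 2 := by ring
      rw [this]
      nlinarith
    have h0 : (0 : ℝ) ≤ (if (X15B.PhiF n).card ≤ 2 then 1 else 0) := by
      split_ifs <;> norm_num
    have e1 : (0 : ℝ) ≤ (TT 1 True n : ℝ) := Nat.cast_nonneg _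
    have e3 : (0 : ℝ) ≤ (TT 3 True n : ℝ) := Nat.cast_nonneg _
    have e5 : (0 : ℝ) ≤ (TT 5 True n : ℝ) := Nat.cast_nonneg _
    unfold hh
    linarith
  · rw [if_neg hb, add_zero]
    obtain ⟨r, hr, hT⟩ := cnt n hn hs hb
    have hTr : ∀ k : ℕ, 1 ≤ k → (TT k True n : ℝ) =
        2 ^ k * ∏ i ∈ range k, ((2 : ℝ) ^ r - 2 ^ i) := by
      intro k hk
      have h := hT k hk
      have h' : ((TT k True n : ℤ) : ℝ) =
          ((2 ^ k * ∏ i ∈ range k, ((2 : ℤ) ^ r - 2 ^ i) : ℤ) : ℝ) := by rw [h]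
      push_cast at h'
      exact h'
    set Y : ℝ := (2 : ℝ) ^ r with hY
    have key : hh n = -((Y - 2) * (Y - 4) * (Y - 8) * (Y - 16) * (Y - 32)) / 9765 := by
      unfold hh
      refine ineq_poly Y _ _ _ _ _ ?_ ?_ ?_ ?_ ?_
      · rw [hTr 1 (by norm_num)]
        simp only [prod_range_succ, prod_range_zero]
        norm_num
      · rw [hTr 2 (by norm_num)]
        simp only [prod_range_succ, prod_range_zero]
        norm_num
      · rw [hTr 3 (by norm_num)]
        simp only [prod_range_succ, prod_range_zero]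
        norm_num
      · rw [hTr 4 (by norm_num)]
        simp only [prod_range_succ, prod_range_zero]
        norm_num
      · rw [hTr 5 (by norm_num)]
        simp only [prod_range_succ, prod_range_zero]
        norm_num
    have h0 : (0 : ℝ) ≤ (if (X15B.PhiF n).card ≤ 2 then 1 else 0) := by
      split_ifs <;> norm_num
    rcases Nat.eq_zero_or_pos r with hr0 | hr0
    · have hc : (X15B.PhiF n).card ≤ 2 := by
        rw [hr, hr0]
        norm_num
      rw [if_pos hc, key, hY, hr0]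
      norm_num
    · refine le_trans ?_ h0
      rw [key]
      by_cases h6 : r < 6
      · interval_cases r <;> norm_num [hY]
      · have hY6 : (64 : ℝ) ≤ Y := by
          have h64 : (64 : ℝ) = 2 ^ 6 := by norm_num
          rw [h64, hY]
          exact pow_le_pow_right₀ (by norm_num) (by omega)
        have hpos : 0 ≤ (Y - 2) * (Y - 4) * (Y - 8) * (Y - 16) * (Y - 32) := by
          have a1 : 0 ≤ Y - 2 := by linarith
          have a2 : 0 ≤ Y - 4 := by linarith
          have a3 : 0 ≤ Y - 8 := by linarith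
          have a4 : 0 ≤ Y - 16 := by linarith
          have a5 : 0 ≤ Y - 32 := by linarith
          positivity
        linarith

end PP15
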