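import Pool.Agent.Lib.MP_87c685_nt_PP15.Hld
import Pool.Agent.Lib.MP_87c685_nt_PP15.Ineq

open Finset Filter Topology

namespace PP15

/-- the primes of a number of the class -/
private theorem Cls_big (n : ℕ) (hn : PPA.Ok n) : ∀ p ∈ n.primeFactors, p.Prime ∧ 7 ≤ p := by
  intro p hp
  have hp1 := Nat.prime_of_mem_primeFactors hp
  have hp2 := Nat.dvd_of_mem_primeFactors hp
  refine ⟨hp1, ?_⟩
  by_contra hlt
  have hlt : p < 7 := by omega
  have h30 : p ∣ 30 := by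
    have h2 := hp1.two_le
    interval_cases p
    · norm_num
    · norm_num
    · exact absurd hp1 (by norm_num)
    · norm_num
    · norm_num
  have h1 : p ∣ Nat.gcd n 30 := Nat.dvd_gcd hp2 h30
  rw [hn.2] at h1
  exact hp1.one_lt.ne' (Nat.dvd_one.1 h1)

private theorem Cls_ok (B0 : Finset ℕ) (hB : B0 ⊆ {2, 3, 5}) (a : G) (h : SgnOK B0 a) (n : ℕ)
    (hn : PPA.Ok n) (hc : cl n = a) : Squarefree (Nn B0 * n) ∧ Sgn (Nn B0 * n) := by
  have h1 := ar0 B0 hB n.primeFactors (Cls_big n hn)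
  rw [Nn_primeFactors n hn.1, hc] at h1
  exact ⟨h1.1, h1.2.2.2.1.2 h⟩

open Classical in
/-- Lower bound for the number of `n` in one class with `PhiF n` of order at most `2`. -/
theorem clsb (B0 : Finset ℕ) (hB : B0 ⊆ {2, 3, 5}) (a : G) (h : SgnOK B0 a) (κ : ℝ)
    (hκ : ∀ a : G, Tendsto (fun x : ℕ => ((Nx a x).card : ℝ) / x) atTop (𝓝 κ))
    (ε : ℝ) (hε : 0 < ε) : ∃ x0 : ℕ, ∀ x ≥ x0,
    ((1 / 3 - 1 / 21 + 1 / 315 - 1 / 9765) * κ - ε) * x ≤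
      ((Nx a x).filter fun n => (X15B.PhiF (Nn B0 * n)).card ≤ 2).card := by
  set D : ℕ → ℕ → ℝ := fun k x => (∑ n ∈ Nx a x, ((TT k True (Nn B0 * n) : ℝ) - 2 ^ k)) / x
    with hD
  set H : ℕ → ℝ := fun x => (∑ n ∈ (Nx a x).filter fun n => Bad (Nn B0 * n),
      ((X15B.PhiF (Nn B0 * n)).card : ℝ) ^ 4) / x with hH
  set Q : ℕ → ℝ := fun x => ((Nx a x).card : ℝ) / x with hQ
  have hlim : Tendsto (fun x : ℕ => (1 / 3 - 1 / 21 + 1 / 315 - 1 / 9765) * Q x -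
      1 / 2 * D 1 x + 1 / 12 * D 2 x - 1 / 168 * D 3 x + 1 / 5040 * D 4 x -
      1 / 312480 * D 5 x - 3 * H x) atTop
      (𝓝 ((1 / 3 - 1 / 21 + 1 / 315 - 1 / 9765) * κ - 1 / 2 * 0 + 1 / 12 * 0 - 1 / 168 * 0 +
        1 / 5040 * 0 - 1 / 312480 * 0 - 3 * 0)) := by
    have e1 := (mean (k := 1) (by norm_num) B0 hB a h).const_mul (1 / 2 : ℝ)
    have e2 := (mean (k := 2) (by norm_num) B0 hB a h).const_mul (1 / 12 : ℝ)
    have e3 := (mean (k := 3) (by norm_num) B0 hB a h).const_mul (1 / 168 : ℝ)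
    have e4 := (mean (k := 4) (by norm_num) B0 hB a h).const_mul (1 / 5040 : ℝ)
    have e5 := (mean (k := 5) (by norm_num) B0 hB a h).const_mul (1 / 312480 : ℝ)
    have e6 := (hld B0 hB a h).const_mul (3 : ℝ)
    have e0 := (hκ a).const_mul ((1 / 3 - 1 / 21 + 1 / 315 - 1 / 9765 : ℝ))
    exact (((((e0.sub e1).add e2).sub e3).add e4).sub e5).sub e6
  have hlt : (1 / 3 - 1 / 21 + 1 / 315 - 1 / 9765) * κ - ε <
      (1 / 3 - 1 / 21 + 1 / 315 - 1 / 9765) * κ - 1 / 2 * 0 + 1 / 12 * 0 - 1 / 168 * 0 +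
        1 / 5040 * 0 - 1 / 312480 * 0 - 3 * 0 := by
    linarith
  obtain ⟨x1, hx1⟩ := Filter.eventually_atTop.1 (hlim.eventually (lt_mem_nhds hlt))
  refine ⟨max x1 1, fun x hx => ?_⟩
  have hx0 : (0 : ℝ) < x := by
    have : 1 ≤ x := le_trans (le_max_right _ _) hx
    exact_mod_cast this
  have h1 := hx1 x (le_trans (le_max_left _ _) hx)
  have h2 : ((1 / 3 - 1 / 21 + 1 / 315 - 1 / 9765) * Q x -
      1 / 2 * D 1 x + 1 / 12 * D 2 x - 1 / 168 * D 3 x + 1 / 5040 * D 4 x -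
      1 / 312480 * D 5 x - 3 * H x) * x =
      ∑ n ∈ Nx a x, hh (Nn B0 * n) - 3 * ∑ n ∈ (Nx a x).filter fun n => Bad (Nn B0 * n),
        ((X15B.PhiF (Nn B0 * n)).card : ℝ) ^ 4 := by
    have hDx : ∀ k, D k x * x = ∑ n ∈ Nx a x, (TT k True (Nn B0 * n) : ℝ) -
        2 ^ k * (Nx a x).card := by
      intro k
      rw [hD]
      simp only
      rw [div_mul_cancel₀ _ hx0.ne', Finset.sum_sub_distrib, Finset.sum_const, nsmul_eq_mul,
        mul_comm (2 ^ k : ℝ)]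
    have hHx : H x * x = ∑ n ∈ (Nx a x).filter fun n => Bad (Nn B0 * n),
        ((X15B.PhiF (Nn B0 * n)).card : ℝ) ^ 4 := by
      rw [hH]
      simp only
      rw [div_mul_cancel₀ _ hx0.ne']
    have hQx : Q x * x = (Nx a x).card := by
      rw [hQ]
      simp only
      rw [div_mul_cancel₀ _ hx0.ne']
    have hhs : ∑ n ∈ Nx a x, hh (Nn B0 * n) = (Nx a x).card -
        (∑ n ∈ Nx a x, (TT 1 True (Nn B0 * n) : ℝ)) / 2 +
        (∑ n ∈ Nx a x, (TT 2 True (Nn B0 * n) : ℝ)) / 12 -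
        (∑ n ∈ Nx a x, (TT 3 True (Nn B0 * n) : ℝ)) / 168 +
        (∑ n ∈ Nx a x, (TT 4 True (Nn B0 * n) : ℝ)) / 5040 -
        (∑ n ∈ Nx a x, (TT 5 True (Nn B0 * n) : ℝ)) / 312480 := by
      unfold hh
      simp only [Finset.sum_add_distrib, Finset.sum_sub_distrib, Finset.sum_div,
        Finset.sum_const, nsmul_eq_mul, mul_one]
    have h3 : ((1 / 3 - 1 / 21 + 1 / 315 - 1 / 9765) * Q x -
      1 / 2 * D 1 x + 1 / 12 * D 2 x - 1 / 168 * D 3 x + 1 / 5040 * D 4 x -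
      1 / 312480 * D 5 x - 3 * H x) * x = (1 / 3 - 1 / 21 + 1 / 315 - 1 / 9765) * (Q x * x) -
      1 / 2 * (D 1 x * x) + 1 / 12 * (D 2 x * x) - 1 / 168 * (D 3 x * x) +
      1 / 5040 * (D 4 x * x) - 1 / 312480 * (D 5 x * x) - 3 * (H x * x) := by ring
    rw [h3, hQx, hDx, hDx, hDx, hDx, hDx, hHx, hhs]
    ring
  have h4 : ∑ n ∈ Nx a x, hh (Nn B0 * n) ≤
      ((Nx a x).filter fun n => (X15B.PhiF (Nn B0 * n)).card ≤ 2).card +
        3 * ∑ n ∈ (Nx a x).filter fun n => Bad (Nn B0 * n),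
        ((X15B.PhiF (Nn B0 * n)).card : ℝ) ^ 4 := by
    have h5 : ∀ n ∈ Nx a x, hh (Nn B0 * n) ≤
        (if (X15B.PhiF (Nn B0 * n)).card ≤ 2 then 1 else 0) +
        (if Bad (Nn B0 * n) then 3 * ((X15B.PhiF (Nn B0 * n)).card : ℝ) ^ 4 else 0) := by
      intro n hn
      unfold Nx at hn
      rw [Finset.mem_filter] at hn
      obtain ⟨h6, h7⟩ := Cls_ok B0 hB a h n hn.2.1 hn.2.2
      exact ineq _ h6 h7
    refine (Finset.sum_le_sum h5).trans (le_of_eq ?_)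
    rw [Finset.sum_add_distrib, Finset.card_filter, Finset.sum_filter, Finset.mul_sum]
    push_cast
    congr 1
    refine Finset.sum_congr rfl fun n _ => ?_
    split <;> simp
  have h8 : ((1 / 3 - 1 / 21 + 1 / 315 - 1 / 9765) * κ - ε) * x ≤
      ((1 / 3 - 1 / 21 + 1 / 315 - 1 / 9765) * Q x -
      1 / 2 * D 1 x + 1 / 12 * D 2 x - 1 / 168 * D 3 x + 1 / 5040 * D 4 x -
      1 / 312480 * D 5 x - 3 * H x) * x := mul_le_mul_of_nonneg_right h1.le hx0.le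
  rw [h2] at h8
  linarith

end PP15
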