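import Pool.Agent.Lib.MP_87c685_nt_PP15.BadI

open Finset

namespace PP15

namespace Cnt

section Abstract

variable {V W : Type} [AddCommGroup V] [Module (ZMod 2) V] [AddCommGroup W] [Module (ZMod 2) W]

/-- The number of tuples whose images are linearly independent. -/
theorem cnt_lin [Finite V] (ρ : V →ₗ[ZMod 2] W) (hk : Nat.card (LinearMap.ker ρ) = 2) :
    ∃ r : ℕ, Nat.card V = 2 ^ (r + 1) ∧
      ∀ k : ℕ, (Nat.card {m : Fin k → V // LinearIndependent (ZMod 2) (fun i => ρ (m i))} : ℤ) =
        2 ^ k * ∏ i ∈ range k, ((2 : ℤ) ^ r - 2 ^ i) := by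
  classical
  set R := LinearMap.range ρ with hR
  have hfinR : Finite R := Finite.of_surjective _ ρ.surjective_rangeRestrict
  set r := Module.finrank (ZMod 2) R with hr
  have hcR : Nat.card R = 2 ^ r := by
    rw [Module.natCard_eq_pow_finrank (K := ZMod 2), Nat.card_zmod]
  obtain ⟨g, hg⟩ := ρ.rangeRestrict.exists_rightInverse_of_surjective
    (LinearMap.range_eq_top.mpr ρ.surjective_rangeRestrict)
  have hg' : ∀ s : R, ρ (g s) = s := fun s => by
    have := congrArg (fun f => (f s : W)) hg
    simpa using this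
  -- the splitting
  let e : V ≃ LinearMap.ker ρ × R :=
    { toFun := fun x => (⟨x - g ⟨ρ x, LinearMap.mem_range_self ρ x⟩, by
          rw [LinearMap.mem_ker, map_sub, hg', sub_self]⟩, ⟨ρ x, LinearMap.mem_range_self ρ x⟩)
      invFun := fun y => y.1 + g y.2
      left_inv := fun x => by simp
      right_inv := fun y => by
        obtain ⟨⟨c, hc⟩, s⟩ := y
        rw [LinearMap.mem_ker] at hc
        have h1 : ρ (c + g s) = s := by rw [map_add, hc, hg', zero_add]
        ext
        · simp [h1]
        · simp [h1] }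
  have he : ∀ x, ((e x).2 : W) = ρ x := fun x => rfl
  refine ⟨r, ?_, fun k => ?_⟩
  · rw [Nat.card_congr e, Nat.card_prod, hk, hcR]; ring
  · let E : {m : Fin k → V // LinearIndependent (ZMod 2) (fun i => ρ (m i))} ≃
        (Fin k → LinearMap.ker ρ) × {s : Fin k → R // LinearIndependent (ZMod 2) s} :=
      { toFun := fun m => (fun i => (e (m.1 i)).1, ⟨fun i => (e (m.1 i)).2, by
          have h := m.2
          exact LinearIndependent.of_comp R.subtype h⟩)
        invFun := fun y => ⟨fun i => e.symm (y.1 i, y.2.1 i), by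
          have h := y.2.2
          have h2 := h.map' R.subtype (Submodule.ker_subtype _)
          have h3 : (fun i => ρ (e.symm (y.1 i, y.2.1 i))) = R.subtype ∘ y.2.1 := by
            funext i
            rw [← he, Equiv.apply_symm_apply]
            rfl
          rw [h3]
          exact h2⟩
        left_inv := fun m => by
          ext i
          simp
        right_inv := fun y => by
          obtain ⟨c, s, hs⟩ := y
          simp }
    rw [Nat.card_congr E, Nat.card_prod, Nat.card_fun, hk, Nat.card_fin]
    rw [Nat.cast_mul]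
    have h2 : ∀ t u v : ℤ, u = v → t * u = t * v := fun t u v h => by rw [h]
    rw [Nat.cast_pow, Nat.cast_ofNat]
    apply h2
    · by_cases hkr : k ≤ r
      · have : Fintype R := Fintype.ofFinite R
        have h := card_linearIndependent (K := ZMod 2) (V := R) hkr
        rw [h, Nat.cast_prod, ← Fin.prod_univ_eq_prod_range (fun i => ((2 : ℤ) ^ r - 2 ^ i)) k]
        refine Finset.prod_congr rfl fun i _ => ?_
        rw [ZMod.card, Nat.cast_sub (Nat.pow_le_pow_right (by norm_num) (by omega))]
        simp [hr]
      · have h0 : IsEmpty {s : Fin k → R // LinearIndependent (ZMod 2) s} := by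
          constructor
          rintro ⟨s, hs⟩
          have := hs.fintype_card_le_finrank
          rw [Fintype.card_fin] at this
          exact hkr this
        rw [Nat.card_of_isEmpty, Nat.cast_zero]
        symm
        exact Finset.prod_eq_zero (i := r) (Finset.mem_range.mpr (by omega)) (by simp)

end Abstract

/-- A product of signs in terms of a sum in `F_2`. -/
theorem cnt_sign (f : ℕ → ℤ) (m : Finset ℕ) (hf : ∀ s ∈ m, f s = 1 ∨ f s = -1) :
    ∏ s ∈ m, f s = if (∑ s ∈ m, (if f s = 1 then (0 : ZMod 2) else 1)) = 0 then 1 else -1 := by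
  classical
  induction m using Finset.induction_on with
  | empty => simp
  | insert a s ha ih =>
    rw [Finset.prod_insert ha, Finset.sum_insert ha, ih fun t ht => hf t (mem_insert_of_mem ht)]
    generalize (∑ s ∈ s, (if f s = 1 then (0 : ZMod 2) else 1)) = t
    rcases hf a (mem_insert_self a s) with h | h
    · rw [h]; simp
    · rw [h]
      have : (if (-1 : ℤ) = 1 then (0 : ZMod 2) else 1) = 1 := by norm_num
      rw [this]
      revert t
      decide

theorem cnt_primeS (n s : ℕ) (hs : s ∈ X15B.SS n) : s.Prime := by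
  simp only [X15B.SS, mem_union, mem_filter] at hs
  rcases hs with (h | h) | h
  · exact Nat.prime_of_mem_primeFactors h.1
  · split_ifs at h
    · simp at h
    · rw [mem_singleton] at h
      rw [h]; norm_num
  · split_ifs at h
    · rw [mem_singleton] at h
      rw [h]; norm_num
    · simp at h

theorem cnt_primeT (n s : ℕ) (hs : s ∈ X15B.TT n) : s.Prime := by
  simp only [X15B.TT, mem_union, mem_filter] at hs
  rcases hs with h | h
  · exact Nat.prime_of_mem_primeFactors h.1
  · split_ifs at h
    · rw [mem_singleton] at h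
      rw [h]; norm_num
    · simp at h

theorem cnt_cop (n : ℕ) (hn : Squarefree n) (s : ℕ) (hd : s ∣ n) : Nat.Coprime (n / s) s := by
  apply Nat.coprime_of_squarefree_mul
  rw [Nat.div_mul_cancel hd]
  exact hn

theorem cnt_jprod (q : ℕ) (m : Finset ℕ) :
    ∏ s ∈ m, jacobiSym (s : ℤ) q = jacobiSym ((∏ s ∈ m, s : ℕ) : ℤ) q := by
  classical
  induction m using Finset.induction_on with
  | empty => simp
  | insert a s ha ih =>
    rw [Finset.prod_insert ha, Finset.prod_insert ha, ih, Nat.cast_mul, jacobiSym.mul_left]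

/-- The symbols are signs. -/
theorem cnt_ep (n : ℕ) (hn : Squarefree n) (q s : ℕ) (hq : q ∈ X15B.TT n) (hs : s ∈ X15B.SS n) :
    X15B.ep n q s = 1 ∨ X15B.ep n q s = -1 := by
  have hsp : s.Prime := cnt_primeS n s hs
  have hqp : q.Prime := cnt_primeT n q hq
  rw [X15B.ep]
  split_ifs with h
  · subst h
    have hd : s ∣ n := by
      simp only [X15B.TT, mem_union, mem_filter] at hq
      rcases hq with h | h
      · exact Nat.dvd_of_mem_primeFactors h.1
      · split_ifs at h with h3
        · rw [mem_singleton] at h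
          subst h
          simp only [X15B.SS, mem_union, mem_filter] at hs
          rcases hs with (h | h) | h
          · exact Nat.dvd_of_mem_primeFactors h.1
          · split_ifs at h <;> simp at h
          · split_ifs at h
            simp at h
        · simp at h
    exact jacobiSym.eq_one_or_neg_one (by
      rw [Int.gcd_natCast_natCast]
      exact cnt_cop n hn s hd)
  · apply jacobiSym.eq_one_or_neg_one
    rw [Int.gcd_natCast_natCast]
    exact (Nat.coprime_primes hsp hqp).mpr h

/-- All primes dividing `n` form an element of `PhiF n`. -/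
theorem cnt_full (n : ℕ) (hn : Squarefree n) : n.primeFactors ∈ X15B.PhiF n := by
  rw [X15B.PhiF, mem_filter, mem_powerset]
  constructor
  · intro p hp
    simp only [X15B.SS, mem_union, mem_filter]
    left
    by_cases h2 : p = 2
    · right
      subst h2
      have := Nat.dvd_of_mem_primeFactors hp
      rw [if_neg (by omega)]
      exact mem_singleton_self 2
    · left; exact ⟨hp, h2⟩
  · intro q hq
    by_cases hqn : q ∈ n.primeFactors
    · rw [← Finset.mul_prod_erase _ _ hqn]
      have h1 : ∏ s ∈ n.primeFactors.erase q, X15B.ep n q s =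
          jacobiSym ((n / q : ℕ) : ℤ) q := by
        have h2 : ∏ s ∈ n.primeFactors.erase q, s = n / q := by
          have h3 := Finset.mul_prod_erase n.primeFactors (fun s => s) hqn
          rw [Nat.prod_primeFactors_of_squarefree hn] at h3
          have hq0 : 0 < q := (Nat.prime_of_mem_primeFactors hqn).pos
          exact (Nat.div_eq_of_eq_mul_right hq0 h3.symm).symm
        rw [← h2, ← cnt_jprod]
        refine Finset.prod_congr rfl fun s hs => ?_
        rw [X15B.ep, if_neg (Finset.ne_of_mem_erase hs)]
      rw [h1, X15B.ep, if_pos rfl]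
      have h4 : jacobiSym ((n / q : ℕ) : ℤ) q = 1 ∨ jacobiSym ((n / q : ℕ) : ℤ) q = -1 := by
        apply jacobiSym.eq_one_or_neg_one
        rw [Int.gcd_natCast_natCast]
        exact cnt_cop n hn q (Nat.dvd_of_mem_primeFactors hqn)
      rcases h4 with h4 | h4 <;> rw [h4] <;> norm_num
    · simp only [X15B.TT, mem_union, mem_filter] at hq
      rcases hq with h | h
      · exact absurd h.1 hqn
      · split_ifs at h with h3
        · rw [mem_singleton] at h
          subst h
          have h1 : ∏ s ∈ n.primeFactors, X15B.ep n 3 s =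
              ∏ s ∈ n.primeFactors, jacobiSym (s : ℤ) 3 := by
            refine Finset.prod_congr rfl fun s hs => ?_
            rw [X15B.ep, if_neg]
            rintro rfl
            exact hqn hs
          rw [h1, cnt_jprod, Nat.prod_primeFactors_of_squarefree hn, jacobiSym.mod_left]
          have h5 : ((n : ℤ) % ((3 : ℕ) : ℤ)) = 1 := by omega
          rw [h5]
          norm_num
        · simp at h

theorem cnt_bad_one : Bad 1 := by
  refine ⟨{2, 5}, ?_, Or.inl ?_, ?_, ?_⟩
  · simp only [X15B.PhiF, mem_filter, mem_powerset]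
    constructor
    · intro p hp
      simp only [X15B.SS, mem_union, mem_filter]
      rw [mem_insert, mem_singleton] at hp
      rcases hp with h | h
      · left; right; rw [h]; simp
      · right; rw [h]; simp
    · intro q hq
      simp only [X15B.TT, mem_union, mem_filter] at hq
      rcases hq with h | h
      · simp at h
      · rw [if_pos (by norm_num), mem_singleton] at h
        subst h
        rw [Finset.prod_insert (by norm_num), Finset.prod_singleton]
        simp only [X15B.ep]
        norm_num
  · simp [bigP]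
  · simp
  · simp

/-- The symbols in `F_2`. -/
noncomputable def ev (n q s : ℕ) : ZMod 2 := if X15B.ep n q s = 1 then 0 else 1

/-- `PhiF n` as a vector space. -/
noncomputable def Pm (n : ℕ) : Submodule (ZMod 2) (ℕ → ZMod 2) where
  carrier := {x | (∀ s, s ∉ X15B.SS n → x s = 0) ∧
    ∀ q ∈ X15B.TT n, ∑ s ∈ X15B.SS n, x s * ev n q s = 0}
  add_mem' := by
    rintro x y ⟨h1, h2⟩ ⟨h3, h4⟩
    refine ⟨fun s hs => by simp [h1 s hs, h3 s hs], fun q hq => ?_⟩
    simp [add_mul, Finset.sum_add_distrib, h2 q hq, h4 q hq]
  zero_mem' := ⟨fun s _ => rfl, fun q _ => by simp⟩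
  smul_mem' := by
    rintro c x ⟨h1, h2⟩
    refine ⟨fun s hs => by simp [h1 s hs], fun q hq => ?_⟩
    simp [mul_assoc, ← Finset.mul_sum, h2 q hq]

/-- The indicator function of a set. -/
noncomputable def ind (m : Finset ℕ) : ℕ → ZMod 2 := fun s => if s ∈ m then 1 else 0

/-- The set of an element of `Pm n`. -/
noncomputable def sp (n : ℕ) (x : ℕ → ZMod 2) : Finset ℕ := (X15B.SS n).filter fun s => x s = 1

theorem zmod2_cases (t : ZMod 2) : t = 0 ∨ t = 1 := by revert t; decide

theorem sp_ind (n : ℕ) (m : Finset ℕ) (hm : m ⊆ X15B.SS n) : sp n (ind m) = m := by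
  ext s
  simp only [sp, ind, mem_filter]
  constructor
  · rintro ⟨_, h⟩
    by_contra hs
    simp [hs] at h
  · intro h
    exact ⟨hm h, by simp [h]⟩

theorem ind_sp (n : ℕ) (x : ℕ → ZMod 2) (hx : ∀ s, s ∉ X15B.SS n → x s = 0) :
    ind (sp n x) = x := by
  funext s
  simp only [sp, ind, mem_filter]
  by_cases hs : s ∈ X15B.SS n
  · rcases zmod2_cases (x s) with h | h <;> simp [h, hs]
  · simp [hs, hx s hs]

theorem mem_iff (n : ℕ) (hn : Squarefree n) (m : Finset ℕ) (hm : m ⊆ X15B.SS n) :
    ind m ∈ Pm n ↔ m ∈ X15B.PhiF n := by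
  have h1 : ∀ q ∈ X15B.TT n, (∑ s ∈ X15B.SS n, ind m s * ev n q s = 0 ↔
      ∏ s ∈ m, X15B.ep n q s = 1) := by
    intro q hq
    rw [cnt_sign (X15B.ep n q) m fun s hs => cnt_ep n hn q s hq (hm hs)]
    have h2 : ∑ s ∈ X15B.SS n, ind m s * ev n q s =
        ∑ s ∈ m, (if X15B.ep n q s = 1 then (0 : ZMod 2) else 1) := by
      rw [← Finset.sum_subset hm]
      · refine Finset.sum_congr rfl fun s hs => ?_
        simp [ind, hs, ev]
      · intro s _ hs
        simp [ind, hs]
    rw [h2]
    generalize (∑ s ∈ m, (if X15B.ep n q s = 1 then (0 : ZMod 2) else 1)) = t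
    by_cases ht : t = 0
    · simp [ht]
    · rw [if_neg ht]
      constructor
      · intro h; exact absurd h ht
      · intro h; norm_num at h
  constructor
  · rintro ⟨_, h⟩
    rw [X15B.PhiF, mem_filter, mem_powerset]
    exact ⟨hm, fun q hq => (h1 q hq).mp (h q hq)⟩
  · intro h
    rw [X15B.PhiF, mem_filter] at h
    refine ⟨fun s hs => ?_, fun q hq => (h1 q hq).mpr (h.2 q hq)⟩
    have : s ∉ m := fun h => hs (hm h)
    simp [ind, this]

theorem sub_SS (n : ℕ) (m : Finset ℕ) (hm : m ∈ X15B.PhiF n) : m ⊆ X15B.SS n := by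
  rw [X15B.PhiF, mem_filter, mem_powerset] at hm
  exact hm.1

theorem sp_mem (n : ℕ) (hn : Squarefree n) (x : ℕ → ZMod 2) (hx : x ∈ Pm n) :
    sp n x ∈ X15B.PhiF n := by
  rw [← mem_iff n hn _ (show sp n x ⊆ X15B.SS n from Finset.filter_subset _ _), ind_sp n x hx.1]
  exact hx

/-- `Pm n` and `PhiF n` are in bijection. -/
noncomputable def eqP (n : ℕ) (hn : Squarefree n) : Pm n ≃ {m // m ∈ X15B.PhiF n} where
  toFun := fun x => ⟨sp n x.1, sp_mem n hn x.1 x.2⟩
  invFun := fun m => ⟨ind m.1, (mem_iff n hn m.1 (sub_SS n m.1 m.2)).mpr m.2⟩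
  left_inv := fun x => Subtype.ext (ind_sp n x.1 x.2.1)
  right_inv := fun m => Subtype.ext (sp_ind n m.1 (sub_SS n m.1 m.2))

open Classical in
/-- Differences on `M`. -/
noncomputable def dif (M : Finset ℕ) : (ℕ → ZMod 2) →ₗ[ZMod 2] (ℕ × ℕ → ZMod 2) where
  toFun := fun x z => if z.1 ∈ M ∧ z.2 ∈ M then x z.1 + x z.2 else 0
  map_add' := fun x y => by
    funext z
    by_cases h : z.1 ∈ M ∧ z.2 ∈ M
    · simp only [h, and_self, if_true, Pi.add_apply]; ring
    · simp only [h, if_false, Pi.add_apply, add_zero]
  map_smul' := fun c x => by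
    funext z
    by_cases h : z.1 ∈ M ∧ z.2 ∈ M
    · simp only [h, and_self, if_true, Pi.smul_apply, smul_eq_mul, RingHom.id_apply]; ring
    · simp only [h, if_false, Pi.smul_apply, smul_eq_mul, mul_zero]

theorem add_eq_zero2 (a b : ZMod 2) : a + b = 0 ↔ a = b := by revert a b; decide

theorem dif_eq_zero (M : Finset ℕ) (x : ℕ → ZMod 2) :
    dif M x = 0 ↔ ∀ p ∈ M, ∀ q ∈ M, x p = x q := by
  constructor
  · intro h p hp q hq
    have := congrFun h (p, q)
    simp only [dif, LinearMap.coe_mk, AddHom.coe_mk, hp, hq, and_self, if_true,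
      Pi.zero_apply] at this
    exact (add_eq_zero2 _ _).mp this
  · intro h
    funext z
    simp only [dif, LinearMap.coe_mk, AddHom.coe_mk, Pi.zero_apply]
    split_ifs with hz
    · exact (add_eq_zero2 _ _).mpr (h _ hz.1 _ hz.2)
    · rfl

theorem spn_iff {k : ℕ} (M : Finset ℕ) (x : Fin k → ℕ → ZMod 2) (m : Fin k → Finset ℕ)
    (hxm : ∀ i, ∀ p ∈ M, x i p = ind (m i) p) :
    SpnT M m ↔ LinearIndependent (ZMod 2) (fun i => dif M (x i)) := by
  classical
  rw [Fintype.linearIndependent_iff]
  have key : ∀ a : Fin k → ZMod 2, (∑ i, a i • dif M (x i) = 0 ↔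
      ∀ p ∈ M, ∀ q ∈ M, (∑ i, if p ∈ m i then a i else 0) = ∑ i, if q ∈ m i then a i else 0) := by
    intro a
    have h1 : ∑ i, a i • dif M (x i) = dif M (∑ i, a i • x i) := by
      rw [map_sum]
      simp
    rw [h1, dif_eq_zero]
    have h2 : ∀ p ∈ M, (∑ i, a i • x i) p = ∑ i, if p ∈ m i then a i else 0 := by
      intro p hp
      rw [Finset.sum_apply]
      refine Finset.sum_congr rfl fun i _ => ?_
      rw [Pi.smul_apply, hxm i p hp, smul_eq_mul, ind]
      split_ifs <;> simp
    constructor
    · intro h p hp q hq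
      rw [← h2 p hp, ← h2 q hq]
      exact h p hp q hq
    · intro h p hp q hq
      rw [h2 p hp, h2 q hq]
      exact h p hp q hq
  constructor
  · intro h a ha
    by_contra hne
    have ha0 : a ≠ 0 := by
      rintro rfl
      exact hne fun i => rfl
    obtain ⟨p, hp, q, hq, hpq⟩ := h a ha0
    exact hpq ((key a).mp ha p hp q hq)
  · intro h a ha
    by_contra hne
    push Not at hne
    have := h a ((key a).mpr hne)
    exact ha (funext this)

end Cnt

open Cnt in
/-- The number of spanning tuples for good `n`. -/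
theorem cnt (n : ℕ) (hn : Squarefree n) (hs : Sgn n) (hb : ¬ Bad n) :
    ∃ r : ℕ, (X15B.PhiF n).card = 2 ^ (r + 1) ∧
      ∀ k : ℕ, 1 ≤ k → (TT k True n : ℤ) = 2 ^ k * ∏ i ∈ range k, ((2 : ℤ) ^ r - 2 ^ i) := by
  classical
  have hn1 : n ≠ 1 := by
    rintro rfl
    exact hb cnt_bad_one
  have hn0 : n ≠ 0 := hn.ne_zero
  have hpf : n.primeFactors ≠ ∅ := by
    intro h
    rw [Nat.primeFactors_eq_empty] at h
    omega
  have : Finite (Pm n) := Finite.of_equiv _ (eqP n hn).symm
  set ρ : Pm n →ₗ[ZMod 2] (ℕ × ℕ → ZMod 2) := (dif (bigP n)).comp (Pm n).subtype with hρ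
  have hbS : bigP n ⊆ X15B.SS n := by
    intro p hp
    rw [bigP, mem_filter] at hp
    have : p ≠ 2 := by omega
    simp only [X15B.SS, mem_union, mem_filter]
    exact Or.inl (Or.inl ⟨hp.1, this⟩)
  -- the kernel
  have hk : Nat.card (LinearMap.ker ρ) = 2 := by
    have hmem : ∀ x : Pm n, x ∈ LinearMap.ker ρ ↔
        (x.1 = 0 ∨ x.1 = ind n.primeFactors) := by
      intro x
      rw [LinearMap.mem_ker, hρ, LinearMap.comp_apply, Submodule.subtype_apply, dif_eq_zero]
      constructor
      · intro h
        have hx := x.2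
        by_contra hne
        push Not at hne
        apply hb
        refine ⟨sp n x.1, sp_mem n hn x.1 hx, ?_, ?_, ?_⟩
        · rcases (bigP n).eq_empty_or_nonempty with hM | ⟨p, hp⟩
          · left; rw [hM, Finset.inter_empty]
          · rcases zmod2_cases (x.1 p) with h0 | h1
            · left
              ext q
              simp only [sp, mem_inter, mem_filter, Finset.notMem_empty, iff_false, not_and]
              rintro ⟨_, h2⟩ hq
              rw [h q hq p hp, h0] at h2
              exact zero_ne_one h2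
            · right
              intro q hq
              rw [sp, mem_filter]
              exact ⟨hbS hq, by rw [h q hq p hp, h1]⟩
        · intro h0
          apply hne.1
          rw [← ind_sp n x.1 hx.1, h0]
          funext s
          simp [ind]
        · intro h0
          apply hne.2
          rw [← h0, ind_sp n x.1 hx.1]
      · rintro (h | h)
        · intro p _ q _
          rw [h]
          rfl
        · intro p hp q hq
          rw [h]
          rw [bigP, mem_filter] at hp hq
          simp [ind, hp.1, hq.1]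
    have hI : ind n.primeFactors ∈ Pm n :=
      (mem_iff n hn _ (sub_SS n _ (cnt_full n hn))).mpr (cnt_full n hn)
    have h0I : (0 : ℕ → ZMod 2) ≠ ind n.primeFactors := by
      intro h
      obtain ⟨p, hp⟩ := Finset.nonempty_iff_ne_empty.mpr hpf
      have := congrFun h p
      simp only [ind, hp, if_true, Pi.zero_apply] at this
      exact zero_ne_one this
    rw [Nat.card_eq_two_iff]
    refine ⟨⟨0, (hmem 0).mpr (Or.inl rfl)⟩, ⟨⟨_, hI⟩, (hmem _).mpr (Or.inr rfl)⟩, ?_, ?_⟩
    · intro h
      apply h0I
      have := congrArg (fun z : LinearMap.ker ρ => z.1.1) h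
      exact this
    · rw [Set.eq_univ_iff_forall]
      intro z
      rcases (hmem z.1).mp z.2 with h | h
      · left
        exact Subtype.ext (Subtype.ext h)
      · right
        exact Subtype.ext (Subtype.ext h)
  obtain ⟨r, hr1, hr2⟩ := cnt_lin ρ hk
  refine ⟨r, ?_, fun k _ => ?_⟩
  · rw [← hr1, Nat.card_congr (eqP n hn), Nat.card_eq_finsetCard]
  · rw [← hr2 k, TT, ← Nat.card_eq_finsetCard]
    congr 1
    symm
    refine Nat.card_congr ?_
    refine
      { toFun := fun x => ⟨fun i => sp n (x.1 i).1, ?_⟩
        invFun := fun m => ⟨fun i => ⟨ind (m.1 i), ?_⟩, ?_⟩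
        left_inv := ?_
        right_inv := ?_ }
    · simp only [mem_filter, Fintype.mem_piFinset]
      refine ⟨fun i => sp_mem n hn _ (x.1 i).2, fun _ => ?_⟩
      rw [spn_iff (bigP n) (fun i => (x.1 i).1)]
      · exact x.2
      · intro i p _
        rw [ind_sp n _ (x.1 i).2.1]
    · have h := m.2
      simp only [mem_filter, Fintype.mem_piFinset] at h
      exact (mem_iff n hn _ (sub_SS n _ (h.1 i))).mpr (h.1 i)
    · have h := m.2
      simp only [mem_filter, Fintype.mem_piFinset] at h
      exact (spn_iff (bigP n) (fun i => ind (m.1 i)) m.1 fun _ _ _ => rfl).mp (h.2 trivial)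
    · intro x
      refine Subtype.ext (funext fun i => Subtype.ext ?_)
      exact ind_sp n _ (x.1 i).2.1
    · intro m
      have h := m.2
      simp only [mem_filter, Fintype.mem_piFinset] at h
      refine Subtype.ext (funext fun i => ?_)
      exact sp_ind n _ (sub_SS n _ (h.1 i))

end PP15
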