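import Pool.Agent.Lib.MP_87c685_nt_PP15.Cnv
import Pool.Agent.Lib.MP_87c685_nt_PP15.MF

open Finset

namespace PP15

namespace Cnv2

theorem big {n : ℕ} (hn : PPA.Ok n) : ∀ p ∈ n.primeFactors, p.Prime ∧ 7 ≤ p := by
  intro p hp
  have hpp := Nat.prime_of_mem_primeFactors hp
  have hd := Nat.dvd_of_mem_primeFactors hp
  refine ⟨hpp, ?_⟩
  have hc : p.Coprime 30 := Nat.Coprime.coprime_dvd_left hd hn.2
  have h2 : p ≠ 2 := by rintro rfl; revert hc; decide
  have h3 : p ≠ 3 := by rintro rfl; revert hc; decide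
  have h5 : p ≠ 5 := by rintro rfl; revert hc; decide
  have h4 : p ≠ 4 := by rintro rfl; revert hpp; decide
  have h6 : p ≠ 6 := by rintro rfl; revert hpp; decide
  have := hpp.two_le
  omega

theorem prod_eq {k : ℕ} {n : ℕ} (hn : PPA.Ok n) {A : I k → Finset ℕ}
    (hA : A ∈ Fam k n.primeFactors) : ∏ v, Nn (A v) = n := by
  classical
  unfold Fam at hA
  rw [Finset.mem_filter] at hA
  obtain ⟨_, hdis, hun⟩ := hA
  have h1 : ∏ v, Nn (A v) = ∏ p ∈ univ.biUnion A, p := by
    rw [Finset.prod_biUnion (fun u _ v _ huv => hdis u v huv)]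
    rfl
  have h2 : univ.biUnion A = n.primeFactors := by
    rw [← hun]
  rw [h1, h2]
  exact Nn_primeFactors n hn.1

end Cnv2

open Classical in
/-- Families and factorisations. -/
theorem fam_sum {k : ℕ} (n : ℕ) (hn : PPA.Ok n)
    (f : (Fin 4 → ZMod 2) → (I k → G) → Finset (I k) → ℝ) :
    ∑ A ∈ Fam k n.primeFactors, f (cl n) (clA A) (supp A) * S A =
      ∑ D ∈ PPA.DD (I k) n, f (cl n) (fun v => cv (PPA.sg (D v))) (PPA.supp D) *
        (JJ (ph k) D : ℝ) := by
  have hP := Cnv2.big hn
  have hn0 : n ≠ 0 := hn.1.ne_zero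
  refine Finset.sum_nbij' (fun A v => Nn (A v)) (fun D v => (D v).primeFactors) ?_ ?_ ?_ ?_ ?_
  · intro A hA
    have hprod := Cnv2.prod_eq hn hA
    unfold PPA.DD
    rw [Finset.mem_filter, Fintype.mem_piFinset]
    refine ⟨fun v => ?_, hprod⟩
    rw [Nat.mem_divisors]
    exact ⟨hprod ▸ Finset.dvd_prod_of_mem (fun v => Nn (A v)) (Finset.mem_univ v), hn0⟩
  · intro D hD
    unfold PPA.DD at hD
    rw [Finset.mem_filter, Fintype.mem_piFinset] at hD
    obtain ⟨hdiv, hprod⟩ := hD
    unfold Fam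
    rw [Finset.mem_filter, Fintype.mem_piFinset]
    refine ⟨fun v => ?_, fun u v huv => ?_, ?_⟩
    · rw [Finset.mem_powerset]
      exact Nat.primeFactors_mono (Nat.dvd_of_mem_divisors (hdiv v)) hn0
    · have h1 : D u * D v ∣ n := by
        rw [← hprod, ← Finset.mul_prod_erase _ _ (Finset.mem_univ u)]
        exact mul_dvd_mul_left _ (Finset.dvd_prod_of_mem D
          (Finset.mem_erase.mpr ⟨huv.symm, Finset.mem_univ v⟩))
      exact (Nat.coprime_of_squarefree_mul (hn.1.squarefree_of_dvd h1)).disjoint_primeFactors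
    · ext p
      rw [Finset.mem_biUnion]
      constructor
      · rintro ⟨v, -, hv⟩
        exact Nat.primeFactors_mono (Nat.dvd_of_mem_divisors (hdiv v)) hn0 hv
      · intro hp
        have hpp := Nat.prime_of_mem_primeFactors hp
        have hd := Nat.dvd_of_mem_primeFactors hp
        rw [← hprod] at hd
        obtain ⟨v, hv, hpv⟩ := (Prime.dvd_finsetProd_iff hpp.prime _).mp hd
        refine ⟨v, hv, ?_⟩
        rw [Nat.mem_primeFactors]
        refine ⟨hpp, hpv, ?_⟩
        intro h0
        exact hn0 (by rw [← hprod]; exact Finset.prod_eq_zero hv h0)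
  · intro A hA
    unfold Fam at hA
    rw [Finset.mem_filter, Fintype.mem_piFinset] at hA
    funext v
    exact (Nn_facts (A v) (fun p hp => hP p (Finset.mem_powerset.mp (hA.1 v) hp))).2.2.2.2
  · intro D hD
    unfold PPA.DD at hD
    rw [Finset.mem_filter, Fintype.mem_piFinset] at hD
    funext v
    exact Nn_primeFactors (D v)
      (hn.1.squarefree_of_dvd (Nat.dvd_of_mem_divisors (hD.1 v)))
  · intro A hA
    unfold Fam at hA
    rw [Finset.mem_filter, Fintype.mem_piFinset] at hA
    have hA7 : ∀ v, ∀ p ∈ A v, p.Prime ∧ 7 ≤ p :=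
      fun v p hp => hP p (Finset.mem_powerset.mp (hA.1 v) hp)
    have e1 : clA A = fun v => cv (PPA.sg (Nn (A v))) := by
      funext v
      exact (cv_sg (Nn (A v)) (Nn_facts (A v) (hA7 v)).2.1).symm
    have e2 : supp A = PPA.supp (fun v => Nn (A v)) := by
      ext v
      unfold supp PPA.supp
      rw [Finset.mem_filter, Finset.mem_filter]
      constructor
      · rintro ⟨h, h2⟩
        exact ⟨h, (one_lt_Nn (A v) (hA7 v) h2).ne'⟩
      · rintro ⟨h, h2⟩
        refine ⟨h, ?_⟩
        by_contra h3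
        rw [Finset.not_nonempty_iff_eq_empty] at h3
        apply h2
        change Nn (A v) = 1
        rw [h3]
        exact Nn_empty
    have e3 : S A = (JJ (ph k) (fun v => Nn (A v)) : ℝ) := by
      unfold S JJ
      push_cast
      rw [Finset.prod_comm]
      refine Finset.prod_congr rfl (fun v _ => Finset.prod_congr rfl (fun w _ => ?_))
      unfold ph jac
      split
      · rw [pow_one]
      · rw [pow_zero]
    rw [← e1, ← e2, ← e3]

end PP15
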