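import Pool.Agent.Lib.MP_87c685_nt_PP15.Ar1

open Finset

namespace PP15

private lemma ok_pf (m : ℕ) (hm : PPA.Ok m) : ∀ p ∈ m.primeFactors, p.Prime ∧ 7 ≤ p := by
  intro p hp
  have hp1 := Nat.prime_of_mem_primeFactors hp
  have hp2 := Nat.dvd_of_mem_primeFactors hp
  refine ⟨hp1, ?_⟩
  have hc : p.Coprime 30 := Nat.Coprime.coprime_dvd_left hp2 hm.2
  have h2 := hp1.two_le
  clear hp hp2
  by_contra h
  have h7 : p < 7 := by omega
  clear h
  interval_cases p <;> revert hp1 hc <;> decide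

private lemma Nn_pos (B0 : Finset ℕ) (hB : B0 ⊆ {2, 3, 5}) : 0 < Nn B0 := by
  unfold Nn
  refine prod_pos fun p hp => ?_
  have h := hB hp
  simp only [mem_insert, mem_singleton] at h
  omega

private lemma kap_pos (B0 : Finset ℕ) (hB : B0 ⊆ {2, 3, 5}) (a : G) : 0 < kap B0 a := by
  have h := Nn_pos B0 hB
  unfold kap
  split_ifs <;> omega

private lemma le_disc (n : ℕ) : n ≤ disc n := by
  unfold disc
  split_ifs <;> omega

private lemma small_sub (n : ℕ) : (n.primeFactors.filter fun p => p < 7) ⊆ {2, 3, 5} := by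
  intro p hp
  rw [mem_filter] at hp
  have hp1 := Nat.prime_of_mem_primeFactors hp.1
  have hp7 := hp.2
  have hp2 := hp1.two_le
  clear hp
  interval_cases p <;> revert hp1 <;> decide

open Classical in
/-- Decomposition of the squarefree numbers into classes. -/
theorem dec (Q : ℕ → Prop) (x : ℕ) :
    ((Icc 1 x).filter fun n => Squarefree n ∧ disc n ≤ x ∧ Q n).card =
      ∑ B0 ∈ ({2, 3, 5} : Finset ℕ).powerset, ∑ a : G,
        ((Nx a (x / kap B0 a)).filter fun n => Q (Nn B0 * n)).card := by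
  generalize hS : ({2, 3, 5} : Finset ℕ) = S
  rw [← sum_product' S.powerset (univ : Finset G)
    (fun B0 a => ((Nx a (x / kap B0 a)).filter fun n => Q (Nn B0 * n)).card), ← card_sigma]
  symm
  refine card_bij (fun p _ => Nn p.1.1 * p.2) ?_ ?_ ?_
  · intro p hp
    rw [mem_sigma, mem_product, mem_powerset, mem_filter, Nx, mem_filter, mem_range] at hp
    obtain ⟨⟨h1, -⟩, ⟨h4', h2, h3⟩, h5⟩ := hp
    rw [← hS] at h1
    have h4 : p.2 ≤ x / kap p.1.1 p.1.2 := by omega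
    have hM := ok_pf p.2 h2
    have hN := Nn_primeFactors p.2 h2.1
    obtain ⟨a1, a2, a3, a4, a5, a6, a7⟩ := ar0 p.1.1 h1 p.2.primeFactors hM
    rw [hN] at a1 a5
    rw [h3] at a5
    have hd : disc (Nn p.1.1 * p.2) ≤ x := by
      rw [a5]
      rw [Nat.le_div_iff_mul_le (kap_pos _ h1 _)] at h4
      rw [mul_comm]
      exact h4
    rw [mem_filter, mem_Icc]
    refine ⟨⟨Nat.pos_of_ne_zero a1.ne_zero, (le_disc _).trans hd⟩, a1, hd, h5⟩
  · intro p hp q hq hpq
    rw [mem_sigma, mem_product, mem_powerset, mem_filter, Nx, mem_filter, mem_range] at hp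
    obtain ⟨⟨h1, -⟩, ⟨h4', h2, h3⟩, h5⟩ := hp
    rw [← hS] at h1
    have h4 : p.2 ≤ x / kap p.1.1 p.1.2 := by omega
    rw [mem_sigma, mem_product, mem_powerset, mem_filter, Nx, mem_filter, mem_range] at hq
    obtain ⟨⟨k1, -⟩, ⟨k4', k2, k3⟩, k5⟩ := hq
    rw [← hS] at k1
    have hM := ok_pf p.2 h2
    have hN := Nn_primeFactors p.2 h2.1
    obtain ⟨a1, a2, -⟩ := ar0 p.1.1 h1 p.2.primeFactors hM
    have kM := ok_pf q.2 k2
    have kN := Nn_primeFactors q.2 k2.1
    obtain ⟨b1, b2, -⟩ := ar0 q.1.1 k1 q.2.primeFactors kM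
    have hpq' : Nn p.1.1 * p.2 = Nn q.1.1 * q.2 := hpq
    rw [hN] at a2
    rw [kN] at b2
    have hu : p.1.1 ∪ p.2.primeFactors = q.1.1 ∪ q.2.primeFactors := by
      rw [← a2, ← b2, hpq']
    have e1 : p.1.1 = q.1.1 := by
      ext r
      have hr : r ∈ p.1.1 ∪ p.2.primeFactors ↔ r ∈ q.1.1 ∪ q.2.primeFactors := by rw [hu]
      rw [mem_union, mem_union] at hr
      have s1 : r ∈ p.1.1 → r < 7 := by
        intro h
        have := h1 h
        simp only [mem_insert, mem_singleton] at this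
        omega
      have s2 : r ∈ q.1.1 → r < 7 := by
        intro h
        have := k1 h
        simp only [mem_insert, mem_singleton] at this
        omega
      constructor
      · intro h
        rcases hr.mp (Or.inl h) with h' | h'
        · exact h'
        · have := (kM r h').2
          have := s1 h
          omega
      · intro h
        rcases hr.mpr (Or.inl h) with h' | h'
        · exact h'
        · have := (hM r h').2
          have := s2 h
          omega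
    have e2 : p.2 = q.2 := by
      rw [e1] at hpq'
      exact Nat.eq_of_mul_eq_mul_left (Nn_pos _ k1) hpq'
    have e3 : p.1.2 = q.1.2 := by rw [← h3, ← k3, e2]
    obtain ⟨⟨p1, p2⟩, p3⟩ := p
    obtain ⟨⟨q1, q2⟩, q3⟩ := q
    simp only at e1 e2 e3
    subst e1 e2 e3
    rfl
  · intro n hn
    rw [mem_filter, mem_Icc] at hn
    obtain ⟨⟨n1, n2⟩, n3, n4, n5⟩ := hn
    set B0 : Finset ℕ := n.primeFactors.filter fun p => p < 7 with hB0
    set M : Finset ℕ := n.primeFactors.filter fun p => ¬ p < 7 with hM0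
    have hB : B0 ⊆ {2, 3, 5} := small_sub n
    have hM : ∀ p ∈ M, p.Prime ∧ 7 ≤ p := by
      intro p hp
      rw [hM0, mem_filter] at hp
      exact ⟨Nat.prime_of_mem_primeFactors hp.1, by omega⟩
    have hsplit : Nn B0 * Nn M = n := by
      have h1 : Nn B0 * Nn M = Nn n.primeFactors := prod_filter_mul_prod_filter_not _ _ _
      rw [h1, Nn_primeFactors n n3]
    obtain ⟨a1, a2, a3, a4, a5, a6, a7⟩ := ar0 B0 hB M hM
    obtain ⟨f1, f2, f3, f4, f5⟩ := Nn_facts M hM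
    refine ⟨⟨(B0, cl (Nn M)), Nn M⟩, ?_, hsplit⟩
    rw [mem_sigma, mem_product, mem_powerset, mem_filter, Nx, mem_filter, mem_range]
    refine ⟨⟨hS ▸ hB, mem_univ _⟩, ⟨?_, ⟨f1, f2⟩, rfl⟩, ?_⟩
    · rw [Nat.lt_succ_iff, Nat.le_div_iff_mul_le (kap_pos _ hB _), mul_comm, ← a5, hsplit]
      exact n4
    · have : Q n := n5
      rw [← hsplit] at this
      exact this

private lemma kap_dvd : ∀ B0 ∈ ({2, 3, 5} : Finset ℕ).powerset, ∀ a : G, kap B0 a ∣ 120 := by
  decide +kernel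

private lemma wts_nat : 48 * (∑ B0 ∈ ({2, 3, 5} : Finset ℕ).powerset, ∑ a : G,
      (if SgnOK B0 a then 120 / kap B0 a else 0)) =
    25 * ∑ B0 ∈ ({2, 3, 5} : Finset ℕ).powerset, ∑ a : G, 120 / kap B0 a := by
  decide +kernel

private lemma kap_inv (B0 : Finset ℕ) (hB : B0 ∈ ({2, 3, 5} : Finset ℕ).powerset) (a : G) :
    (kap B0 a : ℝ)⁻¹ = ((120 / kap B0 a : ℕ) : ℝ) / 120 := by
  have h1 := kap_dvd B0 hB a
  have h2 := kap_pos B0 (mem_powerset.mp hB) a
  have h3 : (kap B0 a : ℝ) ≠ 0 := by exact_mod_cast h2.ne'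
  rw [Nat.cast_div h1 h3]
  push_cast
  field_simp

/-- The weights of the classes. -/
theorem wts : (∑ B0 ∈ ({2, 3, 5} : Finset ℕ).powerset, ∑ a : G,
      (if SgnOK B0 a then (kap B0 a : ℝ)⁻¹ else 0)) =
    25 / 48 * ∑ B0 ∈ ({2, 3, 5} : Finset ℕ).powerset, ∑ a : G, (kap B0 a : ℝ)⁻¹ := by
  have h1 : (∑ B0 ∈ ({2, 3, 5} : Finset ℕ).powerset, ∑ a : G,
      (if SgnOK B0 a then (kap B0 a : ℝ)⁻¹ else 0)) =
      ((∑ B0 ∈ ({2, 3, 5} : Finset ℕ).powerset, ∑ a : G,
        (if SgnOK B0 a then 120 / kap B0 a else 0) : ℕ) : ℝ) / 120 := by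
    rw [Nat.cast_sum, sum_div]
    refine sum_congr rfl fun B0 hB => ?_
    rw [Nat.cast_sum, sum_div]
    refine sum_congr rfl fun a _ => ?_
    split_ifs
    · exact kap_inv B0 hB a
    · simp
  have h2 : (∑ B0 ∈ ({2, 3, 5} : Finset ℕ).powerset, ∑ a : G, (kap B0 a : ℝ)⁻¹) =
      ((∑ B0 ∈ ({2, 3, 5} : Finset ℕ).powerset, ∑ a : G, 120 / kap B0 a : ℕ) : ℝ) / 120 := by
    rw [Nat.cast_sum, sum_div]
    refine sum_congr rfl fun B0 hB => ?_
    rw [Nat.cast_sum, sum_div]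
    exact sum_congr rfl fun a _ => kap_inv B0 hB a
  have h3 := wts_nat
  rw [h1, h2]
  have h4 : (48 : ℝ) * ((∑ B0 ∈ ({2, 3, 5} : Finset ℕ).powerset, ∑ a : G,
        (if SgnOK B0 a then 120 / kap B0 a else 0) : ℕ) : ℝ) =
      25 * ((∑ B0 ∈ ({2, 3, 5} : Finset ℕ).powerset, ∑ a : G, 120 / kap B0 a : ℕ) : ℝ) := by
    exact_mod_cast h3
  linarith

end PP15
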