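import Pool.Agent.Lib.MP_87c685_nt_X15B.Defs
import Pool.Agent.Lib.MP_87c685_nt_PPA.Defs

/-!
Project PP15 (MP_87c685_nt): the imaginary quadratic fields `K` with `X_0(15)(K)` finite have
lower density at least `3/20`. Definitions.
-/

open Finset

namespace PP15

/-- The space `F_2^k`. -/
abbrev V (k : ℕ) : Type := Fin k → ZMod 2

/-- The index set of the variables, `F_2^k x F_2^k`. -/
abbrev I (k : ℕ) : Type := V k × V k

/-- The group of classes of numbers prime to `30` (values of four quadratic characters). -/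
abbrev G : Type := Fin 4 → ZMod 2

/-- The exponent of the symbol `(N_v / N_u)`. -/
def ex {k : ℕ} (u v : I k) : ZMod 2 := u.2 ⬝ᵥ (u.1 + v.1)

/-- Unlinked sets of indices. -/
def Unl {k : ℕ} (B : Finset (I k)) : Prop := ∀ u ∈ B, ∀ v ∈ B, ex u v = ex v u

/-- The sign attached to an element of `F_2`. -/
noncomputable def sg (t : ZMod 2) : ℝ := if t = 0 then 1 else -1

/-- The class of a number prime to `30`. -/
def cl (m : ℕ) : G :=
  ![if m % 4 = 3 then 1 else 0, if m % 8 = 3 ∨ m % 8 = 5 then 1 else 0,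
    if m % 3 = 2 then 1 else 0, if m % 5 = 2 ∨ m % 5 = 3 then 1 else 0]

/-- The Jacobi symbol `(m / n)`, as a real number. -/
noncomputable def jac (m n : ℕ) : ℝ := ((jacobiSym (m : ℤ) n : ℤ) : ℝ)

/-- The product of a finite set of numbers. -/
def Nn (A : Finset ℕ) : ℕ := ∏ p ∈ A, p

open Classical in
/-- The families of pairwise disjoint sets with union `M`, indexed by `I k`. -/
noncomputable def Fam (k : ℕ) (M : Finset ℕ) : Finset (I k → Finset ℕ) :=
  (Fintype.piFinset fun _ => M.powerset).filter fun A =>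
    (∀ u v, u ≠ v → Disjoint (A u) (A v)) ∧ univ.biUnion A = M

/-- The product of symbols of a family. -/
noncomputable def S {k : ℕ} (A : I k → Finset ℕ) : ℝ :=
  ∏ u, ∏ v, if ex u v = 1 then jac (Nn (A v)) (Nn (A u)) else 1

open Classical in
/-- The support of a family. -/
noncomputable def supp {k : ℕ} (A : I k → Finset ℕ) : Finset (I k) :=
  univ.filter fun u => (A u).Nonempty

/-- The classes of a family. -/
def clA {k : ℕ} (A : I k → Finset ℕ) : I k → G := fun u => cl (Nn (A u))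

open Classical in
/-- The maximal unlinked sets. -/
noncomputable def MaxU (k : ℕ) : Finset (Finset (I k)) :=
  (univ.powersetCard (2 ^ k)).filter Unl

/-- An enumeration of the index set. -/
noncomputable def ix {k : ℕ} (u : I k) : ℕ := (Fintype.equivFin (I k) u : ℕ)

/-- The sign of a family supported on the unlinked set `B`, in terms of classes. -/
noncomputable def sgn {k : ℕ} (B : Finset (I k)) (g : I k → G) : ℝ :=
  ∏ u ∈ B, ∏ v ∈ B, if ix u < ix v ∧ ex u v = 1 ∧ g u 0 = 1 ∧ g v 0 = 1 then -1 else 1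

open Classical in
/-- The systems of classes supported on `B`. -/
noncomputable def gB {k : ℕ} (B : Finset (I k)) : Finset (I k → G) :=
  Fintype.piFinset fun u => if u ∈ B then univ else {0}

/-- The mean value of the main term attached to `B`. -/
noncomputable def avg (k : ℕ) (B : Finset (I k)) (f : (I k → G) → Finset (I k) → ℝ) : ℝ :=
  (1 / 16 : ℝ) ^ (2 ^ k) * ∑ g ∈ gB B, f g B * sgn B g

/-- The index sets whose first projection is not contained in an affine hyperplane. -/
def Spn {k : ℕ} (T : Finset (I k)) : Prop :=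
  ∀ a : V k, a ≠ 0 → ∃ u ∈ T, ∃ v ∈ T, a ⬝ᵥ u.1 ≠ a ⬝ᵥ v.1

/-- Alternating matrices over `F_2`. -/
def Alt (k : ℕ) : Finset (Matrix (Fin k) (Fin k) (ZMod 2)) :=
  univ.filter fun β => β.transpose = β ∧ ∀ i, β i i = 0

/-- The graph of an affine map. -/
def gr {k : ℕ} (y0 : V k) (β : Matrix (Fin k) (Fin k) (ZMod 2)) : Finset (I k) :=
  univ.image fun x => (x, y0 + β.mulVec x)

/-- The functional attached to a small prime: `(s / m) = sg (lam1 s ⬝ cl m)`. -/
def lam1 (s : ℕ) : G :=
  if s = 2 then ![0, 1, 0, 0] else if s = 3 then ![1, 0, 1, 0] else if s = 5 then ![0, 0, 0, 1]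
  else 0

/-- The functional attached to a set of small primes. -/
def lam (c : Finset ℕ) : G := ∑ s ∈ c, lam1 s

/-- The sign condition on the class of `n = N(B0) n'`, `n'` in the class `a`. -/
def SgnOK (B0 : Finset ℕ) (a : G) : Prop :=
  (3 ∉ B0 ∧ cl (Nn B0) 2 + a 2 = 0) ↔ (5 ∉ B0 ∧ cl (Nn B0) 3 + a 3 = 0)

instance (B0 : Finset ℕ) (a : G) : Decidable (SgnOK B0 a) := by unfold SgnOK; infer_instance

/-- The small primes in `SS n`, `n = N(B0) n'`, `n'` in the class `a`. -/
def small (B0 : Finset ℕ) (a : G) : Finset ℕ :=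
  (B0.filter fun p => p ≠ 2) ∪
    (if 2 ∉ B0 ∧ cl (Nn B0) 0 + a 0 = 1 then ∅ else {2}) ∪
    (if 3 ∉ B0 ∧ cl (Nn B0) 2 + a 2 = 0 then {5} else ∅)

/-- The conditions at `3` and `5` for the element `c ∪ m'` of `PhiF n`, `γ` the class of `m'`. -/
def LL (B0 : Finset ℕ) (a : G) (c : Finset ℕ) (γ : G) : Prop :=
  (3 ∈ B0 → γ 2 + ∑ s ∈ c.erase 3, cl s 2 +
    (if 3 ∈ c then cl (Nn (B0.erase 3)) 2 + a 2 else 0) = 0) ∧
  (3 ∉ B0 ∧ cl (Nn B0) 2 + a 2 = 0 → γ 2 + ∑ s ∈ c, cl s 2 = 0) ∧
  (5 ∈ B0 → γ 3 + ∑ s ∈ c.erase 5, cl s 3 +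
    (if 5 ∈ c then cl (Nn (B0.erase 5)) 3 + a 3 else 0) = 0)

instance (B0 : Finset ℕ) (a : G) (c : Finset ℕ) (γ : G) : Decidable (LL B0 a c γ) := by
  unfold LL; infer_instance

open Classical in
/-- The coefficient function of the moments; `s` says whether only spanning families count. -/
noncomputable def ff (k : ℕ) (s : Prop) (B0 : Finset ℕ) (a : G) (g : I k → G)
    (T : Finset (I k)) : ℝ :=
  if (∑ u, g u = a) ∧ (s → Spn T) then
    ∑ c ∈ Fintype.piFinset fun _ : Fin k => (small B0 a).powerset,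
      if ∀ i, LL B0 a (c i) (∑ u : I k, if u.1 i = 1 then g u else 0) then
        ∏ u : I k, sg ((∑ i, u.2 i • lam (c i) + (u.1 ⬝ᵥ u.2) • lam B0) ⬝ᵥ g u)
      else 0
  else 0

/-- The primes `≥ 7` dividing `n`. -/
def bigP (n : ℕ) : Finset ℕ := n.primeFactors.filter fun p => 7 ≤ p

/-- The `k`-tuples of sets of primes which are in general position on `M`. -/
def SpnT {k : ℕ} (M : Finset ℕ) (m : Fin k → Finset ℕ) : Prop :=
  ∀ a : V k, a ≠ 0 → ∃ p ∈ M, ∃ q ∈ M,
    (∑ i, if p ∈ m i then a i else 0) ≠ ∑ i, if q ∈ m i then a i else 0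

open Classical in
/-- The number of `k`-tuples of elements of `PhiF n` (in general position, if `s` holds). -/
noncomputable def TT (k : ℕ) (s : Prop) (n : ℕ) : ℕ :=
  ((Fintype.piFinset fun _ : Fin k => X15B.PhiF n).filter fun m => s → SpnT (bigP n) m).card

/-- `n` is bad if `PhiF n` contains an unexpected element which is constant on the big primes. -/
def Bad (n : ℕ) : Prop :=
  ∃ m ∈ X15B.PhiF n, (m ∩ bigP n = ∅ ∨ bigP n ⊆ m) ∧ m ≠ ∅ ∧ m ≠ n.primeFactors

/-- The absolute discriminant of `Q(√-n)`, `n` squarefree. -/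
def disc (n : ℕ) : ℕ := if n % 4 = 3 then n else 4 * n

/-- The sign condition. -/
def Sgn (n : ℕ) : Prop := n % 3 = 1 ↔ n % 5 = 1 ∨ n % 5 = 4

instance (n : ℕ) : Decidable (Sgn n) := by unfold Sgn; infer_instance

/-- The factor `disc n / n'` for `n = N(B0) n'`, `n'` in the class `a`. -/
def kap (B0 : Finset ℕ) (a : G) : ℕ :=
  if 2 ∉ B0 ∧ cl (Nn B0) 0 + a 0 = 1 then Nn B0 else 4 * Nn B0

open Classical in
/-- The numbers `n ≤ x` which are squarefree, prime to `30` and in the class `a`. -/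
noncomputable def Nx (a : G) (x : ℕ) : Finset ℕ :=
  (range (x + 1)).filter fun n => PPA.Ok n ∧ cl n = a

/-- The exponents of the symbols, in the form used by `PPA`. -/
def ph (k : ℕ) (v w : I k) : ℕ := if ex w v = 1 then 1 else 0

end PP15
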