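import Pool.Agent.Lib.MP_87c685_nt_PP15.Cls
import Pool.Agent.Lib.MP_87c685_nt_PP15.Dec

open Finset Filter Topology

namespace PP15

theorem Den_primes (n : ℕ) (hn : PPA.Ok n) : ∀ p ∈ n.primeFactors, p.Prime ∧ 7 ≤ p := by
  intro p hp
  have hpp := Nat.prime_of_mem_primeFactors hp
  refine ⟨hpp, ?_⟩
  have hd : p ∣ n := Nat.dvd_of_mem_primeFactors hp
  by_contra hlt
  have h30 : p ∣ 30 := by
    have h1 : p < 7 := by omega
    interval_cases p
    · exact absurd hpp (by norm_num)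
    · exact absurd hpp (by norm_num)
    · norm_num
    · norm_num
    · exact absurd hpp (by norm_num)
    · norm_num
    · exact absurd hpp (by norm_num)
  have h2 : p ∣ Nat.gcd n 30 := Nat.dvd_gcd hd h30
  rw [hn.2] at h2
  exact hpp.one_lt.ne' (Nat.dvd_one.1 h2)

theorem Den_kap_pos (B0 : Finset ℕ) (hB : B0 ⊆ {2, 3, 5}) (a : G) : 0 < kap B0 a := by
  have h : 0 < Nn B0 := by
    unfold Nn
    refine Finset.prod_pos ?_
    intro p hp
    have := hB hp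
    simp only [Finset.mem_insert, Finset.mem_singleton] at this
    rcases this with h | h | h <;> omega
  unfold kap
  split_ifs <;> omega

/-- the quotient `(x / K) / x` tends to `1 / K` -/
theorem Den_div (K : ℕ) (hK : 0 < K) :
    Tendsto (fun x : ℕ => (((x / K : ℕ) : ℝ)) / x) atTop (𝓝 ((K : ℝ)⁻¹)) := by
  have h1 : Tendsto (fun x : ℝ => ((⌊(K : ℝ)⁻¹ * x⌋₊ : ℝ)) / x) atTop (𝓝 ((K : ℝ)⁻¹)) :=
    tendsto_nat_floor_mul_div_atTop (by positivity)
  have h2 := h1.comp (tendsto_natCast_atTop_atTop (R := ℝ))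
  refine h2.congr ?_
  intro x
  simp only [Function.comp]
  congr 2
  rw [inv_mul_eq_div, Nat.floor_div_eq_div]

theorem Den_top (K : ℕ) (hK : 0 < K) : Tendsto (fun x : ℕ => x / K) atTop atTop := by
  refine tendsto_atTop.2 ?_
  intro b
  filter_upwards [eventually_ge_atTop (b * K)] with x hx
  exact (Nat.le_div_iff_mul_le hK).2 hx

theorem Den_cnt (κ : ℝ) (a : G)
    (h : Tendsto (fun x : ℕ => ((Nx a x).card : ℝ) / x) atTop (𝓝 κ)) (K : ℕ) (hK : 0 < K) :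
    Tendsto (fun x : ℕ => ((Nx a (x / K)).card : ℝ) / x) atTop (𝓝 (κ * (K : ℝ)⁻¹)) := by
  have h1 := h.comp (Den_top K hK)
  have h2 := h1.mul (Den_div K hK)
  refine h2.congr' ?_
  filter_upwards [eventually_ge_atTop K] with x hx
  have h3 : ((x / K : ℕ) : ℝ) ≠ 0 := by
    have : 0 < x / K := Nat.div_pos hx hK
    positivity
  simp only [Function.comp]
  rw [div_mul_div_cancel₀ h3]

open Classical in
theorem Den_low (B0 : Finset ℕ) (hB : B0 ⊆ {2, 3, 5}) (a : G) (h : SgnOK B0 a) (κ : ℝ)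
    (hκ : ∀ a : G, Tendsto (fun x : ℕ => ((Nx a x).card : ℝ) / x) atTop (𝓝 κ))
    (K : ℕ) (hK : 0 < K) (ε : ℝ) (hε : 0 < ε) : ∀ᶠ x : ℕ in atTop,
    ((1 / 3 - 1 / 21 + 1 / 315 - 1 / 9765) * κ * (K : ℝ)⁻¹ - ε) * x ≤
      ((Nx a (x / K)).filter fun n => (X15B.PhiF (Nn B0 * n)).card ≤ 2).card := by
  obtain ⟨x0, hx0⟩ := clsb B0 hB a h κ hκ (ε / 2) (by positivity)
  set c : ℝ := (1 / 3 - 1 / 21 + 1 / 315 - 1 / 9765) * κ with hc
  have h1 : Tendsto (fun x : ℕ => (c - ε / 2) * ((((x / K : ℕ) : ℝ)) / x)) atTop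
      (𝓝 ((c - ε / 2) * (K : ℝ)⁻¹)) := (Den_div K hK).const_mul _
  have hK1 : (K : ℝ)⁻¹ ≤ 1 := by
    refine inv_le_one_of_one_le₀ ?_
    exact_mod_cast hK
  have hK0 : 0 < (K : ℝ)⁻¹ := by positivity
  have h2 : c * (K : ℝ)⁻¹ - ε < (c - ε / 2) * (K : ℝ)⁻¹ := by nlinarith
  filter_upwards [h1.eventually (lt_mem_nhds h2), eventually_ge_atTop 1,
    (Den_top K hK).eventually (eventually_ge_atTop x0)] with x hx hx1 hx2
  have hxp : (0 : ℝ) < x := by exact_mod_cast hx1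
  have h3 := hx0 (x / K) hx2
  refine le_trans ?_ h3
  have h4 : (c * (K : ℝ)⁻¹ - ε) * x ≤ (c - ε / 2) * ((((x / K : ℕ) : ℝ)) / x) * x :=
    mul_le_mul_of_nonneg_right hx.le hxp.le
  refine h4.trans (le_of_eq ?_)
  field_simp

open Classical in
/-- The density of the `n` with `PhiF n` of order at most `2`. -/
theorem density : ∃ x0 : ℕ, ∀ x ≥ x0,
    3 * ((Icc 1 x).filter fun n => Squarefree n ∧ disc n ≤ x ∧ True).card ≤
      20 * ((Icc 1 x).filter fun n => Squarefree n ∧ disc n ≤ x ∧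
        (Sgn n ∧ (X15B.PhiF n).card ≤ 2)).card := by
  obtain ⟨κ, hκ, hcnt⟩ := cntN
  have hdec1 := fun x => dec (fun _ => True) x
  have hdec2 := fun x => dec (fun n => Sgn n ∧ (X15B.PhiF n).card ≤ 2) x
  have hwts := wts
  obtain ⟨P, hP⟩ : ∃ P : Finset (Finset ℕ), P = ({2, 3, 5} : Finset ℕ).powerset := ⟨_, rfl⟩
  obtain ⟨c0, hc0⟩ : ∃ c0 : ℝ, c0 = 1 / 3 - 1 / 21 + 1 / 315 - 1 / 9765 := ⟨_, rfl⟩
  obtain ⟨Wt, hW⟩ : ∃ Wt : ℝ, Wt = ∑ B0 ∈ P, ∑ a : G, (kap B0 a : ℝ)⁻¹ := ⟨_, rfl⟩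
  rw [← hP] at hwts
  simp only [← hP] at hdec1 hdec2
  have hPB : ∀ B0 ∈ P, B0 ⊆ ({2, 3, 5} : Finset ℕ) := fun B0 h =>
    Finset.mem_powerset.1 (hP ▸ h)
  have hPn : P.Nonempty := ⟨∅, by rw [hP]; exact Finset.mem_powerset.2 (Finset.empty_subset _)⟩
  have hWpos : 0 < Wt := by
    rw [hW]
    refine Finset.sum_pos ?_ hPn
    intro B0 hB0
    refine Finset.sum_pos ?_ Finset.univ_nonempty
    intro a _
    have := Den_kap_pos B0 (hPB B0 hB0) a
    positivity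
  -- the upper bound
  have hup : Tendsto (fun x : ℕ => (∑ B0 ∈ P, ∑ a : G, ((Nx a (x / kap B0 a)).card : ℝ)) / x)
      atTop (𝓝 (κ * Wt)) := by
    have h1 : Tendsto (fun x : ℕ => ∑ B0 ∈ P, ∑ a : G, ((Nx a (x / kap B0 a)).card : ℝ) / x)
        atTop (𝓝 (∑ B0 ∈ P, ∑ a : G, κ * (kap B0 a : ℝ)⁻¹)) := by
      refine tendsto_finsetSum _ ?_
      intro B0 hB0
      refine tendsto_finsetSum _ ?_
      intro a _
      exact Den_cnt κ a (hcnt a) _ (Den_kap_pos B0 (hPB B0 hB0) a)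
    have h2 : ∑ B0 ∈ P, ∑ a : G, κ * (kap B0 a : ℝ)⁻¹ = κ * Wt := by
      rw [hW, Finset.mul_sum]
      refine Finset.sum_congr rfl fun B0 _ => ?_
      rw [Finset.mul_sum]
    rw [h2] at h1
    refine h1.congr ?_
    intro x
    rw [Finset.sum_div]
    refine Finset.sum_congr rfl fun B0 _ => ?_
    rw [Finset.sum_div]
  -- the margin
  have hmar : 0 < κ * Wt * (20 * c0 * (25 / 48) - 3) := by
    have : (0 : ℝ) < 20 * c0 * (25 / 48) - 3 := by rw [hc0]; norm_num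
    positivity
  obtain ⟨m, hm⟩ : ∃ m : ℝ, m = κ * Wt * (20 * c0 * (25 / 48) - 3) := ⟨_, rfl⟩
  rw [← hm] at hmar
  obtain ⟨N, hN⟩ : ∃ N : ℝ, N = ∑ B0 ∈ P, ∑ _a : G, (1 : ℝ) := ⟨_, rfl⟩
  have hNpos : 0 < N := by
    rw [hN]
    refine Finset.sum_pos ?_ hPn
    intro B0 _
    refine Finset.sum_pos ?_ Finset.univ_nonempty
    intro a _
    norm_num
  obtain ⟨ε, hε⟩ : ∃ ε : ℝ, ε = m / (40 * N) := ⟨_, rfl⟩
  have hεpos : 0 < ε := by rw [hε]; positivity
  have hev1 : ∀ᶠ x : ℕ in atTop, (∑ B0 ∈ P, ∑ a : G, ((Nx a (x / kap B0 a)).card : ℝ)) / x <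
      κ * Wt + m / 12 :=
    hup.eventually (gt_mem_nhds (by linarith))
  have hev2 : ∀ᶠ x : ℕ in atTop, ∀ B0 ∈ P, ∀ a : G, SgnOK B0 a →
      (c0 * κ * (kap B0 a : ℝ)⁻¹ - ε) * x ≤
        ((Nx a (x / kap B0 a)).filter fun n => (X15B.PhiF (Nn B0 * n)).card ≤ 2).card := by
    rw [Filter.eventually_all_finset]
    intro B0 hB0
    rw [Filter.eventually_all]
    intro a
    by_cases h : SgnOK B0 a
    · filter_upwards [Den_low B0 (hPB B0 hB0) a h κ hcnt _ (Den_kap_pos B0 (hPB B0 hB0) a) ε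
        hεpos] with x hx _
      rw [hc0]
      exact hx
    · exact Eventually.of_forall fun x hx => absurd hx h
  obtain ⟨x0, hx0⟩ := Filter.eventually_atTop.1 ((hev1.and hev2).and (eventually_ge_atTop 1))
  refine ⟨x0, fun x hx => ?_⟩
  obtain ⟨⟨h1, h2⟩, h3⟩ := hx0 x hx
  have hxp : (0 : ℝ) < x := by exact_mod_cast h3
  have hA : ((Icc 1 x).filter fun n => Squarefree n ∧ disc n ≤ x ∧ True).card =
      ∑ B0 ∈ P, ∑ a : G, (Nx a (x / kap B0 a)).card := by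
    have h := hdec1 x
    simp only [Finset.filter_true] at h
    rw [← h]
    congr!
  have hB : ((Icc 1 x).filter fun n => Squarefree n ∧ disc n ≤ x ∧
        (Sgn n ∧ (X15B.PhiF n).card ≤ 2)).card = ∑ B0 ∈ P, ∑ a : G,
        ((Nx a (x / kap B0 a)).filter fun n => Sgn (Nn B0 * n) ∧
          (X15B.PhiF (Nn B0 * n)).card ≤ 2).card := by
    have h := hdec2 x
    convert h
  generalize hXA : ((Icc 1 x).filter fun n => Squarefree n ∧ disc n ≤ x ∧ True).card = XA at hA ⊢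
  generalize hXB : ((Icc 1 x).filter fun n => Squarefree n ∧ disc n ≤ x ∧
        (Sgn n ∧ (X15B.PhiF n).card ≤ 2)).card = XB at hB ⊢
  have hA' : (XA : ℝ) = ∑ B0 ∈ P, ∑ a : G, ((Nx a (x / kap B0 a)).card : ℝ) := by
    rw [hA]
    push_cast
    rfl
  have hB' : ∑ B0 ∈ P, ∑ a : G, (if SgnOK B0 a then
        (c0 * κ * (kap B0 a : ℝ)⁻¹ - ε) * x else 0) ≤ (XB : ℝ) := by
    rw [hB]
    push_cast
    refine Finset.sum_le_sum fun B0 hB0 => Finset.sum_le_sum fun a _ => ?_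
    split_ifs with h
    · refine (h2 B0 hB0 a h).trans ?_
      refine Nat.cast_le.2 (Finset.card_le_card ?_)
      intro n hn
      rw [Finset.mem_filter] at hn ⊢
      refine ⟨hn.1, ?_, hn.2⟩
      have hnx := hn.1
      unfold Nx at hnx
      rw [Finset.mem_filter] at hnx
      have hok := hnx.2.1
      have hcl := hnx.2.2
      have hNn : Nn n.primeFactors = n := by
        unfold Nn
        exact Nat.prod_primeFactors_of_squarefree hok.1
      have h5 := (ar0 B0 (hPB B0 hB0) n.primeFactors (Den_primes n hok)).2.2.2.1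
      rw [hNn, hcl] at h5
      exact h5.2 h
    · exact Nat.cast_nonneg _
  have hsum : ∑ B0 ∈ P, ∑ a : G, (if SgnOK B0 a then
        (c0 * κ * (kap B0 a : ℝ)⁻¹ - ε) * x else 0) ≥
      (c0 * κ * (25 / 48 * Wt) - ε * N) * x := by
    have h4 : ∑ B0 ∈ P, ∑ a : G, (if SgnOK B0 a then
        (c0 * κ * (kap B0 a : ℝ)⁻¹ - ε) * x else 0) =
        c0 * κ * x * (∑ B0 ∈ P, ∑ a : G, (if SgnOK B0 a then (kap B0 a : ℝ)⁻¹ else 0)) -
        ε * x * ∑ B0 ∈ P, ∑ a : G, (if SgnOK B0 a then (1 : ℝ) else 0) := by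
      simp only [Finset.mul_sum, ← Finset.sum_sub_distrib]
      refine Finset.sum_congr rfl fun B0 _ => Finset.sum_congr rfl fun a _ => ?_
      split_ifs <;> ring
    have h5 : ∑ B0 ∈ P, ∑ a : G, (if SgnOK B0 a then (1 : ℝ) else 0) ≤ N := by
      rw [hN]
      refine Finset.sum_le_sum fun B0 _ => Finset.sum_le_sum fun a _ => ?_
      split_ifs <;> norm_num
    rw [h4, hwts, ← hW]
    have h6 : ε * x * (∑ B0 ∈ P, ∑ a : G, (if SgnOK B0 a then (1 : ℝ) else 0)) ≤ ε * x * N :=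
      mul_le_mul_of_nonneg_left h5 (by positivity)
    nlinarith
  have hfin : (3 : ℝ) * XA ≤ 20 * XB := by
    have h7 : (XA : ℝ) ≤ (κ * Wt + m / 12) * x := by
      rw [hA']
      rw [div_lt_iff₀ hxp] at h1
      exact h1.le
    have h8 : (c0 * κ * (25 / 48 * Wt) - ε * N) * x ≤ (XB : ℝ) := hsum.le.trans hB'
    have h9 : ε * N = m / 40 := by
      rw [hε]
      field_simp
    rw [h9] at h8
    have h10 : 3 * ((κ * Wt + m / 12) * x) ≤ 20 * ((c0 * κ * (25 / 48 * Wt) - m / 40) * x) := by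
      have h11 : 20 * (c0 * κ * (25 / 48 * Wt) - m / 40) - 3 * (κ * Wt + m / 12) = m / 4 := by
        rw [hm]; ring
      have h12 : 0 ≤ (20 * (c0 * κ * (25 / 48 * Wt) - m / 40) - 3 * (κ * Wt + m / 12)) * x := by
        rw [h11]; positivity
      nlinarith
    linarith
  exact_mod_cast hfin

end PP15
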