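import Pool.Agent.Lib.MP_87c685_nt_X15B.Glue

open NumberField

namespace PP15

section dscaux

variable (K : Type*) [Field K] [NumberField K]

/-- the discriminant of a quadratic field whose ring of integers is `ℤ + ℤ w` -/
private theorem Dsc_basis (w : 𝓞 K) (T N : ℤ) (hw : w * w = (T : 𝓞 K) * w - (N : 𝓞 K))
    (hirr : ∀ q : ℚ, (w : K) ≠ (q : K)) (hspan : ∀ z : 𝓞 K, ∃ a b : ℤ, z = (a : 𝓞 K) + b * w) :
    discr K = T ^ 2 - 4 * N := by
  have hli : LinearIndependent ℤ ![(1 : 𝓞 K), w] := by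
    rw [LinearIndependent.pair_iff]
    intro u v huv
    have h1 : (u : 𝓞 K) + (v : 𝓞 K) * w = 0 := by
      rw [zsmul_eq_mul, zsmul_eq_mul, mul_one] at huv
      exact huv
    have h2 : (u : K) + (v : K) * (w : K) = 0 := by
      have h3 := congrArg (algebraMap (𝓞 K) K) h1
      rw [map_add, map_mul, map_intCast, map_intCast, map_zero] at h3
      exact h3
    by_cases hv : v = 0
    · subst hv
      refine ⟨?_, rfl⟩
      simpa using h2
    · exfalso
      have hvK : (v : K) ≠ 0 := by exact_mod_cast hv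
      apply hirr (-u / v)
      push_cast
      rw [eq_div_iff hvK]
      linear_combination h2
  have htop : ⊤ ≤ Submodule.span ℤ (Set.range ![(1 : 𝓞 K), w]) := by
    intro z _
    simp only [Matrix.range_cons, Matrix.range_empty, Set.union_empty, Set.singleton_union]
    obtain ⟨a, b, hz⟩ := hspan z
    rw [Submodule.mem_span_pair]
    refine ⟨a, b, ?_⟩
    rw [hz, zsmul_eq_mul, zsmul_eq_mul, mul_one]
  let B : Module.Basis (Fin 2) ℤ (𝓞 K) := Module.Basis.mk hli htop
  have hB0 : B 0 = 1 := by simp [B]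
  have hB1 : B 1 = w := by simp [B]
  have htr : ∀ a b : ℤ, Algebra.trace ℤ (𝓞 K) ((a : 𝓞 K) + b * w) = 2 * a + b * T := by
    intro a b
    rw [Algebra.trace_eq_matrix_trace B, Matrix.trace_fin_two]
    have e0 : ((a : 𝓞 K) + b * w) * B 0 = a • B 0 + b • B 1 := by
      rw [hB0, hB1, zsmul_eq_mul, zsmul_eq_mul]
      ring
    have e1 : ((a : 𝓞 K) + b * w) * B 1 = (-(b * N)) • B 0 + (a + b * T) • B 1 := by
      rw [hB0, hB1, zsmul_eq_mul, zsmul_eq_mul]
      push_cast
      linear_combination (b : 𝓞 K) * hw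
    rw [Algebra.leftMulMatrix_eq_repr_mul, Algebra.leftMulMatrix_eq_repr_mul, e0, e1]
    simp only [map_add, map_smul, Module.Basis.repr_self, Finsupp.add_apply, Finsupp.smul_apply,
      Finsupp.single_eq_same, smul_eq_mul, mul_one]
    rw [Finsupp.single_eq_of_ne (by decide), Finsupp.single_eq_of_ne (by decide)]
    ring
  rw [← discr_eq_discr K B, Algebra.discr_def, Matrix.det_fin_two]
  simp only [Algebra.traceMatrix_apply, Algebra.traceForm_apply, hB0, hB1]
  have h1 : Algebra.trace ℤ (𝓞 K) (1 * 1) = 2 := by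
    have := htr 1 0
    simpa using this
  have h2 : Algebra.trace ℤ (𝓞 K) (1 * w) = T := by
    have := htr 0 1
    simpa using this
  have h3 : Algebra.trace ℤ (𝓞 K) (w * 1) = T := by
    have := htr 0 1
    simpa using this
  have h4 : Algebra.trace ℤ (𝓞 K) (w * w) = -2 * N + T * T := by
    have := htr (-N) T
    have e : ((-N : ℤ) : 𝓞 K) + (T : 𝓞 K) * w = w * w := by
      rw [hw]
      push_cast
      ring
    rw [e] at this
    rw [this]
    ring
  rw [h1, h2, h3, h4]
  ring

/-- a rational number whose square times a squarefree integer is an integer is an integer -/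
private theorem Dsc_int {m : ℤ} (hm : Squarefree m) {t : ℚ} {c : ℤ} (h : (m : ℚ) * t ^ 2 = c) :
    ∃ b : ℤ, t = b := by
  have hden : (t.den : ℤ) ≠ 0 := by exact_mod_cast t.den_nz
  have h1 : m * t.num ^ 2 = c * (t.den : ℤ) ^ 2 := by
    have h2 : (t.num : ℚ) = t * t.den := (Rat.mul_den_eq_num t).symm
    have h3 : ((m * t.num ^ 2 : ℤ) : ℚ) = ((c * (t.den : ℤ) ^ 2 : ℤ) : ℚ) := by
      push_cast
      rw [h2, ← h]
      ring
    exact_mod_cast h3
  have hcop : IsCoprime (t.num ^ 2) ((t.den : ℤ) ^ 2) := by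
    apply IsCoprime.pow
    rw [Int.isCoprime_iff_gcd_eq_one]
    exact t.reduced
  have h2 : (t.den : ℤ) ^ 2 ∣ m := by
    refine hcop.symm.dvd_of_dvd_mul_right ?_
    rw [h1]
    exact dvd_mul_left _ _
  have h3 : IsUnit (t.den : ℤ) := hm _ (by rw [← pow_two]; exact h2)
  have h4 : t.den = 1 := by
    rcases Int.isUnit_iff.1 h3 with h | h
    · exact_mod_cast h
    · have : (0 : ℤ) ≤ t.den := by positivity
      omega
  exact ⟨t.num, by rw [← Rat.mul_den_eq_num t, h4]; simp⟩

/-- squarefree integers different from `1` are not rational squares -/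
private theorem Dsc_irr {m : ℤ} (hm : Squarefree m) (h1 : m ≠ 1) (q : ℚ) : q ^ 2 ≠ (m : ℚ) := by
  intro h
  have h2 : IsSquare (m : ℚ) := ⟨q, by rw [← h, pow_two]⟩
  rw [Rat.isSquare_intCast_iff] at h2
  obtain ⟨a, ha⟩ := h2
  have h3 : IsUnit a := hm a ⟨1, by rw [mul_one]; exact ha⟩
  rcases Int.isUnit_iff.1 h3 with h | h
  · rw [h] at ha
    exact h1 (by simpa using ha)
  · rw [h] at ha
    exact h1 (by simpa using ha)

/-- trace and norm of `x + y s` are integers if it is integral -/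
private theorem Dsc_tn (h2 : Module.finrank ℚ K = 2) (m : ℤ) (s : K) (hs : s ^ 2 = (m : K))
    (hirr : ∀ q : ℚ, s ≠ (q : K)) (z : 𝓞 K) (x y : ℚ) (hz : (z : K) = x + y * s) :
    (∃ a : ℤ, 2 * x = a) ∧ ∃ N : ℤ, x ^ 2 - m * y ^ 2 = N := by
  have hli : LinearIndependent ℚ ![(1 : K), s] := by
    rw [LinearIndependent.pair_iff]
    intro u v huv
    have huv' : (u : K) + (v : K) * s = 0 := by
      have e1 : u • (1 : K) = (u : K) := by rw [Algebra.smul_def, mul_one]; rfl
      have e2 : v • s = (v : K) * s := by rw [Algebra.smul_def]; rfl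
      rw [e1, e2] at huv
      exact huv
    by_cases hv : v = 0
    · subst hv
      refine ⟨?_, rfl⟩
      simpa using huv'
    · exfalso
      have hvK : (v : K) ≠ 0 := by exact_mod_cast hv
      apply hirr (-u / v)
      push_cast
      rw [eq_div_iff hvK]
      linear_combination huv'
  have htop : ⊤ ≤ Submodule.span ℚ (Set.range ![(1 : K), s]) := by
    rw [hli.span_eq_top_of_card_eq_finrank (by rw [h2]; simp)]
  let B : Module.Basis (Fin 2) ℚ K := Module.Basis.mk hli htop
  have hB0 : B 0 = 1 := by simp [B]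
  have hB1 : B 1 = s := by simp [B]
  have e0 : (z : K) * B 0 = x • B 0 + y • B 1 := by
    rw [hB0, hB1, Algebra.smul_def, Algebra.smul_def, hz]
    show _ = (x : K) * 1 + (y : K) * s
    ring
  have e1 : (z : K) * B 1 = (m * y) • B 0 + x • B 1 := by
    rw [hB0, hB1, Algebra.smul_def, Algebra.smul_def, hz]
    show _ = ((m * y : ℚ) : K) * 1 + (x : K) * s
    push_cast
    linear_combination (y : K) * hs
  have m00 : Algebra.leftMulMatrix B (z : K) 0 0 = x := by
    rw [Algebra.leftMulMatrix_eq_repr_mul, e0]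
    simp only [map_add, map_smul, Module.Basis.repr_self, Finsupp.add_apply, Finsupp.smul_apply,
      Finsupp.single_eq_same, smul_eq_mul, mul_one]
    rw [Finsupp.single_eq_of_ne (by decide)]
    ring
  have m10 : Algebra.leftMulMatrix B (z : K) 1 0 = y := by
    rw [Algebra.leftMulMatrix_eq_repr_mul, e0]
    simp only [map_add, map_smul, Module.Basis.repr_self, Finsupp.add_apply, Finsupp.smul_apply,
      Finsupp.single_eq_same, smul_eq_mul, mul_one]
    rw [Finsupp.single_eq_of_ne (by decide)]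
    ring
  have m01 : Algebra.leftMulMatrix B (z : K) 0 1 = m * y := by
    rw [Algebra.leftMulMatrix_eq_repr_mul, e1]
    simp only [map_add, map_smul, Module.Basis.repr_self, Finsupp.add_apply, Finsupp.smul_apply,
      Finsupp.single_eq_same, smul_eq_mul, mul_one]
    rw [Finsupp.single_eq_of_ne (by decide)]
    ring
  have m11 : Algebra.leftMulMatrix B (z : K) 1 1 = x := by
    rw [Algebra.leftMulMatrix_eq_repr_mul, e1]
    simp only [map_add, map_smul, Module.Basis.repr_self, Finsupp.add_apply, Finsupp.smul_apply,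
      Finsupp.single_eq_same, smul_eq_mul, mul_one]
    rw [Finsupp.single_eq_of_ne (by decide)]
    ring
  constructor
  · refine ⟨Algebra.trace ℤ (𝓞 K) z, ?_⟩
    rw [Algebra.coe_trace_int, Algebra.trace_eq_matrix_trace B, Matrix.trace_fin_two, m00, m11]
    ring
  · refine ⟨Algebra.norm ℤ z, ?_⟩
    rw [Algebra.coe_norm_int, Algebra.norm_eq_matrix_det B, Matrix.det_fin_two, m00, m11, m01, m10]
    ring

/-- the discriminant of `ℚ(√m)` -/
private theorem Dsc_gen (h2 : Module.finrank ℚ K = 2) (m : ℤ) (hm : Squarefree m) (h1 : m ≠ 1)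
    (s : K) (hs : s ^ 2 = (m : K)) : discr K = if m % 4 = 1 then m else 4 * m := by
  have hirr : ∀ q : ℚ, s ≠ (q : K) := by
    rintro q rfl
    apply Dsc_irr hm h1 q
    have h3 : ((q ^ 2 : ℚ) : K) = ((m : ℚ) : K) := by
      push_cast
      exact hs
    exact_mod_cast h3
  have hm0 : m ≠ 0 := hm.ne_zero
  -- coordinates of integral elements
  have key : ∀ z : 𝓞 K, ∃ a b : ℤ, 2 * (z : K) = a + b * s ∧ (4 : ℤ) ∣ a ^ 2 - m * b ^ 2 := by
    intro z
    obtain ⟨x, y, hz⟩ := X15B.glue_span K h2 s hirr (z : K)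
    obtain ⟨⟨a, ha⟩, N, hN⟩ := Dsc_tn K h2 m s hs hirr z x y hz
    have hb : (m : ℚ) * (2 * y) ^ 2 = ((a ^ 2 - 4 * N : ℤ) : ℚ) := by
      push_cast
      rw [← ha, ← hN]
      ring
    obtain ⟨b, hb'⟩ := Dsc_int hm hb
    refine ⟨a, b, ?_, ⟨N, ?_⟩⟩
    · rw [hz]
      have e1 : ((a : ℚ) : K) = ((2 * x : ℚ) : K) := by rw [ha]
      have e2 : ((b : ℚ) : K) = ((2 * y : ℚ) : K) := by rw [hb']
      push_cast at e1 e2
      rw [e1, e2]
      ring
    · rw [hb'] at hb
      have hb'' : m * b ^ 2 = a ^ 2 - 4 * N := by exact_mod_cast hb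
      rw [hb'']
      ring
  have hsq : ∀ a : ℤ, a ^ 2 % 4 = if a % 2 = 0 then 0 else 1 := by
    intro a
    rcases Int.emod_two_eq_zero_or_one a with h | h
    · obtain ⟨c, rfl⟩ : ∃ c, a = 2 * c := ⟨a / 2, by omega⟩
      rw [if_pos h]
      have : (2 * c) ^ 2 = 4 * (c ^ 2) := by ring
      omega
    · obtain ⟨c, rfl⟩ : ∃ c, a = 2 * c + 1 := ⟨a / 2, by omega⟩
      rw [if_neg (by omega)]
      have : (2 * c + 1) ^ 2 = 4 * (c ^ 2 + c) + 1 := by ring
      omega
  have hm4 : m % 4 ≠ 0 := by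
    intro h
    have h3 : IsUnit (2 : ℤ) := hm 2 ⟨m / 4, by omega⟩
    rcases Int.isUnit_iff.1 h3 with h | h <;> omega
  have hdiv : ∀ a b : ℤ, (4 : ℤ) ∣ a ^ 2 - m * b ^ 2 →
      (m % 4 = 1 → a % 2 = b % 2) ∧ (m % 4 ≠ 1 → a % 2 = 0 ∧ b % 2 = 0) := by
    intro a b h
    have ha := hsq a
    have hb := hsq b
    have hmb : (m * b ^ 2) % 4 = ((m % 4) * (b ^ 2 % 4)) % 4 := Int.mul_emod m (b ^ 2) 4
    have h3 : (a ^ 2) % 4 = (m * b ^ 2) % 4 := by omega
    have h4 : m % 4 = 1 ∨ m % 4 = 2 ∨ m % 4 = 3 := by omega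
    rw [hmb] at h3
    rcases Int.emod_two_eq_zero_or_one a with h5 | h5 <;>
    rcases Int.emod_two_eq_zero_or_one b with h6 | h6 <;>
    rcases h4 with h7 | h7 | h7 <;>
    simp only [h5, h6, h7] at ha hb h3 ⊢ <;>
    simp only [ha, hb] at h3 <;> revert h3 <;> decide
  split_ifs with h4
  · -- `m = 1 mod 4`
    obtain ⟨c, hc⟩ : ∃ c, m = 4 * c + 1 := ⟨m / 4, by omega⟩
    have hint : IsIntegral ℤ ((1 + s) / 2 : K) := by
      refine ⟨Polynomial.X ^ 2 - Polynomial.X - Polynomial.C c, ?_, ?_⟩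
      · rw [sub_sub]
        apply Polynomial.monic_X_pow_sub
        refine lt_of_le_of_lt (Polynomial.degree_add_le _ _) (max_lt ?_ ?_)
        · rw [Polynomial.degree_X]
          norm_num
        · exact lt_of_le_of_lt Polynomial.degree_C_le (by norm_num)
      · simp only [Polynomial.eval₂_sub, Polynomial.eval₂_pow, Polynomial.eval₂_X,
          Polynomial.eval₂_C]
        have hsc : s ^ 2 = 4 * (c : K) + 1 := by
          rw [hs, hc]
          push_cast
          ring
        show ((1 + s) / 2) ^ 2 - (1 + s) / 2 - (c : K) = 0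
        linear_combination hsc / 4
    let w : 𝓞 K := ⟨(1 + s) / 2, hint⟩
    have hwK : (w : K) = (1 + s) / 2 := rfl
    have hww : w * w = ((1 : ℤ) : 𝓞 K) * w - ((-c : ℤ) : 𝓞 K) := by
      apply RingOfIntegers.ext
      show algebraMap (𝓞 K) K (w * w) = algebraMap (𝓞 K) K (((1 : ℤ) : 𝓞 K) * w - ((-c : ℤ) : 𝓞 K))
      rw [map_mul, map_sub, map_mul, map_intCast, map_intCast]
      show (w : K) * (w : K) = ((1 : ℤ) : K) * (w : K) - ((-c : ℤ) : K)
      rw [hwK]
      have hsc : s ^ 2 = 4 * (c : K) + 1 := by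
        rw [hs, hc]
        push_cast
        ring
      push_cast
      linear_combination hsc / 4
    rw [Dsc_basis K w 1 (-c) hww ?_ ?_, hc]
    · ring
    · intro q hq
      apply hirr (2 * q - 1)
      push_cast
      rw [← hq, hwK]
      ring
    · intro z
      obtain ⟨a, b, hz, hd⟩ := key z
      have h5 := (hdiv a b hd).1 h4
      obtain ⟨e, he⟩ : ∃ e, a = b + 2 * e := ⟨(a - b) / 2, by omega⟩
      refine ⟨e, b, ?_⟩
      apply RingOfIntegers.ext
      show algebraMap (𝓞 K) K z = algebraMap (𝓞 K) K ((e : 𝓞 K) + (b : 𝓞 K) * w)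
      rw [map_add, map_mul, map_intCast, map_intCast]
      show (z : K) = (e : K) + (b : K) * (w : K)
      rw [hwK]
      rw [he] at hz
      push_cast at hz
      linear_combination hz / 2
  · have hint : IsIntegral ℤ s := by
      refine ⟨Polynomial.X ^ 2 - Polynomial.C m, Polynomial.monic_X_pow_sub_C _ two_ne_zero, ?_⟩
      simp only [Polynomial.eval₂_sub, Polynomial.eval₂_pow, Polynomial.eval₂_X,
          Polynomial.eval₂_C]
      show s ^ 2 - (m : K) = 0
      rw [hs, sub_self]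
    let w : 𝓞 K := ⟨s, hint⟩
    have hwK : (w : K) = s := rfl
    have hww : w * w = ((0 : ℤ) : 𝓞 K) * w - ((-m : ℤ) : 𝓞 K) := by
      apply RingOfIntegers.ext
      show algebraMap (𝓞 K) K (w * w) = algebraMap (𝓞 K) K (((0 : ℤ) : 𝓞 K) * w - ((-m : ℤ) : 𝓞 K))
      rw [map_mul, map_sub, map_mul, map_intCast, map_intCast]
      show (w : K) * (w : K) = ((0 : ℤ) : K) * (w : K) - ((-m : ℤ) : K)
      rw [hwK]
      push_cast
      linear_combination hs
    rw [Dsc_basis K w 0 (-m) hww ?_ ?_]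
    · ring
    · intro q hq
      exact hirr q hq
    · intro z
      obtain ⟨a, b, hz, hd⟩ := key z
      obtain ⟨h5, h6⟩ := (hdiv a b hd).2 h4
      obtain ⟨e, he⟩ : ∃ e, a = 2 * e := ⟨a / 2, by omega⟩
      obtain ⟨f, hf⟩ : ∃ f, b = 2 * f := ⟨b / 2, by omega⟩
      refine ⟨e, f, ?_⟩
      apply RingOfIntegers.ext
      show algebraMap (𝓞 K) K z = algebraMap (𝓞 K) K ((e : 𝓞 K) + (f : 𝓞 K) * w)
      rw [map_add, map_mul, map_intCast, map_intCast]
      show (z : K) = (e : K) + (f : K) * (w : K)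
      rw [hwK]
      rw [he, hf] at hz
      push_cast at hz
      linear_combination hz / 2

end dscaux

/-- Quadratic fields and their discriminants. -/
theorem dsc (K : Type*) [Field K] [NumberField K] (h : Module.finrank ℚ K = 2) :
    ∃ m : ℤ, Squarefree m ∧ m ≠ 1 ∧ (∃ s : K, s ^ 2 = (m : K)) ∧
      discr K = if m % 4 = 1 then m else 4 * m := by
  obtain ⟨m, s, hm, hs, hirr⟩ := X15B.glue_sqf K h
  have h1 : m ≠ 1 := by
    rintro rfl
    have h3 : (s - 1) * (s + 1) = 0 := by
      push_cast at hs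
      linear_combination hs
    rcases mul_eq_zero.1 h3 with h4 | h4
    · exact hirr 1 (by push_cast; linear_combination h4)
    · exact hirr (-1) (by push_cast; linear_combination h4)
  exact ⟨m, hm, h1, ⟨s, hs⟩, Dsc_gen K h m hm h1 s hs⟩

/-- Existence of quadratic fields. -/
theorem dsc_ex (m : ℤ) (hm : Squarefree m) (h1 : m ≠ 1) :
    ∃ (K : Type) (_ : Field K) (_ : NumberField K), Module.finrank ℚ K = 2 ∧
      (∃ s : K, s ^ 2 = (m : K)) ∧ discr K = if m % 4 = 1 then m else 4 * m := by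
  have hirr : Irreducible (Polynomial.X ^ 2 - Polynomial.C (m : ℚ)) :=
    X_pow_sub_C_irreducible_of_prime Nat.prime_two (Dsc_irr hm h1)
  have : Fact (Irreducible (Polynomial.X ^ 2 - Polynomial.C (m : ℚ))) := ⟨hirr⟩
  have hnz : Polynomial.X ^ 2 - Polynomial.C (m : ℚ) ≠ 0 := hirr.ne_zero
  let K := AdjoinRoot (Polynomial.X ^ 2 - Polynomial.C (m : ℚ))
  have hfd : FiniteDimensional ℚ K := (AdjoinRoot.powerBasis hnz).finite
  have hchar : CharZero K := charZero_of_injective_algebraMap (algebraMap ℚ K).injective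
  have hnf : NumberField K := { to_charZero := hchar, to_finiteDimensional := hfd }
  have hfr : Module.finrank ℚ K = 2 := by
    rw [(AdjoinRoot.powerBasis hnz).finrank, AdjoinRoot.powerBasis_dim,
      Polynomial.natDegree_X_pow_sub_C]
  have hs : (AdjoinRoot.root (Polynomial.X ^ 2 - Polynomial.C (m : ℚ)) : K) ^ 2 = (m : K) := by
    have h3 := AdjoinRoot.eval₂_root (Polynomial.X ^ 2 - Polynomial.C (m : ℚ))
    rw [Polynomial.eval₂_sub, Polynomial.eval₂_pow, Polynomial.eval₂_X, Polynomial.eval₂_C,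
      sub_eq_zero] at h3
    rw [h3]
    exact map_intCast (AdjoinRoot.of _) m
  exact ⟨K, inferInstance, hnf, hfr, ⟨_, hs⟩, Dsc_gen K hfr m hm h1 _ hs⟩

end PP15
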