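import Pool.Agent.Lib.MP_87c685_nt_PP15.Mean
import Pool.Agent.Lib.MP_87c685_nt_PP15.BadC

open Finset Filter Topology

namespace PP15

/-- A rare set does not contribute to the fourth moment if the fifth moment is bounded. -/
theorem hld_aux {S F : ℕ → Finset ℕ} (P : ℕ → ℝ) (hP : ∀ n, 0 ≤ P n) (hFS : ∀ x, F x ⊆ S x) (C : ℝ)
    (h5 : ∀ x : ℕ, ∑ n ∈ S x, P n ^ 5 ≤ C * x)
    (hF : Tendsto (fun x : ℕ => ((F x).card : ℝ) / x) atTop (𝓝 0)) :
    Tendsto (fun x : ℕ => (∑ n ∈ F x, P n ^ 4) / x) atTop (𝓝 0) := by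
  have key : ∀ L : ℝ, 0 < L → ∀ x : ℕ, 0 < x → (∑ n ∈ F x, P n ^ 4) / x ≤
      L ^ 4 * (((F x).card : ℝ) / x) + C / L := by
    intro L hL x hx
    have hx' : (0 : ℝ) < x := by exact_mod_cast hx
    have h1 : ∀ n, P n ^ 4 ≤ L ^ 4 + P n ^ 5 / L := by
      intro n
      have hn := hP n
      rcases le_total (P n) L with h | h
      · have : P n ^ 4 ≤ L ^ 4 := pow_le_pow_left₀ hn h 4
        have : 0 ≤ P n ^ 5 / L := by positivity
        linarith
      · have : P n ^ 4 ≤ P n ^ 5 / L := by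
          rw [le_div_iff₀ hL, pow_succ (P n) 4]
          exact mul_le_mul_of_nonneg_left h (by positivity)
        have : 0 ≤ L ^ 4 := by positivity
        linarith
    have h2 : ∑ n ∈ F x, P n ^ 4 ≤ L ^ 4 * (F x).card + C * x / L := by
      calc ∑ n ∈ F x, P n ^ 4 ≤ ∑ n ∈ F x, (L ^ 4 + P n ^ 5 / L) := sum_le_sum fun n _ => h1 n
        _ = L ^ 4 * (F x).card + (∑ n ∈ F x, P n ^ 5) / L := by
            rw [sum_add_distrib, sum_const, nsmul_eq_mul, mul_comm, sum_div]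
        _ ≤ L ^ 4 * (F x).card + C * x / L := by
            have : ∑ n ∈ F x, P n ^ 5 ≤ C * x :=
              (sum_le_sum_of_subset_of_nonneg (hFS x) fun n _ _ => pow_nonneg (hP n) 5).trans (h5 x)
            gcongr
    calc (∑ n ∈ F x, P n ^ 4) / x ≤ (L ^ 4 * (F x).card + C * x / L) / x := by gcongr
      _ = L ^ 4 * (((F x).card : ℝ) / x) + C / L := by field_simp
  have hC : 0 ≤ C := by
    have := h5 1
    have h3 : 0 ≤ ∑ n ∈ S 1, P n ^ 5 := sum_nonneg fun n _ => pow_nonneg (hP n) 5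
    simp only [Nat.cast_one, mul_one] at this
    linarith
  rw [Metric.tendsto_atTop]
  intro ε hε
  obtain ⟨L, hL, hL2⟩ : ∃ L : ℝ, 0 < L ∧ C / L < ε / 2 := by
    refine ⟨2 * (C + 1) / ε, by positivity, ?_⟩
    rw [div_div_eq_mul_div, div_lt_div_iff₀ (by positivity) (by norm_num)]
    nlinarith
  have hF2 : Tendsto (fun x : ℕ => L ^ 4 * (((F x).card : ℝ) / x)) atTop (𝓝 0) := by
    simpa using hF.const_mul (L ^ 4)
  rw [Metric.tendsto_atTop] at hF2
  obtain ⟨N, hN⟩ := hF2 (ε / 2) (by positivity)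
  refine ⟨N + 1, fun x hx => ?_⟩
  have h1 := hN x (by omega)
  have h2 := key L hL x (by omega)
  have h3 : 0 ≤ (∑ n ∈ F x, P n ^ 4) / (x : ℝ) :=
    div_nonneg (sum_nonneg fun n _ => pow_nonneg (hP n) 4) (by positivity)
  rw [Real.dist_eq, sub_zero, abs_of_nonneg h3]
  rw [Real.dist_eq, sub_zero] at h1
  have := (abs_lt.1 h1).2
  linarith

open Classical in
/-- Bad numbers do not contribute to the moments. -/
theorem hld (B0 : Finset ℕ) (hB : B0 ⊆ {2, 3, 5}) (a : G) (h : SgnOK B0 a) :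
    Tendsto (fun x : ℕ => (∑ n ∈ (Nx a x).filter fun n => Bad (Nn B0 * n),
      ((X15B.PhiF (Nn B0 * n)).card : ℝ) ^ 4) / x) atTop (𝓝 0) := by
  obtain ⟨C, hC⟩ := mean_up 5 B0 hB a h
  exact hld_aux (S := fun x => Nx a x) (fun n => ((X15B.PhiF (Nn B0 * n)).card : ℝ))
    (fun n => Nat.cast_nonneg _) (fun x => filter_subset _ _) C hC (bad_rare B0 hB a h)

end PP15
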