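import Pool.Agent.Lib.MP_87c685_nt_PP15.Defs

open Finset

namespace PP15

namespace La1

/-- The quadratic form. -/
def q {k : ℕ} (x : I k) : ZMod 2 := x.2 ⬝ᵥ x.1

/-- The polar form. -/
noncomputable def b (k : ℕ) : LinearMap.BilinForm (ZMod 2) (I k) :=
  LinearMap.mk₂ (ZMod 2) (fun x y : I k => x.2 ⬝ᵥ y.1 + y.2 ⬝ᵥ x.1)
    (fun x x' y => by
      simp only [Prod.fst_add, Prod.snd_add, add_dotProduct, dotProduct_add]
      ring)
    (fun c x y => by
      simp only [Prod.smul_fst, Prod.smul_snd, smul_dotProduct, dotProduct_smul, smul_add])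
    (fun x y y' => by
      simp only [Prod.fst_add, Prod.snd_add, add_dotProduct, dotProduct_add]
      ring)
    (fun c x y => by
      simp only [Prod.smul_fst, Prod.smul_snd, smul_dotProduct, dotProduct_smul, smul_add])

theorem b_apply {k : ℕ} (x y : I k) : b k x y = x.2 ⬝ᵥ y.1 + y.2 ⬝ᵥ x.1 := rfl

theorem b_symm {k : ℕ} (x y : I k) : b k x y = b k y x := by
  rw [b_apply, b_apply, add_comm]

theorem two_z (x : ZMod 2) : x + x = 0 := CharTwo.add_self_eq_zero x

theorem two_I {k : ℕ} (x : I k) : x + x = 0 := by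
  have h : ∀ v : V k, v + v = 0 := fun v => funext fun i => two_z (v i)
  exact Prod.ext (h x.1) (h x.2)

theorem polar {k : ℕ} (x y : I k) : q (x + y) = q x + q y + b k x y := by
  rw [b_apply]
  simp only [q, Prod.fst_add, Prod.snd_add, add_dotProduct, dotProduct_add]
  ring

theorem ex_add {k : ℕ} (u v : I k) : ex u v + ex v u = q (u + v) := by
  simp only [ex, q, Prod.fst_add, Prod.snd_add, add_dotProduct, dotProduct_add]
  ring

theorem sep {k : ℕ} (x : I k) (h : ∀ y, b k x y = 0) : x = 0 := by
  have h1 : x.1 = 0 := by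
    funext i
    have := h (0, Pi.single i 1)
    rw [b_apply] at this
    simpa using this
  have h2 : x.2 = 0 := by
    funext i
    have := h (Pi.single i 1, 0)
    rw [b_apply] at this
    simpa using this
  exact Prod.ext h1 h2

theorem nondeg (k : ℕ) : (b k).Nondegenerate :=
  ⟨fun x h => sep x h, fun x h => sep x fun y => by rw [b_symm]; exact h y⟩

/-- Totally isotropic subsets have at most `2^k` elements. -/
theorem core {k : ℕ} (W : Finset (I k)) (h : ∀ x ∈ W, ∀ y ∈ W, b k x y = 0) :
    W.card ≤ 2 ^ k := by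
  set L : Submodule (ZMod 2) (I k) := Submodule.span (ZMod 2) (W : Set (I k)) with hL
  have h1 : ∀ x ∈ W, ∀ y ∈ L, b k y x = 0 := by
    intro x hx y hy
    refine Submodule.span_induction (p := fun y _ => b k y x = 0) ?_ ?_ ?_ ?_ hy
    · intro z hz
      exact h z hz x hx
    · simp
    · intro z z' _ _ hz hz'
      rw [map_add, LinearMap.add_apply, hz, hz', add_zero]
    · intro c z _ hz
      rw [map_smul, LinearMap.smul_apply, hz, smul_zero]
  have h2 : L ≤ (b k).orthogonal L := by
    rw [hL, Submodule.span_le, ← hL]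
    intro x hx
    exact fun y hy => h1 x hx y hy
  have h3 := Submodule.finrank_mono h2
  have h4 := LinearMap.BilinForm.finrank_orthogonal (nondeg k) L
  have h5 : Module.finrank (ZMod 2) (I k) = 2 * k := by
    rw [Module.finrank_prod, Module.finrank_pi, Fintype.card_fin, two_mul]
  have h6 : Module.finrank (ZMod 2) L ≤ k := by omega
  have h7 : Nat.card L = 2 ^ Module.finrank (ZMod 2) L := by
    rw [Module.natCard_eq_pow_finrank (K := ZMod 2), Nat.card_zmod]
  have h8 : W.card ≤ Nat.card L := by
    have h9 : (W : Set (I k)).ncard ≤ (L : Set (I k)).ncard :=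
      Set.ncard_le_ncard Submodule.subset_span (Set.toFinite _)
    rw [Set.ncard_coe_finset] at h9
    exact h9
  calc W.card ≤ Nat.card L := h8
    _ = 2 ^ Module.finrank (ZMod 2) L := h7
    _ ≤ 2 ^ k := Nat.pow_le_pow_right (by norm_num) h6

/-- The affine version. -/
theorem core' {k : ℕ} (B : Finset (I k)) (u0 : I k)
    (h : ∀ u ∈ B, ∀ v ∈ B, b k (u + u0) (v + u0) = 0) : B.card ≤ 2 ^ k := by
  classical
  have h1 : (B.image fun u => u + u0).card = B.card :=
    Finset.card_image_of_injective _ (add_left_injective u0)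
  rw [← h1]
  refine core _ ?_
  intro x hx y hy
  obtain ⟨u, hu, rfl⟩ := Finset.mem_image.mp hx
  obtain ⟨v, hv, rfl⟩ := Finset.mem_image.mp hy
  exact h u hu v hv

theorem b_shift {k : ℕ} (u v u0 : I k) :
    b k (u + u0) (v + u0) = q (u + v) + q (u + u0) + q (v + u0) := by
  have h := polar (u + u0) (v + u0)
  have h1 : u + u0 + (v + u0) = u + v := by
    have : u + u0 + (v + u0) = u + v + (u0 + u0) := by abel
    rw [this, two_I, add_zero]
  rw [h1] at h
  rw [h]
  have h2 : ∀ x y z : ZMod 2, z = x + y + z + x + y := by decide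
  exact h2 _ _ _

theorem unl_q {k : ℕ} {B : Finset (I k)} (h : Unl B) : ∀ u ∈ B, ∀ v ∈ B, q (u + v) = 0 := by
  intro u hu v hv
  rw [← ex_add, h u hu v hv, two_z]

end La1

open La1 in
/-- Unlinked sets have at most `2^k` elements. -/
theorem unl_card {k : ℕ} (B : Finset (I k)) (h : Unl B) : B.card ≤ 2 ^ k := by
  rcases B.eq_empty_or_nonempty with h0 | ⟨u0, hu0⟩
  · rw [h0]
    simp
  · refine core' B u0 ?_
    intro u hu v hv
    rw [b_shift, unl_q h u hu v hv, unl_q h u hu u0 hu0, unl_q h v hv u0 hu0]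
    simp

open La1 in
/-- An index outside a maximal unlinked set has a non constant linking with it. -/
theorem maxU_nc {k : ℕ} (B : Finset (I k)) (h : B ∈ MaxU k) (v : I k) (hv : v ∉ B) :
    ∃ u ∈ B, ∃ w ∈ B, ex u v + ex v u ≠ ex w v + ex v w := by
  classical
  have hB : B.card = 2 ^ k ∧ Unl B := by
    rw [MaxU, Finset.mem_filter, Finset.mem_powersetCard] at h
    exact ⟨h.1.2, h.2⟩
  obtain ⟨hc, hU⟩ := hB
  by_contra hcon
  push Not at hcon
  have hne : B.Nonempty := by
    rw [← Finset.card_pos, hc]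
    positivity
  obtain ⟨u0, hu0⟩ := hne
  have hq := unl_q hU
  have hcv : ∀ w ∈ B, q (w + v) = q (u0 + v) := by
    intro w hw
    rw [← ex_add, ← ex_add]
    exact hcon w hw u0 hu0
  have key : (insert v B).card ≤ 2 ^ k := by
    refine core' _ u0 ?_
    have h1 : ∀ w ∈ B, b k (w + u0) (v + u0) = 0 := by
      intro w hw
      rw [b_shift, hcv w hw, hq w hw u0 hu0, add_zero, add_comm v u0, two_z]
    intro x hx y hy
    rcases Finset.mem_insert.mp hx with rfl | hx
    · rcases Finset.mem_insert.mp hy with rfl | hy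
      · rw [b_shift, two_I]
        have : q (0 : I k) = 0 := by simp [q]
        rw [this, zero_add, two_z]
      · rw [b_symm]
        exact h1 y hy
    · rcases Finset.mem_insert.mp hy with h2 | hy
      · rw [h2]
        exact h1 x hx
      · rw [b_shift, hq x hx y hy, hq x hx u0 hu0, hq y hy u0 hu0]
        simp
  rw [Finset.card_insert_of_notMem hv, hc] at key
  omega

end PP15
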