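import Pool.Agent.Lib.MP_87c685_nt_PP15.La1

open Finset

namespace PP15

private lemma la2_two : (2 : ZMod 2) = 0 := by decide

/-- the quadratic form -/
private def la2_q {k : ℕ} (w : I k) : ZMod 2 := w.2 ⬝ᵥ w.1

private lemma la2_ex {k : ℕ} (u v : I k) : ex u v + ex v u = la2_q (u + v) := by
  unfold ex la2_q
  simp only [Prod.fst_add, Prod.snd_add, add_dotProduct, dotProduct_add]
  ring

private lemma la2_self {k : ℕ} (u : I k) : u + u = 0 := by
  ext i
  · exact CharTwo.add_self_eq_zero _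
  · exact CharTwo.add_self_eq_zero _

private lemma la2_eq_iff (a b : ZMod 2) : a = b ↔ a + b = 0 := by
  revert a b
  decide

private lemma la2_memMaxU {k : ℕ} (B : Finset (I k)) : B ∈ MaxU k ↔ B.card = 2 ^ k ∧ Unl B := by
  classical
  unfold MaxU
  rw [Finset.mem_filter, Finset.mem_powersetCard]
  exact ⟨fun h => ⟨h.1.2, h.2⟩, fun h => ⟨⟨Finset.subset_univ _, h.1⟩, h.2⟩⟩

private lemma la2_unl {k : ℕ} (B : Finset (I k)) :
    Unl B ↔ ∀ u ∈ B, ∀ v ∈ B, la2_q (u + v) = 0 := by
  unfold Unl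
  refine forall_congr' fun u => forall_congr' fun _ => forall_congr' fun v =>
    forall_congr' fun _ => ?_
  rw [la2_eq_iff, la2_ex]

private lemma la2_q4 {k : ℕ} (a b c d : I k) :
    la2_q (a + b + c + d) = la2_q (a + b) + la2_q (a + c) + la2_q (a + d) + la2_q (b + c) +
      la2_q (b + d) + la2_q (c + d) := by
  unfold la2_q
  simp only [Prod.fst_add, Prod.snd_add, add_dotProduct, dotProduct_add]
  linear_combination (-(a.2 ⬝ᵥ a.1 + b.2 ⬝ᵥ b.1 + c.2 ⬝ᵥ c.1 + d.2 ⬝ᵥ d.1)) * la2_two

/-- alternating matrices define the zero quadratic form -/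
private lemma la2_alt {k : ℕ} {β : Matrix (Fin k) (Fin k) (ZMod 2)} (hβ : β ∈ Alt k) (x : V k) :
    β.mulVec x ⬝ᵥ x = 0 := by
  obtain ⟨h1, h2⟩ := (Finset.mem_filter.1 hβ).2
  have h3 : ∀ i j, β i j = β j i := fun i j => by
    conv_lhs => rw [← h1]
    rfl
  have h4 : β.mulVec x ⬝ᵥ x = ∑ p : Fin k × Fin k, β p.1 p.2 * x p.2 * x p.1 := by
    rw [Fintype.sum_prod_type]
    unfold dotProduct Matrix.mulVec dotProduct
    refine Finset.sum_congr rfl fun i _ => ?_
    rw [Finset.sum_mul]
  rw [h4]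
  refine Finset.sum_involution (fun p _ => (p.2, p.1)) ?_ ?_ ?_ ?_
  · rintro ⟨i, j⟩ _
    show β i j * x j * x i + β j i * x i * x j = 0
    rw [h3 j i]
    linear_combination (β i j * x j * x i) * la2_two
  · rintro ⟨i, j⟩ _ hne heq
    have hij : j = i := congrArg Prod.fst heq
    subst hij
    exact hne (by show β j j * x j * x j = 0; rw [h2 j]; ring)
  · intro p _
    exact Finset.mem_univ _
  · intro p _
    rfl

private lemma la2_card_gr {k : ℕ} (y0 : V k) (β : Matrix (Fin k) (Fin k) (ZMod 2)) :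
    (gr y0 β).card = 2 ^ k := by
  unfold gr
  rw [Finset.card_image_of_injective]
  · rw [Finset.card_univ, Fintype.card_fun, ZMod.card, Fintype.card_fin]
  · intro x y h
    exact congrArg Prod.fst h

private lemma la2_mem_gr {k : ℕ} (y0 : V k) (β : Matrix (Fin k) (Fin k) (ZMod 2)) (z : I k) :
    z ∈ gr y0 β ↔ z.2 = y0 + β.mulVec z.1 := by
  unfold gr
  rw [Finset.mem_image]
  constructor
  · rintro ⟨x, _, rfl⟩
    rfl
  · intro h
    exact ⟨z.1, Finset.mem_univ _, Prod.ext rfl h.symm⟩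

private lemma la2_gr_mem {k : ℕ} (y0 : V k) {β : Matrix (Fin k) (Fin k) (ZMod 2)}
    (hβ : β ∈ Alt k) : gr y0 β ∈ MaxU k ∧ Spn (gr y0 β) := by
  constructor
  · rw [la2_memMaxU]
    refine ⟨la2_card_gr y0 β, ?_⟩
    rw [la2_unl]
    intro u hu v hv
    rw [la2_mem_gr] at hu hv
    have h1 : (u + v).2 = β.mulVec (u + v).1 := by
      rw [Prod.snd_add, Prod.fst_add, hu, hv, Matrix.mulVec_add]
      have h2 : y0 + y0 = 0 := by
        ext i
        exact CharTwo.add_self_eq_zero _
      calc y0 + β.mulVec u.1 + (y0 + β.mulVec v.1)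
          = (y0 + y0) + (β.mulVec u.1 + β.mulVec v.1) := by abel
        _ = _ := by rw [h2, zero_add]
    unfold la2_q
    rw [h1]
    exact la2_alt hβ _
  · intro a ha
    have h1 : ∃ i, a i ≠ 0 := by
      by_contra h
      push Not at h
      exact ha (funext h)
    obtain ⟨i, hi⟩ := h1
    refine ⟨(0, y0), ?_, (Pi.single i 1, y0 + β.mulVec (Pi.single i 1)), ?_, ?_⟩
    · rw [la2_mem_gr]
      simp
    · rw [la2_mem_gr]
    · show a ⬝ᵥ (0 : V k) ≠ a ⬝ᵥ Pi.single i 1
      rw [dotProduct_zero, dotProduct_single_one]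
      exact fun h => hi h.symm

private lemma la2_gr_inj {k : ℕ} {y0 y0' : V k} {β β' : Matrix (Fin k) (Fin k) (ZMod 2)}
    (h : gr y0 β = gr y0' β') : y0 = y0' ∧ β = β' := by
  have h1 : ∀ x, y0 + β.mulVec x = y0' + β'.mulVec x := by
    intro x
    have h2 : ((x, y0 + β.mulVec x) : I k) ∈ gr y0 β := by rw [la2_mem_gr]
    rw [h, la2_mem_gr] at h2
    exact h2
  have h3 : y0 = y0' := by
    have h4 := h1 0
    simpa using h4
  refine ⟨h3, ?_⟩
  subst h3
  ext i j
  have h5 := congrFun (add_left_cancel (h1 (Pi.single j 1))) i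
  simpa using h5

/-- maximal unlinked sets are affine -/
private lemma la2_closed {k : ℕ} {B : Finset (I k)} (hB : B ∈ MaxU k) {x y z : I k} (hx : x ∈ B)
    (hy : y ∈ B) (hz : z ∈ B) : x + y + z ∈ B := by
  by_contra hcon
  obtain ⟨u, hu, w, hw, hne⟩ := maxU_nc B hB _ hcon
  have hU := (la2_unl B).1 ((la2_memMaxU B).1 hB).2
  have key : ∀ u ∈ B, ex u (x + y + z) + ex (x + y + z) u = 0 := by
    intro u hu
    rw [la2_ex]
    have h1 : u + (x + y + z) = u + x + y + z := by abel
    rw [h1, la2_q4, hU u hu x hx, hU u hu y hy, hU u hu z hz, hU x hx y hy, hU x hx z hz,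
      hU y hy z hz]
    simp
  exact hne ((key u hu).trans (key w hw).symm)

private lemma la2_surj {k : ℕ} {B : Finset (I k)} (hB : B ∈ MaxU k) (hS : Spn B) :
    ∃ y0 : V k, ∃ β ∈ Alt k, gr y0 β = B := by
  classical
  have hU := (la2_unl B).1 ((la2_memMaxU B).1 hB).2
  have hcard : B.card = 2 ^ k := ((la2_memMaxU B).1 hB).1
  have hne : B.Nonempty := by
    rw [← Finset.card_pos, hcard]
    positivity
  obtain ⟨u0, hu0⟩ := hne
  have hu00 : u0 + u0 = 0 := la2_self u0
  let W : Submodule (ZMod 2) (I k) :=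
    { carrier := {w | w + u0 ∈ B}
      zero_mem' := by
        show (0 : I k) + u0 ∈ B
        rwa [zero_add]
      add_mem' := by
        intro x y hx hy
        show x + y + u0 ∈ B
        have h1 := la2_closed hB hx hy hu0
        have h2 : x + u0 + (y + u0) + u0 = x + y + u0 + (u0 + u0) := by abel
        rwa [h2, hu00, add_zero] at h1
      smul_mem' := by
        intro c x hx
        rcases (by decide : ∀ c : ZMod 2, c = 0 ∨ c = 1) c with rfl | rfl
        · show (0 : ZMod 2) • x + u0 ∈ B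
          rwa [zero_smul, zero_add]
        · show (1 : ZMod 2) • x + u0 ∈ B
          rwa [one_smul] }
  have hW : ∀ w : I k, w ∈ W ↔ w + u0 ∈ B := fun w => Iff.rfl
  have hBW : ∀ z ∈ B, z + u0 ∈ W := by
    intro z hz
    rw [hW, add_assoc, hu00, add_zero]
    exact hz
  let p : W →ₗ[ZMod 2] V k := (LinearMap.fst (ZMod 2) (V k) (V k)).comp W.subtype
  have hp : ∀ w : W, p w = (w : I k).1 := fun w => rfl
  have hsurj : Function.Surjective p := by
    rw [← LinearMap.range_eq_top]
    by_contra hlt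
    obtain ⟨f, hf0, hf⟩ := Submodule.exists_le_ker_of_lt_top _ (lt_top_iff_ne_top.2 hlt)
    let a : V k := fun i => f (fun j => if i = j then 1 else 0)
    have hfa : ∀ x, f x = a ⬝ᵥ x := by
      intro x
      rw [LinearMap.pi_apply_eq_sum_univ f x]
      refine Finset.sum_congr rfl fun i _ => ?_
      rw [smul_eq_mul, mul_comm]
    have ha : a ≠ 0 := by
      intro h0
      apply hf0
      ext x
      simp [hfa, h0]
    obtain ⟨u, hu, v, hv, huv⟩ := hS a ha
    have h1 : ∀ z ∈ B, a ⬝ᵥ z.1 = a ⬝ᵥ u0.1 := by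
      intro z hz
      have h2 : f (p ⟨z + u0, hBW z hz⟩) = 0 := hf ⟨_, rfl⟩
      rw [hfa] at h2
      have h3 : p ⟨z + u0, hBW z hz⟩ = z.1 + u0.1 := rfl
      rw [h3, dotProduct_add] at h2
      exact (la2_eq_iff _ _).2 h2
    exact huv ((h1 u hu).trans (h1 v hv).symm)
  let eB : W ≃ B :=
    { toFun := fun w => ⟨(w : I k) + u0, w.2⟩
      invFun := fun z => ⟨(z : I k) + u0, hBW z z.2⟩
      left_inv := by
        intro w
        apply Subtype.ext
        show (w : I k) + u0 + u0 = w
        rw [add_assoc, hu00, add_zero]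
      right_inv := by
        intro z
        apply Subtype.ext
        show (z : I k) + u0 + u0 = z
        rw [add_assoc, hu00, add_zero] }
  have hcW : Nat.card W = Nat.card (V k) := by
    rw [Nat.card_congr eB, Nat.card_eq_fintype_card, Nat.card_eq_fintype_card, Fintype.card_coe,
      hcard, Fintype.card_fun, ZMod.card, Fintype.card_fin]
  have hbij : Function.Bijective p := by
    have hfin : Fintype W := Fintype.ofFinite W
    rw [Fintype.bijective_iff_surjective_and_card]
    exact ⟨hsurj, by rw [← Nat.card_eq_fintype_card, ← Nat.card_eq_fintype_card, hcW]⟩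
  let e : W ≃ₗ[ZMod 2] V k := LinearEquiv.ofBijective p hbij
  let g : V k →ₗ[ZMod 2] V k :=
    ((LinearMap.snd (ZMod 2) (V k) (V k)).comp W.subtype).comp e.symm.toLinearMap
  have hgW : ∀ w ∈ W, w.2 = g w.1 := by
    intro w hw
    have h1 : e ⟨w, hw⟩ = w.1 := rfl
    show w.2 = (((e.symm w.1 : W) : I k)).2
    rw [← h1, LinearEquiv.symm_apply_apply]
  have hWg : ∀ x : V k, ((x, g x) : I k) ∈ W := by
    intro x
    have h1 : ((x, g x) : I k) = ((e.symm x : W) : I k) := by
      refine Prod.ext ?_ rfl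
      show x = ((e.symm x : W) : I k).1
      have h2 : e (e.symm x) = ((e.symm x : W) : I k).1 := rfl
      rw [← h2, LinearEquiv.apply_symm_apply]
    rw [h1]
    exact (e.symm x).2
  have hq : ∀ x : V k, g x ⬝ᵥ x = 0 := by
    intro x
    have h1 := hU _ ((hW _).1 (hWg x)) u0 hu0
    rw [add_assoc, hu00, add_zero] at h1
    exact h1
  let β : Matrix (Fin k) (Fin k) (ZMod 2) := LinearMap.toMatrix' g
  have hβ : ∀ x, β.mulVec x = g x := fun x => LinearMap.toMatrix'_mulVec g x
  have hβe : ∀ i j, β i j = g (Pi.single j 1) i := by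
    intro i j
    rw [← hβ]
    simp
  have hdiag : ∀ i, β i i = 0 := by
    intro i
    have h1 := hq (Pi.single i 1)
    rwa [dotProduct_single_one, ← hβe] at h1
  have hsym : ∀ i j, β i j = β j i := by
    intro i j
    have h1 := hq (Pi.single i 1 + Pi.single j 1)
    rw [map_add, add_dotProduct, dotProduct_add, dotProduct_add, hq, hq, zero_add, add_zero,
      dotProduct_single_one, dotProduct_single_one, ← hβe, ← hβe] at h1
    exact ((la2_eq_iff _ _).2 h1).symm
  have hAlt : β ∈ Alt k := by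
    unfold Alt
    rw [Finset.mem_filter]
    refine ⟨Finset.mem_univ _, ?_, hdiag⟩
    ext i j
    exact hsym j i
  refine ⟨u0.2 + β.mulVec u0.1, β, hAlt, ?_⟩
  symm
  refine Finset.eq_of_subset_of_card_le ?_ ?_
  · intro z hz
    rw [la2_mem_gr]
    have h1 := hgW _ (hBW z hz)
    rw [Prod.snd_add, Prod.fst_add, map_add, ← hβ, ← hβ] at h1
    have h2 : u0.2 + u0.2 = 0 := by
      ext i
      exact CharTwo.add_self_eq_zero _
    calc z.2 = z.2 + u0.2 + u0.2 := by rw [add_assoc, h2, add_zero]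
      _ = u0.2 + β.mulVec u0.1 + β.mulVec z.1 := by rw [h1]; abel
  · rw [la2_card_gr, hcard]

/-- The spanning maximal unlinked sets are the graphs of the maps `y0 + β x`, `β` alternating. -/
theorem la2 {k : ℕ} (F : Finset (I k) → ℝ) (hF : ∀ T, ¬ Spn T → F T = 0) (hk : 1 ≤ k) :
    ∑ B ∈ MaxU k, F B = ∑ y0 : V k, ∑ β ∈ Alt k, F (gr y0 β) := by
  classical
  rw [← Finset.sum_product', ← Finset.sum_filter_of_ne (p := Spn) (s := MaxU k)]
  · symm
    refine Finset.sum_bij (fun p _ => gr p.1 p.2) ?_ ?_ ?_ ?_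
    · intro p hp
      rw [Finset.mem_filter]
      exact la2_gr_mem p.1 (Finset.mem_product.1 hp).2
    · intro p _ p' _ h
      exact Prod.ext (la2_gr_inj h).1 (la2_gr_inj h).2
    · intro B hB
      rw [Finset.mem_filter] at hB
      obtain ⟨y0, β, hβ, h⟩ := la2_surj hB.1 hB.2
      exact ⟨(y0, β), Finset.mem_product.2 ⟨Finset.mem_univ _, hβ⟩, h⟩
    · intro p _
      rfl
  · intro B _ hne
    by_contra h
    exact hne (hF B h)

end PP15
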