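import Pool.Agent.Lib.MP_87c685_nt_PP15.Defs
import Pool.Agent.Lib.MP_87c685_nt_X15B.PhiLe

open Finset

namespace PP15

theorem pcl_prim (q : ℕ) (hq : q.Prime) (c n : ℤ) :
    ∀ (N : ℕ) (x y z : ℤ), z.natAbs ≤ N → z ≠ 0 → c * z ^ 2 = x ^ 2 + n * y ^ 2 →
      ∃ x y z : ℤ, c * z ^ 2 = x ^ 2 + n * y ^ 2 ∧ ¬ ((q : ℤ) ∣ x ∧ (q : ℤ) ∣ y ∧ (q : ℤ) ∣ z) := by
  intro N
  induction N with
  | zero =>
    intro x y z h hz
    exact absurd (Int.natAbs_eq_zero.mp (Nat.le_zero.mp h)) hz
  | succ N ih =>
    intro x y z h hz he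
    by_cases hd : (q : ℤ) ∣ x ∧ (q : ℤ) ∣ y ∧ (q : ℤ) ∣ z
    · obtain ⟨⟨x', rfl⟩, ⟨y', rfl⟩, ⟨z', rfl⟩⟩ := hd
      have hq0 : (q : ℤ) ≠ 0 := by exact_mod_cast hq.ne_zero
      have hz' : z' ≠ 0 := right_ne_zero_of_mul hz
      refine ih x' y' z' ?_ hz' ?_
      · rw [Int.natAbs_mul, Int.natAbs_natCast] at h
        have h1 := hq.two_le
        have h2 : 0 < z'.natAbs := Int.natAbs_pos.mpr hz'
        nlinarith
      · have h1 : (q : ℤ) ^ 2 * (c * z' ^ 2) = (q : ℤ) ^ 2 * (x' ^ 2 + n * y' ^ 2) := by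
          linear_combination he
        exact mul_left_cancel₀ (pow_ne_zero 2 hq0) h1
    · exact ⟨x, y, z, he, hd⟩

theorem pcl_leg (q : ℕ) [Fact q.Prime] (a : ℤ) (ha : ¬ (q : ℤ) ∣ a)
    (h : IsSquare (a : ZMod q)) : jacobiSym a q = 1 := by
  rw [← jacobiSym.legendreSym.to_jacobiSym]
  refine (legendreSym.eq_one_iff q ?_).mpr h
  intro h0
  exact ha ((ZMod.intCast_zmod_eq_zero_iff_dvd a q).mp h0)

/-- The elements of `Phi n` satisfy the conditions of `PhiF n`. -/
theorem pcl_mem (n : ℕ) (hn : Squarefree n) (c : ℕ) (hc : c ∈ X15B.Phi n) :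
    c.primeFactors ∈ X15B.PhiF n := by
  classical
  have hn0 : n ≠ 0 := hn.ne_zero
  obtain ⟨hcs, hcp, ⟨x0, y0, z0, hz0, he0⟩, hc3⟩ := hc
  have hc0 : c ≠ 0 := hcs.ne_zero
  have hprod : ∏ s ∈ c.primeFactors, s = c := Nat.prod_primeFactors_of_squarefree hcs
  have hprime : ∀ s ∈ c.primeFactors, s.Prime := fun s hs => Nat.prime_of_mem_primeFactors hs
  unfold X15B.PhiF
  rw [Finset.mem_filter, Finset.mem_powerset]
  constructor
  · intro p hp
    have hpp := Nat.prime_of_mem_primeFactors hp
    unfold X15B.SS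
    rw [Finset.mem_union, Finset.mem_union, Finset.mem_filter]
    rcases hcp p hpp (Nat.dvd_of_mem_primeFactors hp) with h | ⟨h, h4⟩ | ⟨h, h3⟩
    · by_cases h2 : p = 2
      · left; right
        subst h2
        rw [if_neg (by omega)]
        exact Finset.mem_singleton_self 2
      · left; left
        exact ⟨Nat.mem_primeFactors.mpr ⟨hpp, h, hn0⟩, h2⟩
    · left; right
      rw [if_neg h4, h]
      exact Finset.mem_singleton_self 2
    · right
      rw [if_pos h3, h]
      exact Finset.mem_singleton_self 5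
  · intro q hq
    unfold X15B.TT at hq
    rw [Finset.mem_union, Finset.mem_filter] at hq
    rcases hq with ⟨hq, hq2⟩ | hq
    · have hqp : q.Prime := Nat.prime_of_mem_primeFactors hq
      have hqn : q ∣ n := Nat.dvd_of_mem_primeFactors hq
      have : Fact q.Prime := ⟨hqp⟩
      obtain ⟨n', hn'⟩ := hqn
      have hqn' : ¬ q ∣ n' := by
        rintro ⟨k, hk⟩
        have h2 : q * q ∣ n := ⟨k, by rw [hn', hk]; ring⟩
        exact hqp.one_lt.ne' (Nat.isUnit_iff.mp (hn q h2))
      have hqn'Z : ¬ (q : ℤ) ∣ (n' : ℤ) := fun h => hqn' (by exact_mod_cast h)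
      have hqZ : Prime (q : ℤ) := Nat.prime_iff_prime_int.mp hqp
      have hq0 : (q : ℤ) ≠ 0 := hqZ.ne_zero
      obtain ⟨x, y, z, he, hprim⟩ := pcl_prim q hqp c n _ x0 y0 z0 le_rfl hz0 he0
      rw [hn'] at he
      push_cast at he
      by_cases hqc : q ∣ c
      · -- both
        have hqm : q ∈ c.primeFactors := Nat.mem_primeFactors.mpr ⟨hqp, hqc, hc0⟩
        obtain ⟨c', hc'⟩ := hqc
        have hqc' : ¬ q ∣ c' := by
          rintro ⟨k, hk⟩
          have h2 : q * q ∣ c := ⟨k, by rw [hc', hk]; ring⟩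
          exact hqp.one_lt.ne' (Nat.isUnit_iff.mp (hcs q h2))
        have hqc'Z : ¬ (q : ℤ) ∣ (c' : ℤ) := fun h => hqc' (by exact_mod_cast h)
        rw [hc'] at he
        push_cast at he
        have hx : (q : ℤ) ∣ x := by
          have h1 : (q : ℤ) ∣ x ^ 2 := ⟨c' * z ^ 2 - n' * y ^ 2, by linear_combination -he⟩
          exact hqZ.dvd_of_dvd_pow h1
        obtain ⟨x', hx'⟩ := hx
        have he2 : (c' : ℤ) * z ^ 2 = q * x' ^ 2 + n' * y ^ 2 := by
          have h1 : (q : ℤ) * ((c' : ℤ) * z ^ 2) = q * (q * x' ^ 2 + n' * y ^ 2) := by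
            rw [hx'] at he
            linear_combination he
          exact mul_left_cancel₀ hq0 h1
        have hy : ¬ (q : ℤ) ∣ y := by
          intro hy
          have h1 : (q : ℤ) ∣ (c' : ℤ) * z ^ 2 := by
            rw [he2]
            exact dvd_add (dvd_mul_right _ _) (dvd_mul_of_dvd_right (dvd_pow hy two_ne_zero) _)
          have h2 : (q : ℤ) ∣ z := by
            rcases hqZ.dvd_or_dvd h1 with h | h
            · exact absurd h hqc'Z
            · exact hqZ.dvd_of_dvd_pow h
          exact hprim ⟨⟨x', hx'⟩, hy, h2⟩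
        have hyZ : (y : ZMod q) ≠ 0 := fun h => hy ((ZMod.intCast_zmod_eq_zero_iff_dvd y q).mp h)
        have hnZ : (n' : ZMod q) ≠ 0 := fun h =>
          hqn' ((ZMod.natCast_eq_zero_iff n' q).mp h)
        have he3 : (c' : ZMod q) * (z : ZMod q) ^ 2 = (n' : ZMod q) * (y : ZMod q) ^ 2 := by
          have h1 := congrArg (fun t : ℤ => (t : ZMod q)) he2
          simp only [Int.cast_mul, Int.cast_pow, Int.cast_add, Int.cast_natCast,
            ZMod.natCast_self, zero_mul, zero_add] at h1
          exact h1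
        have hzZ : (z : ZMod q) ≠ 0 := by
          intro h
          rw [h] at he3
          have h1 : (n' : ZMod q) * (y : ZMod q) ^ 2 ≠ 0 := mul_ne_zero hnZ (pow_ne_zero 2 hyZ)
          apply h1
          rw [← he3]
          ring
        have hsq : IsSquare (((n' : ℤ) * (c' : ℤ) : ℤ) : ZMod q) := by
          refine ⟨(n' : ZMod q) * y / z, ?_⟩
          push_cast
          field_simp
          linear_combination he3
        have hndvd : ¬ (q : ℤ) ∣ ((n' : ℤ) * (c' : ℤ)) := by
          intro h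
          rcases hqZ.dvd_or_dvd h with h | h
          · exact hqn'Z h
          · exact hqc'Z h
        have hj := pcl_leg q _ hndvd hsq
        have hdiv : n / q = n' := by
          rw [hn']; exact Nat.mul_div_cancel_left n' hqp.pos
        have hprod' : ∏ s ∈ c.primeFactors.erase q, s = c' := by
          have h1 : q * ∏ s ∈ c.primeFactors.erase q, s = q * c' := by
            rw [Finset.mul_prod_erase c.primeFactors (fun s => s) hqm, hprod, hc']
          exact Nat.eq_of_mul_eq_mul_left hqp.pos h1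
        rw [← Finset.mul_prod_erase c.primeFactors _ hqm,
          X15B.phl_jac n q (c.primeFactors.erase q) (Finset.notMem_erase q _), hprod']
        rw [jacobiSym.mul_left] at hj
        rw [← hj]
        congr 1
        unfold X15B.ep
        rw [if_pos rfl, hdiv]
      · have hqm : q ∉ c.primeFactors := fun h => hqc (Nat.dvd_of_mem_primeFactors h)
        have hqcZ : ¬ (q : ℤ) ∣ (c : ℤ) := fun h => hqc (by exact_mod_cast h)
        rw [X15B.phl_jac n q _ hqm, hprod]
        refine pcl_leg q _ hqcZ ?_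
        have hz : ¬ (q : ℤ) ∣ z := by
          rintro ⟨z', hz'⟩
          have hx : (q : ℤ) ∣ x := by
            have h1 : (q : ℤ) ∣ x ^ 2 :=
              ⟨c * q * z' ^ 2 - n' * y ^ 2, by rw [hz'] at he; linear_combination -he⟩
            exact hqZ.dvd_of_dvd_pow h1
          obtain ⟨x', hx'⟩ := hx
          have h2 : (q : ℤ) * ((n' : ℤ) * y ^ 2) = q * (q * (c * z' ^ 2 - x' ^ 2)) := by
            rw [hz', hx'] at he
            linear_combination -he
          have h3 : (n' : ℤ) * y ^ 2 = q * (c * z' ^ 2 - x' ^ 2) := mul_left_cancel₀ hq0 h2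
          have hy : (q : ℤ) ∣ y := by
            rcases hqZ.dvd_or_dvd (⟨_, h3⟩ : (q : ℤ) ∣ (n' : ℤ) * y ^ 2) with h | h
            · exact absurd h hqn'Z
            · exact hqZ.dvd_of_dvd_pow h
          exact hprim ⟨⟨x', hx'⟩, hy, ⟨z', hz'⟩⟩
        have hzZ : (z : ZMod q) ≠ 0 := fun h => hz ((ZMod.intCast_zmod_eq_zero_iff_dvd z q).mp h)
        have he3 : (c : ZMod q) * (z : ZMod q) ^ 2 = (x : ZMod q) ^ 2 := by
          have h1 := congrArg (fun t : ℤ => (t : ZMod q)) he
          simp only [Int.cast_mul, Int.cast_pow, Int.cast_add, Int.cast_natCast,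
            ZMod.natCast_self, zero_mul, add_zero] at h1
          exact h1
        refine ⟨(x : ZMod q) / z, ?_⟩
        push_cast
        field_simp
        linear_combination he3
    · -- the prime 3
      by_cases h3 : n % 3 = 1
      · rw [if_pos h3, Finset.mem_singleton] at hq
        subst hq
        have h3m : 3 ∉ c.primeFactors := by
          intro h
          rcases hcp 3 (by norm_num) (Nat.dvd_of_mem_primeFactors h) with h' | h' | h'
          · omega
          · omega
          · omega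
        rw [X15B.phl_jac n 3 _ h3m, hprod]
        have h5 : jacobiSym (c : ℤ) 3 = jacobiSym ((c : ℤ) % 3) 3 := by
          exact_mod_cast jacobiSym.mod_left (c : ℤ) 3
        have h6 : (c : ℤ) % 3 = 1 := by
          have := hc3 h3
          omega
        rw [h5, h6, jacobiSym.one_left]
      · rw [if_neg h3] at hq
        exact absurd hq (Finset.notMem_empty _)

/-- The elements of `Phi n` satisfy the conditions of `PhiF n`. -/
theorem card_Phi_le (n : ℕ) (hn : Squarefree n) (hs : Sgn n) :
    Nat.card (X15B.Phi n) ≤ (X15B.PhiF n).card := by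
  classical
  let f : X15B.Phi n → X15B.PhiF n := fun c => ⟨(c : ℕ).primeFactors, pcl_mem n hn c c.2⟩
  have hf : Function.Injective f := by
    intro a b hab
    have h1 : (a : ℕ).primeFactors = (b : ℕ).primeFactors := congrArg Subtype.val hab
    apply Subtype.ext
    rw [← Nat.prod_primeFactors_of_squarefree a.2.1, h1, Nat.prod_primeFactors_of_squarefree b.2.1]
  have h := Nat.card_le_card_of_injective f hf
  rwa [Nat.card_eq_fintype_card (α := X15B.PhiF n), Fintype.card_coe] at h

end PP15
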