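import Pool.Agent.Lib.MP_87c685_nt_PP15.Den
import Pool.Agent.Lib.MP_87c685_nt_PP15.Phi
import Pool.Agent.Lib.MP_87c685_nt_PP15.Dsc
import Pool.Agent.Lib.MP_87c685_nt_X15B.Main

open Finset NumberField

namespace PP15

/-- `-d` is the discriminant of a quadratic number field. -/
def IsDisc (d : ℕ) : Prop :=
  ∃ (K : Type) (_ : Field K) (_ : NumberField K), Module.finrank ℚ K = 2 ∧
    NumberField.discr K = -(d : ℤ)

/-- `-d` is the discriminant of a quadratic number field `K`, and `X_0(15)(K)` is finite. -/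
def FiniteX (d : ℕ) : Prop :=
  IsDisc d ∧ ∀ (K : Type) [Field K] [NumberField K], Module.finrank ℚ K = 2 →
    NumberField.discr K = -(d : ℤ) →
    Finite (⟨1, 1, 1, -10, -10⟩ : WeierstrassCurve K).toAffine.Point

theorem Main_disc_inj (n n' : ℕ) (h : disc n = disc n') : n = n' := by
  unfold disc at h
  split_ifs at h with h1 h2 h2
  · exact h
  · omega
  · omega
  · omega

theorem Main_le_disc (n : ℕ) : n ≤ disc n := by
  unfold disc
  split_ifs <;> omega

theorem Main_field (K : Type) [Field K] [NumberField K] (h2 : Module.finrank ℚ K = 2) (d : ℕ)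
    (hd : 1 ≤ d) (h : discr K = -(d : ℤ)) :
    ∃ n : ℕ, Squarefree n ∧ (∃ s : K, s ^ 2 = -(n : K)) ∧ d = disc n ∧ 1 ≤ n := by
  obtain ⟨m, hm, hm1, ⟨s, hs⟩, hdis⟩ := dsc K h2
  have hneg : m < 0 := by
    rw [h] at hdis
    split_ifs at hdis <;> omega
  refine ⟨m.natAbs, Int.squarefree_natAbs.2 hm, ⟨s, ?_⟩, ?_, ?_⟩
  · have h3 : m = -(m.natAbs : ℤ) := by omega
    rw [hs]
    have h4 : ((m : ℤ) : K) = ((-(m.natAbs : ℤ) : ℤ) : K) := by rw [← h3]
    rw [h4, Int.cast_neg, Int.cast_natCast]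
  · unfold disc
    rw [h] at hdis
    split_ifs at hdis ⊢ <;> omega
  · omega

theorem Main_isDisc (n : ℕ) (hn : Squarefree n) (h1 : 1 ≤ n) : IsDisc (disc n) := by
  have hsq : Squarefree (-(n : ℤ)) := by
    rw [← Int.squarefree_natAbs]
    simpa using hn
  obtain ⟨K, hF, hN, h2, _, hdis⟩ := dsc_ex (-(n : ℤ)) hsq (by omega)
  refine ⟨K, hF, hN, h2, ?_⟩
  rw [hdis]
  unfold disc
  split_ifs <;> push_cast <;> omega

theorem Main_finite (n : ℕ) (hn : Squarefree n) (h1 : 1 ≤ n) (hs : Sgn n)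
    (hc : (X15B.PhiF n).card ≤ 2) : FiniteX (disc n) := by
  refine ⟨Main_isDisc n hn h1, ?_⟩
  intro K _ _ h2 hd
  have hd1 : 1 ≤ disc n := h1.trans (Main_le_disc n)
  obtain ⟨n', hn', ⟨s, hs'⟩, hdn, _⟩ := Main_field K h2 (disc n) hd1 hd
  have : n = n' := Main_disc_inj n n' hdn
  subst this
  exact (X15B.main n hn hs K h2 s hs').2.2.2 ((card_Phi_le n hn hs).trans hc)

open Classical in
theorem main : ∃ x0 : ℕ, ∀ x ≥ x0,
    3 * ((Icc 1 x).filter IsDisc).card ≤ 20 * ((Icc 1 x).filter FiniteX).card := by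
  obtain ⟨x0, hx0⟩ := density
  refine ⟨x0, fun x hx => ?_⟩
  have h0 := hx0 x hx
  have hA : ((Icc 1 x).filter IsDisc).card ≤
      ((Icc 1 x).filter fun n => Squarefree n ∧ disc n ≤ x ∧ True).card := by
    have hsub : (Icc 1 x).filter IsDisc ⊆
        ((Icc 1 x).filter fun n => Squarefree n ∧ disc n ≤ x ∧ True).image disc := by
      intro d hd
      rw [Finset.mem_filter, Finset.mem_Icc] at hd
      obtain ⟨⟨hd1, hdx⟩, K, _, _, h2, hdis⟩ := hd
      obtain ⟨n, hn, _, hdn, hn1⟩ := Main_field K h2 d hd1 hdis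
      rw [Finset.mem_image]
      refine ⟨n, ?_, hdn.symm⟩
      rw [Finset.mem_filter, Finset.mem_Icc]
      have := Main_le_disc n
      refine ⟨⟨hn1, ?_⟩, hn, ?_, trivial⟩ <;> omega
    exact (Finset.card_le_card hsub).trans Finset.card_image_le
  have hB : ((Icc 1 x).filter fun n => Squarefree n ∧ disc n ≤ x ∧
        (Sgn n ∧ (X15B.PhiF n).card ≤ 2)).card ≤ ((Icc 1 x).filter FiniteX).card := by
    refine Finset.card_le_card_of_injOn disc ?_ ?_
    · intro n hn
      rw [Finset.mem_coe, Finset.mem_filter, Finset.mem_Icc] at hn ⊢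
      obtain ⟨⟨hn1, _⟩, hsq, hdx, hs, hc⟩ := hn
      exact ⟨⟨hn1.trans (Main_le_disc n), hdx⟩, Main_finite n hsq hn1 hs hc⟩
    · intro n _ n' _ h
      exact Main_disc_inj n n' h
  exact (Nat.mul_le_mul_left 3 hA).trans (h0.trans (Nat.mul_le_mul_left 20 hB))

end PP15
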