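import Pool.Agent.Lib.MP_87c685_nt_PP15.Cnv
import Pool.Agent.Lib.MP_87c685_nt_PP15.MF
import Pool.Agent.Lib.MP_87c685_nt_PP15.La1

open Finset

namespace PP15

private lemma Mfs_par (a b : ZMod 2) :
    ((if a = 1 then 1 else 0) + (if b = 1 then 1 else 0) : ℕ) % 2 = 0 ↔ b = a := by
  revert a b
  decide

private lemma Mfs_par2 (a b c d : ZMod 2) (h : a + b ≠ c + d) :
    ((if a = 1 then 1 else 0) + (if b = 1 then 1 else 0) : ℕ) % 2 ≠
      ((if c = 1 then 1 else 0) + (if d = 1 then 1 else 0) : ℕ) % 2 := by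
  revert a b c d
  decide

private lemma Mfs_ex_self {k : ℕ} (v : I k) : ex v v = 0 := by
  unfold ex
  have h : v.1 + v.1 = 0 := by
    funext i
    exact CharTwo.add_self_eq_zero _
  rw [h, dotProduct_zero]

/-- The unlinked sets of `PPA` and of `PP15` agree. -/
theorem unl_iff {k : ℕ} (U : Finset (I k)) : PPA.Unlinked (ph k) U ↔ Unl U := by
  unfold PPA.Unlinked Unl ph
  constructor
  · intro h u hu v hv
    exact (Mfs_par _ _).1 (h u hu v hv)
  · intro h u hu v hv
    exact (Mfs_par _ _).2 (h u hu v hv)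

/-- The hypotheses of the interface theorem. -/
theorem ph_hyp (k : ℕ) : (∀ v w, ph k v w ≤ 1) ∧ (∀ v, ph k v v = 0) ∧
    (∀ U : Finset (I k), PPA.Unlinked (ph k) U → U.card ≤ 2 ^ k) ∧
    (∀ U : Finset (I k), PPA.Unlinked (ph k) U → U.card = 2 ^ k → ∀ v ∉ U, ∃ u ∈ U, ∃ w ∈ U,
      (ph k v u + ph k u v) % 2 ≠ (ph k v w + ph k w v) % 2) := by
  classical
  refine ⟨fun v w => ?_, fun v => ?_, fun U hU => unl_card U ((unl_iff U).1 hU),
    fun U hU hc v hv => ?_⟩
  · unfold ph
    split_ifs <;> omega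
  · unfold ph
    rw [Mfs_ex_self, if_neg (by decide)]
  · have hM : U ∈ MaxU k := by
      unfold MaxU
      rw [mem_filter, mem_powersetCard]
      exact ⟨⟨subset_univ _, hc⟩, (unl_iff U).1 hU⟩
    obtain ⟨u, hu, w, hw, h⟩ := maxU_nc U hM v hv
    exact ⟨u, hu, w, hw, Mfs_par2 _ _ _ _ h⟩

private lemma Mfs_ix_inj {k : ℕ} {u v : I k} (h : ix u = ix v) : u = v := by
  unfold ix at h
  exact (Fintype.equivFin (I k)).injective (Fin.ext h)

/-- halving a symmetric double sum -/
private lemma Mfs_half {k : ℕ} (U : Finset (I k)) (t : I k → I k → ℕ)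
    (hs : ∀ u ∈ U, ∀ v ∈ U, t u v = t v u) (h0 : ∀ u, t u u = 0) :
    (∑ v ∈ U, ∑ w ∈ U, t v w) / 2 = ∑ v ∈ U, ∑ w ∈ U, if ix v < ix w then t v w else 0 := by
  have h1 : ∑ v ∈ U, ∑ w ∈ U, t v w =
      (∑ v ∈ U, ∑ w ∈ U, if ix v < ix w then t v w else 0) +
        ∑ v ∈ U, ∑ w ∈ U, if ix w < ix v then t v w else 0 := by
    rw [← sum_add_distrib]
    refine sum_congr rfl fun v _ => ?_
    rw [← sum_add_distrib]
    refine sum_congr rfl fun w _ => ?_
    rcases lt_trichotomy (ix v) (ix w) with h | h | h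
    · rw [if_pos h, if_neg (by omega), add_zero]
    · have : v = w := Mfs_ix_inj h
      subst this
      simp [h0]
    · rw [if_neg (by omega), if_pos h, zero_add]
  have h2 : ∑ v ∈ U, ∑ w ∈ U, (if ix w < ix v then t v w else 0) =
      ∑ v ∈ U, ∑ w ∈ U, if ix v < ix w then t v w else 0 := by
    rw [sum_comm]
    refine sum_congr rfl fun v hv => sum_congr rfl fun w hw => ?_
    rw [hs w hw v hv]
  rw [h1, h2]
  omega

private lemma Mfs_cv0 (s : Fin 4 → ℤ) : cv s 0 = 1 ↔ s 0 = -1 := by
  show (if s 0 = -1 then (1 : ZMod 2) else 0) = 1 ↔ _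
  split_ifs with h
  · simp [h]
  · simp [h]

/-- the sign of `PPA` is the sign of `PP15` -/
private lemma Mfs_sgn {k : ℕ} (U : Finset (I k)) (hU : Unl U) (s : I k → Fin 4 → ℤ) :
    ((PPA.FU (ph k) 0 U s : ℤ) : ℝ) = sgn U (fun v => cv (s v)) := by
  have h1 : PPA.FU (ph k) 0 U s =
      (-1) ^ (∑ v ∈ U, ∑ w ∈ U, if ix v < ix w then
        ph k v w * PPA.neg1 (s v) * PPA.neg1 (s w) else 0) := by
    unfold PPA.FU
    rw [Mfs_half U (fun v w => ph k v w * PPA.neg1 (s v) * PPA.neg1 (s w))]
    · simp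
    · intro u hu v hv
      have : ph k u v = ph k v u := by
        unfold ph
        rw [hU u hu v hv]
      show ph k u v * PPA.neg1 (s u) * PPA.neg1 (s v) = ph k v u * PPA.neg1 (s v) * PPA.neg1 (s u)
      rw [this]
      ring
    · intro u
      have : ph k u u = 0 := (ph_hyp k).2.1 u
      show ph k u u * PPA.neg1 (s u) * PPA.neg1 (s u) = 0
      rw [this]
      ring
  rw [h1]
  unfold sgn
  push_cast
  rw [← prod_pow_eq_pow_sum]
  refine prod_congr rfl fun v hv => ?_
  rw [← prod_pow_eq_pow_sum]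
  refine prod_congr rfl fun w hw => ?_
  have h2 : ph k v w = if ex v w = 1 then 1 else 0 := by
    unfold ph
    rw [hU w hw v hv]
  have h3 : ∀ x : I k, PPA.neg1 (s x) = if cv (s x) 0 = 1 then 1 else 0 := by
    intro x
    unfold PPA.neg1
    by_cases h : s x 0 = -1
    · rw [if_pos h, if_pos ((Mfs_cv0 _).2 h)]
    · rw [if_neg h, if_neg (fun h' => h ((Mfs_cv0 _).1 h'))]
  rw [h2, h3 v, h3 w]
  by_cases a1 : ix v < ix w <;> by_cases a2 : ex v w = 1 <;> by_cases a3 : cv (s v) 0 = 1 <;>
    by_cases a4 : cv (s w) 0 = 1 <;> simp [a1, a2, a3, a4]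

open Classical in
private lemma Mfs_card_fibre {k : ℕ} (U : Finset (I k)) (u0 : I k) (hu0 : u0 ∈ U) (a b : G) :
    ((gB U).filter fun g => ∑ u, g u = a).card ≤ ((gB U).filter fun g => ∑ u, g u = b).card := by
  refine card_le_card_of_injOn (fun g => g + (Pi.single u0 (b - a) : I k → G)) ?_ ?_
  · intro g hg
    rw [mem_coe, mem_filter] at hg
    rw [mem_coe, mem_filter]
    refine ⟨?_, ?_⟩
    · unfold gB at hg ⊢
      rw [Fintype.mem_piFinset] at hg ⊢
      intro v
      have h1 := hg.1 v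
      by_cases hv : v ∈ U
      · rw [if_pos hv]
        exact mem_univ _
      · rw [if_neg hv] at h1 ⊢
        rw [mem_singleton] at h1 ⊢
        have : v ≠ u0 := by
          rintro rfl
          exact hv hu0
        show g v + (Pi.single u0 (b - a) : I k → G) v = 0
        rw [h1, Pi.single_eq_of_ne this, add_zero]
    · show ∑ u, (g u + (Pi.single u0 (b - a) : I k → G) u) = b
      rw [sum_add_distrib, hg.2, sum_pi_single']
      simp
  · intro g _ g' _ h
    exact add_right_cancel h

open Classical in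
private lemma Mfs_card {k : ℕ} (U : Finset (I k)) (hU : U.card = 2 ^ k) (a : G) :
    (16 : ℝ) * ((gB U).filter fun g => ∑ u, g u = a).card = 16 ^ (2 ^ k) := by
  have hne : U.Nonempty := by
    rw [← card_pos, hU]
    positivity
  obtain ⟨u0, hu0⟩ := hne
  have h1 : (gB U).card = ∑ b ∈ (univ : Finset G), ((gB U).filter fun g => ∑ u, g u = b).card :=
    card_eq_sum_card_fiberwise (fun g _ => mem_univ _)
  have h2 : ∀ b : G, ((gB U).filter fun g => ∑ u, g u = b).card =
      ((gB U).filter fun g => ∑ u, g u = a).card := fun b =>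
    le_antisymm (Mfs_card_fibre U u0 hu0 b a) (Mfs_card_fibre U u0 hu0 a b)
  have h3 : (gB U).card = 16 ^ (2 ^ k) := by
    unfold gB
    rw [Fintype.card_piFinset]
    have h4 : ∀ u : I k, (if u ∈ U then (univ : Finset G) else {0}).card =
        if u ∈ U then 16 else 1 := by
      intro u
      split_ifs
      · rw [card_univ]
        simp [G]
      · exact card_singleton _
    rw [prod_congr rfl fun u _ => h4 u, prod_ite_mem, univ_inter, prod_const, hU]
  have h5 : (univ : Finset G).card = 16 := by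
    rw [card_univ]
    simp [G]
  have h6 : 16 ^ (2 ^ k) = 16 * ((gB U).filter fun g => ∑ u, g u = a).card := by
    rw [← h3, h1, sum_congr rfl fun b _ => h2 b, sum_const, h5, smul_eq_mul]
  exact_mod_cast h6.symm

open Classical in
/-- The mean values of `PPA` and of `PP15` agree. -/
theorem mf_avg {k : ℕ} (a : G) (f : (I k → G) → Finset (I k) → ℝ)
    (hf : ∀ g T, ∑ u, g u ≠ a → f g T = 0) (U : Finset (I k)) (hU : U ∈ MaxU k) :
    MF (ph k) (vc a) (fun s T => f (fun v => cv (s v)) T) U = 16 * avg k U f := by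
  unfold MaxU at hU
  rw [mem_filter, mem_powersetCard] at hU
  obtain ⟨⟨-, hcard⟩, hUnl⟩ := hU
  have vinj : ∀ g g' : G, vc g = vc g' → g = g' := fun g g' h => by
    rw [← cv_vc g, h, cv_vc]
  have vc0 : vc 0 = 1 := by
    have := vc_sum (∅ : Finset ℕ) (fun _ => (0 : G))
    simpa using this
  have cv1 : cv 1 = 0 := by
    rw [← vc0, cv_vc]
  -- membership
  have hto : ∀ s ∈ PPA.SU U (vc a), (fun v => cv (s v)) ∈ (gB U).filter fun g => ∑ u, g u = a := by
    intro s hs
    unfold PPA.SU at hs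
    rw [mem_filter, Fintype.mem_piFinset] at hs
    rw [mem_filter]
    have hSV : ∀ v, s v ∈ PPA.SV := by
      intro v
      have h1 := hs.1 v
      by_cases hv : v ∈ U
      · rwa [if_pos hv] at h1
      · rw [if_neg hv, mem_singleton] at h1
        rw [h1, ← vc0]
        exact vc_mem 0
    refine ⟨?_, ?_⟩
    · unfold gB
      rw [Fintype.mem_piFinset]
      intro v
      by_cases hv : v ∈ U
      · rw [if_pos hv]
        exact mem_univ _
      · have h1 := hs.1 v
        rw [if_neg hv, mem_singleton] at h1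
        rw [if_neg hv, mem_singleton, h1, cv1]
    · apply vinj
      rw [vc_sum, ← hs.2]
      exact prod_congr rfl fun v _ => vc_cv _ (hSV v)
  have hfrom : ∀ g ∈ (gB U).filter (fun g => ∑ u, g u = a), (fun v => vc (g v)) ∈
      PPA.SU U (vc a) := by
    intro g hg
    rw [mem_filter] at hg
    unfold gB at hg
    rw [Fintype.mem_piFinset] at hg
    unfold PPA.SU
    rw [mem_filter, Fintype.mem_piFinset]
    refine ⟨fun v => ?_, ?_⟩
    · have h1 := hg.1 v
      by_cases hv : v ∈ U
      · rw [if_pos hv]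
        exact vc_mem _
      · rw [if_neg hv, mem_singleton] at h1
        rw [if_neg hv, mem_singleton, h1, vc0]
    · rw [← hg.2, vc_sum]
  have hleft : ∀ s ∈ PPA.SU U (vc a), (fun v => vc (cv (s v))) = s := by
    intro s hs
    unfold PPA.SU at hs
    rw [mem_filter, Fintype.mem_piFinset] at hs
    funext v
    apply vc_cv
    have h1 := hs.1 v
    by_cases hv : v ∈ U
    · rwa [if_pos hv] at h1
    · rw [if_neg hv, mem_singleton] at h1
      rw [h1, ← vc0]
      exact vc_mem 0
  have hsum : ∑ s ∈ PPA.SU U (vc a), f (fun v => cv (s v)) U * (PPA.FU (ph k) 0 U s : ℝ) =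
      ∑ g ∈ (gB U).filter (fun g => ∑ u, g u = a), f g U * sgn U g := by
    refine sum_bij' (fun s _ v => cv (s v)) (fun g _ v => vc (g v)) hto hfrom hleft ?_ ?_
    · intro g _
      funext v
      exact cv_vc _
    · intro s _
      rw [Mfs_sgn U hUnl s]
  have hcd : (PPA.SU U (vc a)).card = ((gB U).filter fun g => ∑ u, g u = a).card :=
    card_bij' (fun s _ v => cv (s v)) (fun g _ v => vc (g v)) hto hfrom hleft
      (fun g _ => funext fun v => cv_vc _)
  have h16 := Mfs_card U hcard a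
  have hfull : ∑ g ∈ gB U, f g U * sgn U g =
      ∑ g ∈ (gB U).filter (fun g => ∑ u, g u = a), f g U * sgn U g := by
    rw [sum_filter]
    refine sum_congr rfl fun g _ => ?_
    split_ifs with h
    · rfl
    · rw [hf g U h, zero_mul]
  unfold MF avg
  rw [hfull, hcd]
  have hpos : ((16 : ℝ)) ^ (2 ^ k) ≠ 0 := by positivity
  have hc : ((((gB U).filter fun g => ∑ u, g u = a).card : ℕ) : ℝ) ≠ 0 := by
    intro h
    rw [h, mul_zero] at h16
    exact hpos h16.symm
  rw [div_eq_iff hc]
  calc _ = ∑ g ∈ (gB U).filter (fun g => ∑ u, g u = a), f g U * sgn U g := hsum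
    _ = _ := by
      rw [one_div, inv_pow, ← h16]
      field_simp

end PP15
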