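import Pool.Agent.Lib.MP_87c685_nt_PP15.Defs

open Finset

namespace PP15

/-- The character of the pair `(c, γ)`. -/
noncomputable def schar (B0 : Finset ℕ) (a : G) (c : Finset ℕ) (γ : G) : ℝ :=
  sg (lam c ⬝ᵥ a + lam B0 ⬝ᵥ γ + (a 0 + 1) * γ 0)

namespace Mt3

/-- the integral sign -/
def sgi (t : ZMod 2) : ℤ := if t = 0 then 1 else -1

theorem sg_eq (t : ZMod 2) : sg t = ((sgi t : ℤ) : ℝ) := by
  unfold sg sgi
  split_ifs <;> simp

/-- the integral character -/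
def schi (B0 : Finset ℕ) (a : G) (c : Finset ℕ) (γ : G) : ℤ :=
  sgi (lam c ⬝ᵥ a + lam B0 ⬝ᵥ γ + (a 0 + 1) * γ 0)

/-- the integral sum -/
def tot (B0 : Finset ℕ) (a : G) : ℤ :=
  ∑ c ∈ (small B0 a).powerset, ∑ γ : G, (if LL B0 a c γ then 1 + schi B0 a c γ else 0)

set_option maxRecDepth 100000 in
theorem check : ∀ B0 ∈ ({2, 3, 5} : Finset ℕ).powerset, ∀ a : G, SgnOK B0 a → tot B0 a = 32 := by
  decide +kernel

end Mt3

open Classical in
/-- The finite check. -/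
theorem mt3 (B0 : Finset ℕ) (hB : B0 ⊆ {2, 3, 5}) (a : G) (h : SgnOK B0 a) :
    ∑ c ∈ (small B0 a).powerset, ∑ γ : G,
      (if LL B0 a c γ then 1 + schar B0 a c γ else 0) = (32 : ℝ) := by
  have h1 := Mt3.check B0 (mem_powerset.mpr hB) a h
  have h2 : ((Mt3.tot B0 a : ℤ) : ℝ) = 32 := by rw [h1]; norm_num
  rw [← h2]
  unfold Mt3.tot
  rw [Int.cast_sum]
  refine sum_congr rfl fun c _ => ?_
  rw [Int.cast_sum]
  refine sum_congr rfl fun γ _ => ?_
  unfold schar Mt3.schi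
  rw [Mt3.sg_eq]
  by_cases hL : LL B0 a c γ
  · rw [if_pos hL, if_pos hL]
    push_cast
    rfl
  · rw [if_neg hL, if_neg hL, Int.cast_zero]

end PP15
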