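import Pool.Agent.Lib.MP_87c685_nt_PP15.Mt2
import Pool.Agent.Lib.MP_87c685_nt_PP15.Mt3
import Pool.Agent.Lib.MP_87c685_nt_PP15.Bas1

open Finset

namespace PP15

theorem Mt4_mem {k : ℕ} (y0 : V k) (u : I k) : u ∈ gr y0 0 ↔ u.2 = y0 := by
  unfold gr
  rw [mem_image]
  constructor
  · rintro ⟨x, _, rfl⟩
    show y0 + (0 : Matrix (Fin k) (Fin k) (ZMod 2)).mulVec x = y0
    rw [Matrix.zero_mulVec, add_zero]
  · intro h
    refine ⟨u.1, mem_univ _, ?_⟩
    rw [Matrix.zero_mulVec, add_zero, ← h]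

theorem Mt4_spn {k : ℕ} (y0 : V k) : Spn (gr y0 0) := by
  intro a ha
  have h1 : ∃ i, a i ≠ 0 := by
    by_contra h
    push Not at h
    exact ha (funext h)
  obtain ⟨i, hi⟩ := h1
  refine ⟨(0, y0), (Mt4_mem y0 _).2 rfl, (Pi.single i 1, y0), (Mt4_mem y0 _).2 rfl, ?_⟩
  show a ⬝ᵥ (0 : V k) ≠ a ⬝ᵥ (Pi.single i 1 : V k)
  rw [dotProduct_zero, dotProduct_single, mul_one]
  exact hi.symm

/-- The extension of a function to the index set. -/
def Mt4_ext {k : ℕ} (y0 : V k) (h : V k → G) (u : I k) : G := if u.2 = y0 then h u.1 else 0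

theorem Mt4_reindex {k : ℕ} (y0 : V k) (F : (I k → G) → ℝ) :
    ∑ g ∈ gB (gr y0 0), F g = ∑ h : V k → G, F (Mt4_ext y0 h) := by
  classical
  refine Finset.sum_bij' (fun g _ => fun x => g (x, y0)) (fun h _ => Mt4_ext y0 h)
    (fun g _ => mem_univ _) ?_ ?_ ?_ ?_
  · intro h _
    unfold gB
    rw [Fintype.mem_piFinset]
    intro u
    by_cases hu : u.2 = y0
    · rw [if_pos ((Mt4_mem y0 u).2 hu)]
      exact mem_univ _
    · rw [if_neg (fun h' => hu ((Mt4_mem y0 u).1 h')), mem_singleton]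
      exact if_neg hu
  · intro g hg
    unfold gB at hg
    rw [Fintype.mem_piFinset] at hg
    funext u
    unfold Mt4_ext
    by_cases hu : u.2 = y0
    · rw [if_pos hu, ← hu]
    · rw [if_neg hu]
      have h1 := hg u
      rw [if_neg (fun h' => hu ((Mt4_mem y0 u).1 h')), mem_singleton] at h1
      exact h1.symm
  · intro h _
    funext x
    unfold Mt4_ext
    exact if_pos rfl
  · intro g hg
    unfold gB at hg
    rw [Fintype.mem_piFinset] at hg
    congr 1
    funext u
    unfold Mt4_ext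
    by_cases hu : u.2 = y0
    · rw [if_pos hu, ← hu]
    · rw [if_neg hu]
      have h1 := hg u
      rw [if_neg (fun h' => hu ((Mt4_mem y0 u).1 h')), mem_singleton] at h1
      exact h1

theorem Mt4_sum {k : ℕ} (y0 : V k) {M : Type} [AddCommMonoid M] (f : I k → M)
    (hf : ∀ u, u.2 ≠ y0 → f u = 0) : ∑ u, f u = ∑ x, f (x, y0) := by
  rw [Fintype.sum_prod_type]
  refine Finset.sum_congr rfl fun x _ => ?_
  rw [Finset.sum_eq_single y0]
  · intro y _ hy
    exact hf _ hy
  · intro h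
    exact absurd (mem_univ _) h

theorem Mt4_one {k : ℕ} (x : V k) (i : Fin k) (h : G) :
    (if x i = 1 then h else 0) = x i • h := by
  have h1 : ∀ t : ZMod 2, t = 0 ∨ t = 1 := by decide
  rcases h1 (x i) with h2 | h2
  · rw [h2, if_neg (by decide), zero_smul]
  · rw [h2, if_pos rfl, one_smul]

/-- `∑ (x . y0) h_x = ∑ y0_i γ_i` -/
theorem Mt4_gam {k : ℕ} (y0 : V k) (h : V k → G) :
    ∑ x, (x ⬝ᵥ y0) • h x = ∑ i, y0 i • ∑ x : V k, if x i = 1 then h x else 0 := by
  simp only [Mt4_one, dotProduct, Finset.sum_smul, Finset.smul_sum]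
  rw [Finset.sum_comm]
  refine Finset.sum_congr rfl fun i _ => Finset.sum_congr rfl fun x _ => ?_
  rw [smul_smul, mul_comm]

theorem Mt4_quad {ι : Type} [Fintype ι] (ix : ι → ℕ) (hix : Function.Injective ix)
    (s t : ι → ZMod 2) :
    (∑ x, ∑ y, if ix x < ix y then (s x + s y) * t x * t y else 0) =
      (∑ x, s x * t x) * (∑ x, t x) + ∑ x, s x * t x := by
  classical
  have hz : ∀ a : ZMod 2, a * a = a := by decide
  have h1 : (∑ x, s x * t x) * (∑ x, t x) =
      ∑ x, ∑ y, s x * t x * t y := by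
    rw [Finset.sum_mul]
    exact Finset.sum_congr rfl fun x _ => Finset.mul_sum _ _ _
  have h2 : ∀ x y, s x * t x * t y = (if ix x < ix y then s x * t x * t y else 0) +
      (if ix y < ix x then s x * t x * t y else 0) + (if x = y then s x * t x * t y else 0) := by
    intro x y
    rcases lt_trichotomy (ix x) (ix y) with h | h | h
    · have hxy : x ≠ y := fun e => by rw [e] at h; exact lt_irrefl _ h
      rw [if_pos h, if_neg (not_lt.2 h.le), if_neg hxy, add_zero, add_zero]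
    · have hxy : x = y := hix h
      rw [if_neg (not_lt.2 h.ge), if_neg (not_lt.2 h.le), if_pos hxy, zero_add, zero_add]
    · have hxy : x ≠ y := fun e => by rw [e] at h; exact lt_irrefl _ h
      rw [if_neg (not_lt.2 h.le), if_pos h, if_neg hxy, zero_add, add_zero]
  have h3 : ∑ x, ∑ y, (if x = y then s x * t x * t y else 0) = ∑ x, s x * t x := by
    refine Finset.sum_congr rfl fun x _ => ?_
    rw [Finset.sum_ite_eq, if_pos (mem_univ _), mul_assoc, hz]
  have h4 : ∑ x, ∑ y, (if ix y < ix x then s x * t x * t y else 0) =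
      ∑ x, ∑ y, (if ix x < ix y then s y * t x * t y else 0) := by
    rw [Finset.sum_comm]
    refine Finset.sum_congr rfl fun x _ => Finset.sum_congr rfl fun y _ => ?_
    split_ifs
    · ring
    · rfl
  have h6 : ∑ x, ∑ y, s x * t x * t y = (∑ x, ∑ y, if ix x < ix y then s x * t x * t y else 0) +
      (∑ x, ∑ y, if ix y < ix x then s x * t x * t y else 0) +
      (∑ x, ∑ y, if x = y then s x * t x * t y else 0) := by
    rw [← Finset.sum_add_distrib, ← Finset.sum_add_distrib]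
    refine Finset.sum_congr rfl fun x _ => ?_
    rw [← Finset.sum_add_distrib, ← Finset.sum_add_distrib]
    exact Finset.sum_congr rfl fun y _ => h2 x y
  rw [h1, h6, h3, h4]
  have h5 : ∀ w : ZMod 2, w + w = 0 := by decide
  rw [add_assoc, h5, add_zero, ← Finset.sum_add_distrib]
  refine Finset.sum_congr rfl fun x _ => ?_
  rw [← Finset.sum_add_distrib]
  refine Finset.sum_congr rfl fun y _ => ?_
  split_ifs
  · ring
  · rw [add_zero]

theorem Mt4_sgn {k : ℕ} (y0 : V k) (h : V k → G) :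
    sgn (gr y0 0) (Mt4_ext y0 h) =
      sg ((∑ x, (x ⬝ᵥ y0) * h x 0) * (∑ x, h x 0) + ∑ x, (x ⬝ᵥ y0) * h x 0) := by
  classical
  have hd : ∀ α b c : ZMod 2, (α = 1 ∧ b = 1 ∧ c = 1) ↔ ¬ (α * b * c = 0) := by decide
  have himg : gr y0 0 = univ.image (fun x : V k => ((x, y0) : I k)) := by
    ext u
    rw [Mt4_mem, mem_image]
    constructor
    · intro hu
      exact ⟨u.1, mem_univ _, by rw [← hu]⟩
    · rintro ⟨x, _, rfl⟩
      rfl
  have hinj : Set.InjOn (fun x : V k => ((x, y0) : I k)) (univ : Finset (V k)) := by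
    intro x _ y _ e
    exact congrArg Prod.fst e
  unfold sgn
  rw [himg, Finset.prod_image hinj]
  simp only [Finset.prod_image hinj]
  have hext : ∀ x : V k, Mt4_ext y0 h (x, y0) = h x := fun x => if_pos rfl
  simp only [hext]
  have hex : ∀ x y : V k, ex ((x, y0) : I k) (y, y0) = x ⬝ᵥ y0 + y ⬝ᵥ y0 := by
    intro x y
    unfold ex
    show y0 ⬝ᵥ (x + y) = _
    rw [dotProduct_add, dotProduct_comm y0 x, dotProduct_comm y0 y]
  have hq := Mt4_quad (fun x : V k => ix ((x, y0) : I k))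
    (by
      intro x y e
      have e1 : Fintype.equivFin (I k) (x, y0) = Fintype.equivFin (I k) (y, y0) := Fin.ext e
      exact congrArg Prod.fst ((Fintype.equivFin (I k)).injective e1))
    (fun x => x ⬝ᵥ y0) (fun x => h x 0)
  rw [← hq, sg_sum]
  refine Finset.prod_congr rfl fun x _ => ?_
  rw [sg_sum]
  refine Finset.prod_congr rfl fun y _ => ?_
  rw [hex]
  by_cases hlt : ix ((x, y0) : I k) < ix ((y, y0) : I k)
  · rw [if_pos hlt]
    unfold sg
    by_cases h2 : (x ⬝ᵥ y0 + y ⬝ᵥ y0) * h x 0 * h y 0 = 0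
    · rw [if_pos h2, if_neg (fun h3 => (hd _ _ _).1 h3.2 h2)]
    · rw [if_neg h2, if_pos ⟨hlt, (hd _ _ _).2 h2⟩]
  · rw [if_neg hlt, sg_zero, if_neg (fun h3 => hlt h3.1)]

open Classical in
theorem Mt4_summand {k : ℕ} (B0 : Finset ℕ) (a : G) (y0 : V k) (h : V k → G) :
    ff k True B0 a (Mt4_ext y0 h) (gr y0 0) * sgn (gr y0 0) (Mt4_ext y0 h) =
      if ∑ x, h x = a then
        (fun γ : Fin k → G => ∑ c ∈ Fintype.piFinset fun _ : Fin k => (small B0 a).powerset,
          ∏ i, (if LL B0 a (c i) (γ i) then (if y0 i = 1 then schar B0 a (c i) (γ i) else 1)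
            else 0)) (fun i => ∑ x : V k, if x i = 1 then h x else 0)
      else 0 := by
  have hsum : ∑ u, Mt4_ext y0 h u = ∑ x, h x := by
    rw [Mt4_sum y0 (Mt4_ext y0 h) (fun u hu => if_neg hu)]
    exact Finset.sum_congr rfl fun x _ => if_pos rfl
  have hgam : ∀ i : Fin k, (∑ u : I k, if u.1 i = 1 then Mt4_ext y0 h u else 0) =
      ∑ x : V k, if x i = 1 then h x else 0 := by
    intro i
    rw [Mt4_sum y0 (fun u : I k => if u.1 i = 1 then Mt4_ext y0 h u else 0)]
    · refine Finset.sum_congr rfl fun x _ => ?_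
      have h1 : Mt4_ext y0 h (x, y0) = h x := if_pos rfl
      show (if x i = 1 then Mt4_ext y0 h (x, y0) else 0) = _
      rw [h1]
    · intro u hu
      show (if u.1 i = 1 then Mt4_ext y0 h u else 0) = 0
      have h1 : Mt4_ext y0 h u = 0 := if_neg hu
      rw [h1, ite_self]
  unfold ff
  rw [hsum]
  simp only [hgam]
  by_cases ha : ∑ x, h x = a
  · rw [if_pos ⟨ha, fun _ => Mt4_spn y0⟩, if_pos ha, Finset.sum_mul]
    refine Finset.sum_congr rfl fun c _ => ?_
    set γ : Fin k → G := fun i => ∑ x : V k, if x i = 1 then h x else 0 with hγ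
    by_cases hL : ∀ i, LL B0 a (c i) (γ i)
    · rw [if_pos hL]
      have hR : (∏ i, (if LL B0 a (c i) (γ i) then
          (if y0 i = 1 then schar B0 a (c i) (γ i) else 1) else 0)) =
          ∏ i, (if y0 i = 1 then schar B0 a (c i) (γ i) else 1) :=
        Finset.prod_congr rfl fun i _ => if_pos (hL i)
      rw [hR]
      -- the product over the index set
      have hP : (∏ u : I k, sg ((∑ i, u.2 i • lam (c i) + (u.1 ⬝ᵥ u.2) • lam B0) ⬝ᵥ
          Mt4_ext y0 h u)) = sg ((∑ i, y0 i • lam (c i)) ⬝ᵥ a +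
            lam B0 ⬝ᵥ ∑ i, y0 i • γ i) := by
        rw [← sg_sum]
        congr 1
        rw [Mt4_sum y0]
        · have h1 : ∀ x : V k, ((∑ i, ((x, y0) : I k).2 i • lam (c i) +
              (((x, y0) : I k).1 ⬝ᵥ ((x, y0) : I k).2) • lam B0) ⬝ᵥ Mt4_ext y0 h (x, y0)) =
              (∑ i, y0 i • lam (c i)) ⬝ᵥ h x + lam B0 ⬝ᵥ ((x ⬝ᵥ y0) • h x) := by
            intro x
            have h2 : Mt4_ext y0 h (x, y0) = h x := if_pos rfl
            rw [h2, add_dotProduct, smul_dotProduct, dotProduct_smul]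
          rw [Finset.sum_congr rfl fun x _ => h1 x, Finset.sum_add_distrib, ← dotProduct_sum,
            ← dotProduct_sum, ha, Mt4_gam]
        · intro u hu
          have h2 : Mt4_ext y0 h u = 0 := if_neg hu
          rw [h2, dotProduct_zero]
      rw [hP, Mt4_sgn, ← sg_add]
      have hA : ∑ x, (x ⬝ᵥ y0) * h x 0 = (∑ i, y0 i • γ i) 0 := by
        rw [← Mt4_gam, Finset.sum_apply]
        rfl
      have hT : ∑ x, h x 0 = a 0 := by
        rw [← ha, Finset.sum_apply]
      rw [hA, hT]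
      have hS : ∀ i, (if y0 i = 1 then schar B0 a (c i) (γ i) else 1) =
          sg (y0 i * (lam (c i) ⬝ᵥ a + lam B0 ⬝ᵥ γ i + (a 0 + 1) * γ i 0)) := by
        intro i
        have h1 : ∀ t : ZMod 2, t = 0 ∨ t = 1 := by decide
        rcases h1 (y0 i) with h2 | h2
        · rw [h2, zero_mul, sg_zero, if_neg (by decide)]
        · rw [h2, one_mul, if_pos rfl]
          rfl
      rw [Finset.prod_congr rfl fun i _ => hS i, ← sg_sum]
      congr 1
      rw [sum_dotProduct, dotProduct_sum, Finset.sum_apply, Finset.sum_mul,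
        ← Finset.sum_add_distrib, ← Finset.sum_add_distrib, ← Finset.sum_add_distrib]
      refine Finset.sum_congr rfl fun i _ => ?_
      rw [smul_dotProduct, dotProduct_smul, Pi.smul_apply, smul_eq_mul, smul_eq_mul, smul_eq_mul]
      ring
    · rw [if_neg hL, zero_mul]
      push Not at hL
      obtain ⟨i, hi⟩ := hL
      exact (Finset.prod_eq_zero (mem_univ i) (if_neg hi)).symm
  · rw [if_neg (fun h' => ha h'.1), if_neg ha, zero_mul]

open Classical in
/-- The graphs with `β = 0`. -/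
theorem mt4 {k : ℕ} (hk : 1 ≤ k) (B0 : Finset ℕ) (a : G) (y0 : V k) :
    avg k (gr y0 0) (ff k True B0 a) = (1 / 16 : ℝ) ^ (k + 1) *
      ∏ i, ∑ c ∈ (small B0 a).powerset, ∑ γ : G,
        (if LL B0 a c γ then (if y0 i = 1 then schar B0 a c γ else 1) else 0) := by
  unfold avg
  rw [Mt4_reindex y0 (fun g => ff k True B0 a g (gr y0 0) * sgn (gr y0 0) g)]
  have hm := mt2 (k := k) a (fun γ : Fin k → G =>
    ∑ c ∈ Fintype.piFinset fun _ : Fin k => (small B0 a).powerset,
      ∏ i, (if LL B0 a (c i) (γ i) then (if y0 i = 1 then schar B0 a (c i) (γ i) else 1)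
        else 0))
  rw [Finset.sum_congr rfl fun h _ => Mt4_summand B0 a y0 h, hm, Finset.prod_univ_sum,
    ← mul_assoc]
  have hk1 : k + 1 ≤ 2 ^ k := Nat.succ_le_of_lt Nat.lt_two_pow_self
  have h16 : (1 / 16 : ℝ) ^ (2 ^ k) * 16 ^ (2 ^ k - (k + 1)) = (1 / 16 : ℝ) ^ (k + 1) := by
    have h1 : (2 : ℕ) ^ k = (k + 1) + (2 ^ k - (k + 1)) := (Nat.add_sub_cancel' hk1).symm
    have h2 : (1 / 16 : ℝ) ^ (2 ^ k) = (1 / 16 : ℝ) ^ (k + 1) * (1 / 16 : ℝ) ^ (2 ^ k - (k + 1)) := by
      rw [← pow_add, ← h1]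
    rw [h2, mul_assoc, ← mul_pow]
    norm_num
  rw [h16]
  congr 1
  rw [Finset.sum_comm]
  refine Finset.sum_congr rfl fun c _ => ?_
  rw [Finset.prod_univ_sum, Fintype.piFinset_univ]

end PP15
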