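import Pool.Agent.Lib.MP_87c685_nt_PP15.Mt1
import Pool.Agent.Lib.MP_87c685_nt_PP15.Mt4

open Finset

namespace PP15

private theorem Mt_two (B0 : Finset ℕ) (hB : B0 ⊆ {2, 3, 5}) (a : G) (h : SgnOK B0 a) :
    (∑ t : ZMod 2, ∑ c ∈ (small B0 a).powerset, ∑ γ : G,
        (if LL B0 a c γ then (if t = 1 then schar B0 a c γ else 1) else 0)) = (32 : ℝ) := by
  classical
  rw [← mt3 B0 hB a h]
  have h2 : ∀ f : ZMod 2 → ℝ, ∑ t : ZMod 2, f t = f 0 + f 1 := fun f => Fin.sum_univ_two f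
  rw [h2, ← Finset.sum_add_distrib]
  refine Finset.sum_congr rfl fun c _ => ?_
  rw [← Finset.sum_add_distrib]
  refine Finset.sum_congr rfl fun γ _ => ?_
  have h01 : (0 : ZMod 2) ≠ 1 := by decide
  by_cases hL : LL B0 a c γ
  · rw [if_pos hL, if_pos hL, if_pos hL, if_neg h01, if_pos rfl]
  · rw [if_neg hL, if_neg hL, if_neg hL, add_zero]

/-- The main term of the moments. -/
theorem mt {k : ℕ} (hk : 1 ≤ k) (B0 : Finset ℕ) (hB : B0 ⊆ {2, 3, 5}) (a : G)
    (h : SgnOK B0 a) : ∑ B ∈ MaxU k, avg k B (ff k True B0 a) = 2 ^ k / 16 := by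
  classical
  rw [la2 (fun B => avg k B (ff k True B0 a)) ?_ hk]
  · have h1 : ∀ y0 : V k, ∑ β ∈ Alt k, avg k (gr y0 β) (ff k True B0 a) =
        (1 / 16 : ℝ) ^ (k + 1) * ∏ i, ∑ c ∈ (small B0 a).powerset, ∑ γ : G,
          (if LL B0 a c γ then (if y0 i = 1 then schar B0 a c γ else 1) else 0) := by
      intro y0
      rw [Finset.sum_eq_single_of_mem (0 : Matrix (Fin k) (Fin k) (ZMod 2))]
      · rw [mt4 hk B0 a y0]
      · rw [Alt, Finset.mem_filter]
        exact ⟨Finset.mem_univ _, Matrix.transpose_zero, fun i => rfl⟩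
      · intro β hβ hne
        exact mt1 B0 a y0 β hβ hne
    rw [Finset.sum_congr rfl fun y0 _ => h1 y0, ← Finset.mul_sum]
    have h2 : ∑ y0 : V k, ∏ i, (∑ c ∈ (small B0 a).powerset, ∑ γ : G,
        (if LL B0 a c γ then (if y0 i = 1 then schar B0 a c γ else 1) else 0)) =
        (32 : ℝ) ^ k := by
      have h3 := Finset.prod_univ_sum (fun _ : Fin k => (univ : Finset (ZMod 2)))
        (fun (_ : Fin k) (t : ZMod 2) => ∑ c ∈ (small B0 a).powerset, ∑ γ : G,
          (if LL B0 a c γ then (if t = 1 then schar B0 a c γ else 1) else 0))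
      rw [Fintype.piFinset_univ] at h3
      rw [← h3, Mt_two B0 hB a h, Finset.prod_const, Finset.card_univ, Fintype.card_fin]
    rw [h2, pow_succ, mul_right_comm, ← mul_pow]
    norm_num
    ring
  · intro T hT
    unfold avg
    rw [Finset.sum_eq_zero, mul_zero]
    intro g _
    unfold ff
    rw [if_neg fun h' => hT (h'.2 trivial), zero_mul]

end PP15
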