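import Pool.Agent.Lib.MP_87c685_nt_PP15.Ar
import Pool.Agent.Lib.MP_87c685_nt_PP15.Mt
import Pool.Agent.Lib.MP_87c685_nt_PP15.Cnv2
import Pool.Agent.Lib.MP_87c685_nt_PP15.Mfs

open Finset Filter Topology

namespace PP15

/-- prime factors of numbers prime to `30` -/
theorem Mean_prime {n : ℕ} (hn : PPA.Ok n) : ∀ p ∈ n.primeFactors, p.Prime ∧ 7 ≤ p := by
  intro p hp
  have hpp : p.Prime := Nat.prime_of_mem_primeFactors hp
  refine ⟨hpp, ?_⟩
  have hpn : p ∣ n := Nat.dvd_of_mem_primeFactors hp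
  have h30 : p.Coprime 30 := Nat.Coprime.coprime_dvd_left hpn hn.2
  by_contra hlt
  rw [not_le] at hlt
  have h2 : 2 ≤ p := hpp.two_le
  interval_cases p
  · exact absurd h30 (by decide)
  · exact absurd h30 (by decide)
  · exact absurd hpp (by decide)
  · exact absurd h30 (by decide)
  · exact absurd hpp (by decide)

theorem Mean_ok_pos {n : ℕ} (hn : PPA.Ok n) : 1 ≤ n := by
  rcases Nat.eq_zero_or_pos n with h | h
  · subst h
    exact absurd hn.1 not_squarefree_zero
  · exact h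

theorem Mean_mem {a : G} {x n : ℕ} : n ∈ Nx a x ↔ n ≤ x ∧ PPA.Ok n ∧ cl n = a := by
  classical
  unfold Nx
  rw [mem_filter, mem_range, Nat.lt_succ_iff]

/-- the moments in terms of `TF` -/
theorem Mean_TF (k : ℕ) (s : Prop) (B0 : Finset ℕ) (hB : B0 ⊆ {2, 3, 5}) (a : G)
    (h : SgnOK B0 a) {n : ℕ} (hn : PPA.Ok n) (hna : cl n = a) :
    (TT k s (Nn B0 * n) : ℝ) =
      TF (ph k) (2 ^ k) (fun σ T => ff k s B0 a (fun v => cv (σ v)) T) n := by
  have hN : Nn n.primeFactors = n := Nn_primeFactors n hn.1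
  have h1 := ar k s B0 hB n.primeFactors (Mean_prime hn) (by rw [hN, hna]; exact h)
  rw [hN, fam_sum n hn (fun a' g T => ff k s B0 a' g T)] at h1
  rw [h1]
  unfold TF
  rw [hna]
  push_cast
  rw [one_div, inv_pow, inv_pow, inv_mul_eq_div]

/-- the sets of `n` -/
theorem Mean_set (a : G) {x n : ℕ} :
    n ∈ Nx a x ↔ n < x + 1 ∧ PPA.Ok n ∧ PPA.sg n = vc a := by
  rw [Mean_mem, Nat.lt_succ_iff]
  refine and_congr_right fun _ => and_congr_right fun hn => ?_
  exact (sg_eq_iff n hn.2 a).symm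

open Classical in
/-- the interface theorem for the moments -/
theorem Mean_main (k : ℕ) (s : Prop) (B0 : Finset ℕ) (hB : B0 ⊆ {2, 3, 5}) (a : G)
    (h : SgnOK B0 a) :
    Tendsto (fun x : ℕ => (∑ n ∈ Nx a x, ((TT k s (Nn B0 * n) : ℝ) -
      ∑ U ∈ univ.filter (fun U : Finset (I k) => PPA.Unlinked (ph k) U ∧ U.card = 2 ^ k),
        MF (ph k) (vc a) (fun σ T => ff k s B0 a (fun v => cv (σ v)) T) U)) / x)
      atTop (𝓝 0) := by
  obtain ⟨h1, h2, h3, h4⟩ := ph_hyp k
  have hm := mainF (ph k) (2 ^ k) (by positivity) h1 h2 h3 h4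
    (fun σ T => ff k s B0 a (fun v => cv (σ v)) T) (vc a) (vc_mem a)
  refine hm.congr fun x => ?_
  congr 1
  refine Finset.sum_congr ?_ ?_
  · ext n
    rw [Mean_set, mem_filter, mem_range]
  · intro n hn
    rw [Mean_mem] at hn
    rw [Mean_TF k s B0 hB a h hn.2.1 hn.2.2]

/-- The mean value of the number of spanning `k`-tuples in one class. -/
theorem mean {k : ℕ} (hk : 1 ≤ k) (B0 : Finset ℕ) (hB : B0 ⊆ {2, 3, 5}) (a : G)
    (h : SgnOK B0 a) :
    Tendsto (fun x : ℕ => (∑ n ∈ Nx a x, ((TT k True (Nn B0 * n) : ℝ) - 2 ^ k)) / x)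
      atTop (𝓝 0) := by
  classical
  have hm := Mean_main k True B0 hB a h
  have hc : ∑ U ∈ univ.filter (fun U : Finset (I k) => PPA.Unlinked (ph k) U ∧ U.card = 2 ^ k),
      MF (ph k) (vc a) (fun σ T => ff k True B0 a (fun v => cv (σ v)) T) U = 2 ^ k := by
    have h1 : ∀ U ∈ MaxU k,
        MF (ph k) (vc a) (fun σ T => ff k True B0 a (fun v => cv (σ v)) T) U =
          16 * avg k U (ff k True B0 a) := by
      intro U hU
      refine mf_avg a (ff k True B0 a) ?_ U hU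
      intro g T hg
      unfold ff
      rw [if_neg]
      exact fun hh => hg hh.1
    have h2 : univ.filter (fun U : Finset (I k) => PPA.Unlinked (ph k) U ∧ U.card = 2 ^ k) =
        MaxU k := by
      ext U
      unfold MaxU
      rw [mem_filter, mem_filter, mem_powersetCard, unl_iff]
      constructor
      · rintro ⟨-, h3, h4⟩
        exact ⟨⟨subset_univ _, h4⟩, h3⟩
      · rintro ⟨⟨-, h4⟩, h3⟩
        exact ⟨mem_univ _, h3, h4⟩
    rw [h2, Finset.sum_congr rfl h1, ← mul_sum, mt hk B0 hB a h]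
    ring
  rw [hc] at hm
  exact hm

theorem Mean_TT (k n : ℕ) : TT k False n = (X15B.PhiF n).card ^ k := by
  have h1 : TT k False n = (Fintype.piFinset fun _ : Fin k => X15B.PhiF n).card := by
    unfold TT
    congr 1
    ext m
    simp
  rw [h1, Fintype.card_piFinset, prod_const, card_univ, Fintype.card_fin]

/-- Upper bound for all moments in one class. -/
theorem mean_up (k : ℕ) (B0 : Finset ℕ) (hB : B0 ⊆ {2, 3, 5}) (a : G) (h : SgnOK B0 a) :
    ∃ C : ℝ, ∀ x : ℕ, ∑ n ∈ Nx a x, ((X15B.PhiF (Nn B0 * n)).card : ℝ) ^ k ≤ C * x := by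
  classical
  have hm := Mean_main k False B0 hB a h
  set m0 : ℝ := ∑ U ∈ univ.filter (fun U : Finset (I k) => PPA.Unlinked (ph k) U ∧
    U.card = 2 ^ k), MF (ph k) (vc a) (fun σ T => ff k False B0 a (fun v => cv (σ v)) T) U
    with hm0
  obtain ⟨C', hC'⟩ := hm.bddAbove_range
  refine ⟨C' + |m0|, fun x => ?_⟩
  have h1 : ∀ n ∈ Nx a x, ((X15B.PhiF (Nn B0 * n)).card : ℝ) ^ k =
      ((TT k False (Nn B0 * n) : ℝ) - m0) + m0 := by
    intro n _
    rw [Mean_TT]
    push_cast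
    ring
  rw [Finset.sum_congr rfl h1, sum_add_distrib, sum_const, nsmul_eq_mul]
  have hsub : Nx a x ⊆ Icc 1 x := by
    intro n hn
    rw [Mean_mem] at hn
    exact mem_Icc.2 ⟨Mean_ok_pos hn.2.1, hn.1⟩
  have hcard : ((Nx a x).card : ℝ) ≤ x := by
    have := card_le_card hsub
    rw [Nat.card_Icc, Nat.add_sub_cancel] at this
    exact_mod_cast this
  have h2 : ((Nx a x).card : ℝ) * m0 ≤ x * |m0| :=
    calc ((Nx a x).card : ℝ) * m0 ≤ ((Nx a x).card : ℝ) * |m0| :=
          mul_le_mul_of_nonneg_left (le_abs_self m0) (Nat.cast_nonneg _)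
      _ ≤ x * |m0| := mul_le_mul_of_nonneg_right hcard (abs_nonneg _)
  have h3 : ∑ n ∈ Nx a x, ((TT k False (Nn B0 * n) : ℝ) - m0) ≤ C' * x := by
    rcases Nat.eq_zero_or_pos x with hx | hx
    · subst hx
      have : Nx a 0 = ∅ := by
        apply subset_empty.1
        intro n hn
        have := mem_Icc.1 (hsub hn)
        omega
      rw [this]
      simp
    · have hx' : (0 : ℝ) < x := by exact_mod_cast hx
      have h4 := hC' (Set.mem_range_self x)
      rw [div_le_iff₀ hx'] at h4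
      exact h4
  calc _ ≤ C' * x + x * |m0| := add_le_add h3 h2
    _ = (C' + |m0|) * x := by ring

/-- The number of elements of one class. -/
theorem cntN : ∃ κ : ℝ, 0 < κ ∧ ∀ a : G,
    Tendsto (fun x : ℕ => ((Nx a x).card : ℝ) / x) atTop (𝓝 κ) := by
  classical
  obtain ⟨κ, hκ, h⟩ := PPA.count
  refine ⟨κ, hκ, fun a => ?_⟩
  refine (h (vc a) (vc_mem a)).congr fun x => ?_
  congr 3
  ext n
  rw [Mean_set, mem_filter, mem_range]

end PP15
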