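import Pool.Agent.Lib.MP_87c685_nt_PP15.La2
import Pool.Agent.Lib.MP_87c685_nt_PP15.Bas1

open Finset

namespace PP15

/-- The points of the graph. -/
def Mt1_p {k : ℕ} (y0 : V k) (β : Matrix (Fin k) (Fin k) (ZMod 2)) (x : V k) : I k :=
  (x, y0 + β.mulVec x)

theorem Mt1_p_inj {k : ℕ} (y0 : V k) (β : Matrix (Fin k) (Fin k) (ZMod 2)) :
    Function.Injective (Mt1_p y0 β) := fun _ _ h => congrArg Prod.fst h

theorem Mt1_two : (2 : ZMod 2) = 0 := by decide

theorem Mt1_vec_two {k : ℕ} (x : V k) : x + x = 0 := by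
  funext i
  exact CharTwo.add_self_eq_zero (x i)

theorem Mt1_alt {k : ℕ} (β : Matrix (Fin k) (Fin k) (ZMod 2)) (hβ : β ∈ Alt k) (x : V k) :
    β.mulVec x ⬝ᵥ x = 0 := by
  rw [Alt, Finset.mem_filter] at hβ
  obtain ⟨-, hs, hd⟩ := hβ
  have h1 : β.mulVec x ⬝ᵥ x = ∑ p : Fin k × Fin k, β p.1 p.2 * x p.2 * x p.1 := by
    rw [Fintype.sum_prod_type]
    simp only [dotProduct, Matrix.mulVec, Finset.sum_mul]
  rw [h1]
  refine Finset.sum_involution (fun p _ => (p.2, p.1)) ?_ ?_ (fun p _ => mem_univ _)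
    (fun p _ => rfl)
  · intro p _
    have h2 : β p.2 p.1 = β p.1 p.2 := by
      conv_rhs => rw [← hs]
      rfl
    show β p.1 p.2 * x p.2 * x p.1 + β p.2 p.1 * x p.1 * x p.2 = 0
    rw [h2]
    have h3 : β p.1 p.2 * x p.2 * x p.1 + β p.1 p.2 * x p.1 * x p.2 =
      2 * (β p.1 p.2 * x p.2 * x p.1) := by ring
    rw [h3, Mt1_two, zero_mul]
  · intro p _ hp he
    apply hp
    have h2 : p.2 = p.1 := congrArg Prod.fst he
    rw [h2, hd, zero_mul, zero_mul]

theorem Mt1_symm {k : ℕ} (β : Matrix (Fin k) (Fin k) (ZMod 2)) (hβ : β ∈ Alt k) (x y : V k) :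
    β.mulVec x ⬝ᵥ y = β.mulVec y ⬝ᵥ x := by
  have h := Mt1_alt β hβ (x + y)
  rw [Matrix.mulVec_add, add_dotProduct, dotProduct_add, dotProduct_add, Mt1_alt β hβ x,
    Mt1_alt β hβ y, zero_add, add_zero] at h
  exact CharTwo.add_eq_zero.1 h

theorem Mt1_ex {k : ℕ} (y0 : V k) (β : Matrix (Fin k) (Fin k) (ZMod 2)) (x y : V k) :
    ex (Mt1_p y0 β x) (Mt1_p y0 β y) = (y0 + β.mulVec x) ⬝ᵥ (x + y) := rfl

theorem Mt1_ex_symm {k : ℕ} (y0 : V k) (β : Matrix (Fin k) (Fin k) (ZMod 2)) (hβ : β ∈ Alt k)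
    (x y : V k) : ex (Mt1_p y0 β x) (Mt1_p y0 β y) = ex (Mt1_p y0 β y) (Mt1_p y0 β x) := by
  have h := Mt1_alt β hβ (x + y)
  rw [Mt1_ex, Mt1_ex, add_comm y x, add_dotProduct, add_dotProduct]
  rw [Matrix.mulVec_add, add_dotProduct] at h
  rw [CharTwo.add_eq_zero.1 h]

theorem Mt1_ex_self {k : ℕ} (u : I k) : ex u u = 0 := by
  unfold ex
  rw [Mt1_vec_two, dotProduct_zero]

/-- The plane. -/
def Mt1_P {k : ℕ} (y0 : V k) (β : Matrix (Fin k) (Fin k) (ZMod 2)) (a b : V k) :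
    Finset (I k) :=
  {Mt1_p y0 β 0, Mt1_p y0 β a, Mt1_p y0 β b, Mt1_p y0 β (a + b)}

theorem Mt1_sumP {k : ℕ} {M : Type*} [AddCommMonoid M] (y0 : V k)
    (β : Matrix (Fin k) (Fin k) (ZMod 2)) (a b : V k) (ha : a ≠ 0) (hb : b ≠ 0) (hab : a ≠ b)
    (F : I k → M) : ∑ u ∈ Mt1_P y0 β a b, F u =
      F (Mt1_p y0 β 0) + F (Mt1_p y0 β a) + F (Mt1_p y0 β b) + F (Mt1_p y0 β (a + b)) := by
  have hinj := Mt1_p_inj y0 β
  have hab' : a + b ≠ 0 := by
    intro h
    apply hab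
    funext i
    exact CharTwo.add_eq_zero.1 (congrFun h i)
  have h1 : Mt1_p y0 β b ≠ Mt1_p y0 β (a + b) := by
    intro h
    have := hinj h
    exact ha (by simpa using this)
  have h2 : Mt1_p y0 β a ≠ Mt1_p y0 β (a + b) := by
    intro h
    have := hinj h
    exact hb (by simpa using this)
  have h3 : Mt1_p y0 β a ≠ Mt1_p y0 β b := fun h => hab (hinj h)
  have h4 : Mt1_p y0 β 0 ≠ Mt1_p y0 β a := fun h => ha (hinj h).symm
  have h5 : Mt1_p y0 β 0 ≠ Mt1_p y0 β b := fun h => hb (hinj h).symm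
  have h6 : Mt1_p y0 β 0 ≠ Mt1_p y0 β (a + b) := fun h => hab' (hinj h).symm
  unfold Mt1_P
  rw [Finset.sum_insert, Finset.sum_insert, Finset.sum_insert, Finset.sum_singleton]
  · simp only [add_assoc]
  · rw [Finset.mem_singleton]
    exact h1
  · rw [Finset.mem_insert, Finset.mem_singleton]
    rintro (h | h)
    · exact h3 h
    · exact h2 h
  · rw [Finset.mem_insert, Finset.mem_insert, Finset.mem_singleton]
    rintro (h | h | h)
    · exact h4 h
    · exact h5 h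
    · exact h6 h

theorem Mt1_P_sub {k : ℕ} (y0 : V k) (β : Matrix (Fin k) (Fin k) (ZMod 2)) (a b : V k) :
    Mt1_P y0 β a b ⊆ gr y0 β := by
  intro u hu
  unfold Mt1_P at hu
  rw [Finset.mem_insert, Finset.mem_insert, Finset.mem_insert, Finset.mem_singleton] at hu
  unfold gr
  rw [Finset.mem_image]
  rcases hu with h | h | h | h
  · exact ⟨0, mem_univ _, h.symm⟩
  · exact ⟨a, mem_univ _, h.symm⟩
  · exact ⟨b, mem_univ _, h.symm⟩
  · exact ⟨a + b, mem_univ _, h.symm⟩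

/-- The vector added on the plane. -/
def Mt1_e : G := Pi.single 0 1

/-- The change of the classes. -/
def Mt1_d {k : ℕ} (P : Finset (I k)) (u : I k) : G := if u ∈ P then Mt1_e else 0

theorem Mt1_e_two : Mt1_e + Mt1_e = 0 := by
  funext i
  exact CharTwo.add_self_eq_zero _

/-- The quadratic form. -/
noncomputable def Mt1_q {k : ℕ} (B : Finset (I k)) (t : I k → ZMod 2) : ZMod 2 :=
  ∑ u ∈ B, ∑ v ∈ B, if ix u < ix v then ex u v * t u * t v else 0

theorem Mt1_sgn {k : ℕ} (B : Finset (I k)) (g : I k → G) :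
    sgn B g = sg (Mt1_q B (fun u => g u 0)) := by
  have hd : ∀ α b c : ZMod 2, (α = 1 ∧ b = 1 ∧ c = 1) ↔ ¬ (α * b * c = 0) := by decide
  unfold sgn Mt1_q
  rw [sg_sum]
  refine Finset.prod_congr rfl (fun u _ => ?_)
  rw [sg_sum]
  refine Finset.prod_congr rfl (fun v _ => ?_)
  by_cases h : ix u < ix v
  · rw [if_pos h]
    unfold sg
    by_cases h2 : ex u v * g u 0 * g v 0 = 0
    · rw [if_pos h2, if_neg (fun h3 => (hd _ _ _).1 h3.2 h2)]
    · rw [if_neg h2, if_pos ⟨h, (hd _ _ _).2 h2⟩]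
  · rw [if_neg h, sg_zero, if_neg (fun h3 => h h3.1)]

/-- The polarisation of the quadratic form. -/
theorem Mt1_pol {k : ℕ} (B : Finset (I k)) (hB : ∀ u ∈ B, ∀ v ∈ B, ex u v = ex v u)
    (t s : I k → ZMod 2) : Mt1_q B (fun u => t u + s u) =
      Mt1_q B t + Mt1_q B s + ∑ u ∈ B, t u * ∑ v ∈ B, ex u v * s v := by
  have h1 : Mt1_q B (fun u => t u + s u) = Mt1_q B t + Mt1_q B s +
      ((∑ u ∈ B, ∑ v ∈ B, if ix u < ix v then ex u v * t u * s v else 0) +
      ∑ u ∈ B, ∑ v ∈ B, if ix u < ix v then ex u v * s u * t v else 0) := by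
    unfold Mt1_q
    simp only [← Finset.sum_add_distrib]
    refine Finset.sum_congr rfl (fun u _ => Finset.sum_congr rfl (fun v _ => ?_))
    split_ifs
    · ring
    · simp
  rw [h1, Finset.sum_comm (f := fun u v => if ix u < ix v then ex u v * s u * t v else 0)]
  congr 1
  rw [← Finset.sum_add_distrib]
  refine Finset.sum_congr rfl (fun u hu => ?_)
  rw [← Finset.sum_add_distrib, Finset.mul_sum]
  refine Finset.sum_congr rfl (fun v hv => ?_)
  rcases lt_trichotomy (ix u) (ix v) with h | h | h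
  · rw [if_pos h, if_neg (by omega)]
    ring
  · have huv : u = v := by
      have h2 : (Fintype.equivFin (I k)) u = (Fintype.equivFin (I k)) v := Fin.ext h
      exact (Fintype.equivFin (I k)).injective h2
    rw [if_neg (by omega), if_neg (by omega), huv, Mt1_ex_self]
    ring
  · rw [if_neg (by omega), if_pos h, hB u hu v hv]
    ring

theorem Mt1_sum_ind {k : ℕ} (P B : Finset (I k)) (hP : P ⊆ B) (F : I k → ZMod 2) :
    ∑ v ∈ B, F v * (if v ∈ P then 1 else 0) = ∑ v ∈ P, F v := by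
  rw [← Finset.sum_subset hP (f := fun v => F v * (if v ∈ P then 1 else 0))]
  · refine Finset.sum_congr rfl (fun v hv => ?_)
    rw [if_pos hv, mul_one]
  · intro v _ hv
    rw [if_neg hv, mul_zero]

/-- The value of the quadratic form on the plane, by pairs. -/
theorem Mt1_qP {k : ℕ} (P B : Finset (I k)) (hP : P ⊆ B) :
    Mt1_q B (fun v => if v ∈ P then 1 else 0) =
      ∑ u ∈ P, ∑ v ∈ P, if ix u < ix v then ex u v else 0 := by
  unfold Mt1_q
  have h1 : ∀ u ∈ B, (∑ v ∈ B, if ix u < ix v then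
      ex u v * (if u ∈ P then (1 : ZMod 2) else 0) * (if v ∈ P then (1 : ZMod 2) else 0) else 0) =
      (∑ v ∈ P, if ix u < ix v then ex u v else 0) * (if u ∈ P then 1 else 0) := by
    intro u _
    rw [← Mt1_sum_ind P B hP, Finset.sum_mul]
    refine Finset.sum_congr rfl (fun v _ => ?_)
    by_cases h : ix u < ix v
    · rw [if_pos h, if_pos h]
      ring
    · rw [if_neg h, if_neg h]
      ring
  rw [Finset.sum_congr rfl h1, Mt1_sum_ind P B hP]

/-- The cross term vanishes. -/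
theorem Mt1_cross {k : ℕ} (y0 : V k) (β : Matrix (Fin k) (Fin k) (ZMod 2)) (a b : V k)
    (ha : a ≠ 0) (hb : b ≠ 0) (hab : a ≠ b) (u : I k) :
    ∑ v ∈ Mt1_P y0 β a b, ex u v = 0 := by
  rw [Mt1_sumP y0 β a b ha hb hab]
  unfold ex
  rw [← dotProduct_add, ← dotProduct_add, ← dotProduct_add]
  have h : u.1 + (Mt1_p y0 β 0).1 + (u.1 + (Mt1_p y0 β a).1) + (u.1 + (Mt1_p y0 β b).1) +
      (u.1 + (Mt1_p y0 β (a + b)).1) = 0 := by
    show u.1 + 0 + (u.1 + a) + (u.1 + b) + (u.1 + (a + b)) = 0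
    have h1 : u.1 + 0 + (u.1 + a) + (u.1 + b) + (u.1 + (a + b)) =
      (u.1 + u.1) + (u.1 + u.1) + (a + a) + (b + b) := by abel
    rw [h1, Mt1_vec_two u.1, Mt1_vec_two a, Mt1_vec_two b, add_zero, add_zero, add_zero]
  rw [h, dotProduct_zero]

/-- The value of the quadratic form on the plane. -/
theorem Mt1_val {k : ℕ} (y0 : V k) (β : Matrix (Fin k) (Fin k) (ZMod 2)) (hβ : β ∈ Alt k)
    (a b : V k) (ha : a ≠ 0) (hb : b ≠ 0) (hab : a ≠ b) (h1 : β.mulVec a ⬝ᵥ b = 1) :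
    ∑ u ∈ Mt1_P y0 β a b, ∑ v ∈ Mt1_P y0 β a b, (if ix u < ix v then ex u v else 0) = 1 := by
  have hinj := Mt1_p_inj y0 β
  have hix : ∀ u v : I k, u ≠ v → ex u v = ex v u →
      (if ix u < ix v then ex u v else 0) + (if ix v < ix u then ex v u else 0) = ex u v := by
    intro u v huv he
    rcases lt_trichotomy (ix u) (ix v) with h | h | h
    · rw [if_pos h, if_neg (by omega), add_zero]
    · exfalso
      apply huv
      have h2 : (Fintype.equivFin (I k)) u = (Fintype.equivFin (I k)) v := Fin.ext h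
      exact (Fintype.equivFin (I k)).injective h2
    · rw [if_neg (by omega), if_pos h, zero_add, he]
  have hself : ∀ u : I k, (if ix u < ix u then ex u u else 0) = 0 := fun u => by
    rw [if_neg (lt_irrefl _)]
  have hab' : a + b ≠ 0 := by
    intro h
    apply hab
    funext i
    exact CharTwo.add_eq_zero.1 (congrFun h i)
  have e01 := hix _ _ (fun h => ha (hinj h).symm) (Mt1_ex_symm y0 β hβ 0 a)
  have e02 := hix _ _ (fun h => hb (hinj h).symm) (Mt1_ex_symm y0 β hβ 0 b)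
  have e03 := hix _ _ (fun h => hab' (hinj h).symm) (Mt1_ex_symm y0 β hβ 0 (a + b))
  have e12 := hix _ _ (fun h => hab (hinj h)) (Mt1_ex_symm y0 β hβ a b)
  have e13 := hix _ _ (fun h => hb (by simpa using hinj h)) (Mt1_ex_symm y0 β hβ a (a + b))
  have e23 := hix _ _ (fun h => ha (by simpa using hinj h)) (Mt1_ex_symm y0 β hβ b (a + b))
  rw [Mt1_sumP y0 β a b ha hb hab]
  rw [Mt1_sumP y0 β a b ha hb hab, Mt1_sumP y0 β a b ha hb hab, Mt1_sumP y0 β a b ha hb hab,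
    Mt1_sumP y0 β a b ha hb hab]
  have haa := Mt1_alt β hβ a
  have hbb := Mt1_alt β hβ b
  have hba : β.mulVec b ⬝ᵥ a = 1 := by rw [← Mt1_symm β hβ a b, h1]
  have x01 : ex (Mt1_p y0 β 0) (Mt1_p y0 β a) = y0 ⬝ᵥ a := by
    rw [Mt1_ex, Matrix.mulVec_zero, add_zero, zero_add]
  have x02 : ex (Mt1_p y0 β 0) (Mt1_p y0 β b) = y0 ⬝ᵥ b := by
    rw [Mt1_ex, Matrix.mulVec_zero, add_zero, zero_add]
  have x03 : ex (Mt1_p y0 β 0) (Mt1_p y0 β (a + b)) = y0 ⬝ᵥ a + y0 ⬝ᵥ b := by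
    rw [Mt1_ex, Matrix.mulVec_zero, add_zero, zero_add, dotProduct_add]
  have x12 : ex (Mt1_p y0 β a) (Mt1_p y0 β b) = y0 ⬝ᵥ a + y0 ⬝ᵥ b + 1 := by
    rw [Mt1_ex, add_dotProduct, dotProduct_add, dotProduct_add, haa, h1, zero_add]
  have x13 : ex (Mt1_p y0 β a) (Mt1_p y0 β (a + b)) = y0 ⬝ᵥ b + 1 := by
    rw [Mt1_ex, ← add_assoc, Mt1_vec_two, zero_add, add_dotProduct, h1]
  have x23 : ex (Mt1_p y0 β b) (Mt1_p y0 β (a + b)) = y0 ⬝ᵥ a + 1 := by
    rw [Mt1_ex, add_comm a b, ← add_assoc, Mt1_vec_two, zero_add, add_dotProduct, hba]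
  rw [hself, hself, hself, hself]
  have h3 : ex (Mt1_p y0 β 0) (Mt1_p y0 β a) + ex (Mt1_p y0 β 0) (Mt1_p y0 β b) +
      ex (Mt1_p y0 β 0) (Mt1_p y0 β (a + b)) + ex (Mt1_p y0 β a) (Mt1_p y0 β b) +
      ex (Mt1_p y0 β a) (Mt1_p y0 β (a + b)) + ex (Mt1_p y0 β b) (Mt1_p y0 β (a + b)) = 1 := by
    rw [x01, x02, x03, x12, x13, x23]
    generalize y0 ⬝ᵥ a = α
    generalize y0 ⬝ᵥ b = γ
    revert α γ
    decide
  linear_combination h3 + e01 + e02 + e03 + e12 + e13 + e23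

/-- The sign changes. -/
theorem Mt1_sgn_change {k : ℕ} (y0 : V k) (β : Matrix (Fin k) (Fin k) (ZMod 2)) (hβ : β ∈ Alt k)
    (a b : V k) (ha : a ≠ 0) (hb : b ≠ 0) (hab : a ≠ b) (h1 : β.mulVec a ⬝ᵥ b = 1)
    (g : I k → G) :
    sgn (gr y0 β) (fun u => g u + Mt1_d (Mt1_P y0 β a b) u) = - sgn (gr y0 β) g := by
  have hB : ∀ u ∈ gr y0 β, ∀ v ∈ gr y0 β, ex u v = ex v u := by
    intro u hu v hv
    unfold gr at hu hv
    rw [Finset.mem_image] at hu hv
    obtain ⟨x, -, rfl⟩ := hu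
    obtain ⟨x', -, rfl⟩ := hv
    exact Mt1_ex_symm y0 β hβ x x'
  rw [Mt1_sgn, Mt1_sgn]
  have h2 : (fun u => (g u + Mt1_d (Mt1_P y0 β a b) u) 0) =
      fun u => g u 0 + (if u ∈ Mt1_P y0 β a b then (1 : ZMod 2) else 0) := by
    funext u
    rw [Pi.add_apply]
    congr 1
    unfold Mt1_d
    split_ifs
    · rfl
    · rfl
  rw [h2, Mt1_pol _ hB, Mt1_qP _ _ (Mt1_P_sub y0 β a b), Mt1_val y0 β hβ a b ha hb hab h1]
  have h3 : ∑ u ∈ gr y0 β, g u 0 * ∑ v ∈ gr y0 β, ex u v *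
      (if v ∈ Mt1_P y0 β a b then (1 : ZMod 2) else 0) = 0 := by
    refine Finset.sum_eq_zero (fun u _ => ?_)
    rw [Mt1_sum_ind _ _ (Mt1_P_sub y0 β a b), Mt1_cross y0 β a b ha hb hab, mul_zero]
  rw [h3, add_zero, sg_add, sg_one]
  ring

theorem Mt1_sum_univ {k : ℕ} {M : Type*} [AddCommMonoid M] (P : Finset (I k)) (F : I k → M) :
    ∑ u : I k, (if u ∈ P then F u else 0) = ∑ u ∈ P, F u := by
  rw [Finset.sum_ite_mem, Finset.univ_inter]

/-- The coefficient function does not change. -/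
theorem Mt1_ff {k : ℕ} (B0 : Finset ℕ) (cc : G) (y0 : V k) (β : Matrix (Fin k) (Fin k) (ZMod 2))
    (hβ : β ∈ Alt k) (a b : V k) (ha : a ≠ 0) (hb : b ≠ 0) (hab : a ≠ b) (T : Finset (I k))
    (g : I k → G) :
    ff k True B0 cc (fun u => g u + Mt1_d (Mt1_P y0 β a b) u) T = ff k True B0 cc g T := by
  have h1 : ∑ u : I k, (g u + Mt1_d (Mt1_P y0 β a b) u) = ∑ u, g u := by
    rw [Finset.sum_add_distrib]
    unfold Mt1_d
    rw [Mt1_sum_univ, Mt1_sumP y0 β a b ha hb hab, Mt1_e_two, zero_add, Mt1_e_two, add_zero]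
  have h2 : ∀ i : Fin k, (∑ u : I k, if u.1 i = 1 then
      (g u + Mt1_d (Mt1_P y0 β a b) u) else 0) = ∑ u : I k, if u.1 i = 1 then g u else 0 := by
    intro i
    have e1 : ∀ u : I k, (if u.1 i = 1 then (g u + Mt1_d (Mt1_P y0 β a b) u) else 0) =
        (if u.1 i = 1 then g u else 0) +
        (if u ∈ Mt1_P y0 β a b then u.1 i • Mt1_e else 0) := by
      intro u
      unfold Mt1_d
      have hz : ∀ t : ZMod 2, t ≠ 1 → t = 0 := by decide
      by_cases hu : u.1 i = 1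
      · rw [if_pos hu, if_pos hu, hu, one_smul]
      · rw [if_neg hu, if_neg hu, hz _ hu, zero_smul]
        simp
    rw [Finset.sum_congr rfl (fun u _ => e1 u), Finset.sum_add_distrib, Mt1_sum_univ,
      Mt1_sumP y0 β a b ha hb hab]
    have e2 : (Mt1_p y0 β 0).1 i • Mt1_e + (Mt1_p y0 β a).1 i • Mt1_e +
        (Mt1_p y0 β b).1 i • Mt1_e + (Mt1_p y0 β (a + b)).1 i • Mt1_e = 0 := by
      rw [← add_smul, ← add_smul, ← add_smul]
      have e3 : (Mt1_p y0 β 0).1 i + (Mt1_p y0 β a).1 i + (Mt1_p y0 β b).1 i +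
          (Mt1_p y0 β (a + b)).1 i = 0 := by
        show (0 : V k) i + a i + b i + (a i + b i) = 0
        rw [Pi.zero_apply, zero_add]
        exact CharTwo.add_self_eq_zero _
      rw [e3, zero_smul]
    rw [e2, add_zero]
  have h3 : ∀ c : Fin k → Finset ℕ, (∏ u : I k, sg ((∑ i, u.2 i • lam (c i) +
      (u.1 ⬝ᵥ u.2) • lam B0) ⬝ᵥ (g u + Mt1_d (Mt1_P y0 β a b) u))) =
      ∏ u : I k, sg ((∑ i, u.2 i • lam (c i) + (u.1 ⬝ᵥ u.2) • lam B0) ⬝ᵥ g u) := by
    intro c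
    simp only [dotProduct_add, sg_add]
    rw [Finset.prod_mul_distrib, ← sg_sum univ (fun u : I k => (∑ i, u.2 i • lam (c i) +
      (u.1 ⬝ᵥ u.2) • lam B0) ⬝ᵥ Mt1_d (Mt1_P y0 β a b) u)]
    have e1 : ∀ u : I k, (∑ i, u.2 i • lam (c i) + (u.1 ⬝ᵥ u.2) • lam B0) ⬝ᵥ
        Mt1_d (Mt1_P y0 β a b) u = if u ∈ Mt1_P y0 β a b then
          (∑ i, u.2 i • lam (c i) + (u.1 ⬝ᵥ u.2) • lam B0) ⬝ᵥ Mt1_e else 0 := by
      intro u
      unfold Mt1_d
      by_cases hu : u ∈ Mt1_P y0 β a b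
      · rw [if_pos hu, if_pos hu]
      · rw [if_neg hu, if_neg hu, dotProduct_zero]
    rw [Finset.sum_congr rfl (fun u _ => e1 u), Mt1_sum_univ, ← sum_dotProduct,
      Finset.sum_add_distrib, Finset.sum_comm, ← Finset.sum_smul]
    have e2 : ∑ u ∈ Mt1_P y0 β a b, (u.1 ⬝ᵥ u.2) = 0 := by
      rw [Mt1_sumP y0 β a b ha hb hab]
      show (0 : V k) ⬝ᵥ (y0 + β.mulVec 0) + a ⬝ᵥ (y0 + β.mulVec a) + b ⬝ᵥ (y0 + β.mulVec b) +
        (a + b) ⬝ᵥ (y0 + β.mulVec (a + b)) = 0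
      rw [Matrix.mulVec_add, zero_dotProduct]
      simp only [dotProduct_add, add_dotProduct]
      have e3 : b ⬝ᵥ β.mulVec a = a ⬝ᵥ β.mulVec b := by
        rw [dotProduct_comm b, Mt1_symm β hβ a b, dotProduct_comm]
      rw [e3]
      generalize a ⬝ᵥ y0 = q1
      generalize b ⬝ᵥ y0 = q2
      generalize a ⬝ᵥ β.mulVec a = q3
      generalize b ⬝ᵥ β.mulVec b = q4
      generalize a ⬝ᵥ β.mulVec b = q5
      revert q1 q2 q3 q4 q5
      decide
    have e4 : ∀ i : Fin k, ∑ u ∈ Mt1_P y0 β a b, u.2 i • lam (c i) = 0 := by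
      intro i
      rw [← Finset.sum_smul, Mt1_sumP y0 β a b ha hb hab]
      have e5 : (Mt1_p y0 β 0).2 i + (Mt1_p y0 β a).2 i + (Mt1_p y0 β b).2 i +
          (Mt1_p y0 β (a + b)).2 i = 0 := by
        show (y0 i + (β.mulVec 0) i) + (y0 i + (β.mulVec a) i) + (y0 i + (β.mulVec b) i) +
          (y0 i + (β.mulVec (a + b)) i) = 0
        rw [Matrix.mulVec_add, Matrix.mulVec_zero, Pi.zero_apply, Pi.add_apply]
        generalize y0 i = q1
        generalize β.mulVec a i = q2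
        generalize β.mulVec b i = q3
        revert q1 q2 q3
        decide
      rw [e5, zero_smul]
    rw [e2, zero_smul, Finset.sum_eq_zero (fun i _ => e4 i), add_zero, zero_dotProduct, sg_zero,
      mul_one]
  unfold ff
  simp only [h2, h3]
  rw [h1]

/-- The graphs with `β ≠ 0` do not contribute. -/
theorem mt1 {k : ℕ} (B0 : Finset ℕ) (a : G) (y0 : V k) (β : Matrix (Fin k) (Fin k) (ZMod 2))
    (hβ : β ∈ Alt k) (h : β ≠ 0) : avg k (gr y0 β) (ff k True B0 a) = 0 := by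
  classical
  obtain ⟨i, j, hij⟩ : ∃ i j, β i j ≠ 0 := by
    by_contra hh
    push Not at hh
    exact h (by ext i j; exact hh i j)
  have hij1 : β i j = 1 := by
    have hz : ∀ t : ZMod 2, t ≠ 0 → t = 1 := by decide
    exact hz _ hij
  obtain ⟨p, q, hpq⟩ : ∃ p q : V k, β.mulVec p ⬝ᵥ q = 1 := by
    refine ⟨Pi.single j 1, Pi.single i 1, ?_⟩
    rw [dotProduct_single, mul_one, Matrix.mulVec_single_one]
    exact hij1
  have hp : p ≠ 0 := by
    intro h0
    rw [h0, Matrix.mulVec_zero, zero_dotProduct] at hpq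
    exact zero_ne_one hpq
  have hq : q ≠ 0 := by
    intro h0
    rw [h0, dotProduct_zero] at hpq
    exact zero_ne_one hpq
  have hpq' : p ≠ q := by
    intro h0
    rw [h0, Mt1_alt β hβ] at hpq
    exact zero_ne_one hpq
  unfold avg
  have key : ∑ g ∈ gB (gr y0 β), ff k True B0 a g (gr y0 β) * sgn (gr y0 β) g = 0 := by
    refine Finset.sum_involution
      (fun g _ => fun u => g u + Mt1_d (Mt1_P y0 β p q) u) ?_ ?_ ?_ ?_
    · intro g _
      rw [Mt1_ff B0 a y0 β hβ p q hp hq hpq', Mt1_sgn_change y0 β hβ p q hp hq hpq' hpq]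
      ring
    · intro g _ _ he
      have h2 := congrFun he (Mt1_p y0 β 0)
      have h3 : Mt1_d (Mt1_P y0 β p q) (Mt1_p y0 β 0) = 0 := by
        simpa using h2
      have h4 : Mt1_p y0 β 0 ∈ Mt1_P y0 β p q := Finset.mem_insert_self _ _
      unfold Mt1_d at h3
      rw [if_pos h4] at h3
      have h5 := congrFun h3 0
      exact one_ne_zero h5
    · intro g hg
      unfold gB at hg ⊢
      rw [Fintype.mem_piFinset] at hg ⊢
      intro u
      have h2 := hg u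
      by_cases hu : u ∈ gr y0 β
      · rw [if_pos hu]
        exact mem_univ _
      · rw [if_neg hu] at h2 ⊢
        rw [Finset.mem_singleton] at h2 ⊢
        unfold Mt1_d
        rw [if_neg (fun h3 => hu (Mt1_P_sub y0 β p q h3)), h2, add_zero]
    · intro g _
      funext u
      show g u + Mt1_d (Mt1_P y0 β p q) u + Mt1_d (Mt1_P y0 β p q) u = g u
      rw [add_assoc]
      have h2 : Mt1_d (Mt1_P y0 β p q) u + Mt1_d (Mt1_P y0 β p q) u = 0 := by
        unfold Mt1_d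
        split_ifs
        · exact Mt1_e_two
        · exact add_zero 0
      rw [h2, add_zero]
  rw [key, mul_zero]

end PP15
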