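import Pool.Agent.Lib.MP_87c685_nt_PP15.Defs

open Finset

namespace PP15

/-- The homomorphism `g ↦ (∑ g_x, (∑_{x_i = 1} g_x)_i)`. -/
def Mt2L (k : ℕ) : (V k → G) →+ G × (Fin k → G) where
  toFun g := (∑ x, g x, fun i => ∑ x : V k, if x i = 1 then g x else 0)
  map_zero' := by
    ext <;> simp
  map_add' g h := by
    refine Prod.ext ?_ ?_
    · simp [Finset.sum_add_distrib]
    · funext i
      show (∑ x : V k, if x i = 1 then (g + h) x else 0) =
        (∑ x : V k, if x i = 1 then g x else 0) + ∑ x : V k, if x i = 1 then h x else 0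
      rw [← Finset.sum_add_distrib]
      refine Finset.sum_congr rfl fun x _ => ?_
      split_ifs
      · rfl
      · rw [add_zero]

theorem Mt2L_single {k : ℕ} (x : V k) (c : G) :
    Mt2L k (Pi.single x c) = (c, fun i => if x i = 1 then c else 0) := by
  refine Prod.ext ?_ ?_
  · show ∑ y, (Pi.single x c : V k → G) y = c
    rw [Finset.sum_eq_single x]
    · rw [Pi.single_eq_same]
    · intro y _ hy
      rw [Pi.single_eq_of_ne hy]
    · intro h
      exact absurd (Finset.mem_univ x) h
  · funext i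
    show (∑ y : V k, if y i = 1 then (Pi.single x c : V k → G) y else 0) = if x i = 1 then c else 0
    rw [Finset.sum_eq_single x]
    · rw [Pi.single_eq_same]
    · intro y _ hy
      rw [Pi.single_eq_of_ne hy, ite_self]
    · intro h
      exact absurd (Finset.mem_univ x) h

theorem Mt2L_surj (k : ℕ) : Function.Surjective (Mt2L k) := by
  rintro ⟨A, γ⟩
  refine ⟨Pi.single 0 (A - ∑ i, γ i) + ∑ i, Pi.single (Pi.single i 1) (γ i), ?_⟩
  rw [map_add, map_sum, Mt2L_single]
  simp only [Mt2L_single]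
  refine Prod.ext ?_ ?_
  · rw [Prod.fst_add, Prod.fst_sum]
    exact sub_add_cancel _ _
  · rw [Prod.snd_add, Prod.snd_sum]
    funext j
    rw [Pi.add_apply, Finset.sum_apply]
    show (if (0 : V k) j = 1 then A - ∑ i, γ i else 0) +
      ∑ c, (if (Pi.single c 1 : V k) j = 1 then γ c else 0) = γ j
    have h1 : (if (0 : V k) j = 1 then A - ∑ i, γ i else 0) = 0 := by
      rw [if_neg]
      rw [Pi.zero_apply]
      decide
    rw [h1, zero_add, Finset.sum_eq_single j]
    · rw [Pi.single_eq_same, if_pos rfl]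
    · intro i _ hi
      rw [Pi.single_eq_of_ne (Ne.symm hi), if_neg]
      decide
    · intro h
      exact absurd (Finset.mem_univ j) h

/-- Sums over a finite group of a function of a surjective homomorphism. -/
theorem Mt2_sum {A B : Type} [AddGroup A] [AddGroup B] [Fintype A] [Fintype B] [DecidableEq B]
    (L : A →+ B) (hL : Function.Surjective L) (F : B → ℝ) :
    (Fintype.card B : ℝ) * ∑ g, F (L g) = (Fintype.card A : ℝ) * ∑ y, F y := by
  have h1 : ∀ F : B → ℝ, ∑ g, F (L g) = (#{g | L g = 0} : ℝ) * ∑ y, F y := by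
    intro F
    rw [← Finset.sum_fiberwise_of_maps_to (s := (univ : Finset A)) (t := (univ : Finset B))
      (g := fun g => L g) (fun _ _ => Finset.mem_univ _), Finset.mul_sum]
    refine Finset.sum_congr rfl fun y _ => ?_
    have h2 : ∀ g ∈ ({g | L g = y} : Finset A), F (L g) = F y := by
      intro g hg
      rw [(Finset.mem_filter.1 hg).2]
    rw [Finset.sum_congr rfl h2, Finset.sum_const, nsmul_eq_mul]
    congr 2
    exact AddMonoidHom.card_fiber_eq_of_mem_range L (hL y) (hL 0)
  have h3 := h1 fun _ => 1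
  rw [Finset.sum_const, Finset.sum_const, nsmul_eq_mul, nsmul_eq_mul, mul_one, mul_one,
    Finset.card_univ, Finset.card_univ] at h3
  rw [h1 F, h3]
  ring

/-- Uniform distribution of `(∑ g_x, (∑_{x_i = 1} g_x)_i)`. -/
theorem mt2 {k : ℕ} (a : G) (h : (Fin k → G) → ℝ) :
    ∑ g : V k → G, (if ∑ x, g x = a then h fun i => ∑ x : V k, if x i = 1 then g x else 0
      else 0) = (16 : ℝ) ^ (2 ^ k - (k + 1)) * ∑ γ : Fin k → G, h γ := by
  have h1 := Mt2_sum (Mt2L k) (Mt2L_surj k) (fun y => if y.1 = a then h y.2 else 0)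
  have hG : Fintype.card G = 16 := by
    simp [G, ZMod.card]
  have hA : (Fintype.card (V k → G) : ℝ) = 16 ^ (2 ^ k) := by
    rw [Fintype.card_fun, hG]
    simp [V, ZMod.card]
  have hB : (Fintype.card (G × (Fin k → G)) : ℝ) = 16 ^ (k + 1) := by
    have h2 : Fintype.card (Fin k → G) = 16 ^ k := by
      have h3 : Fintype.card (Fin k → G) = Fintype.card G ^ Fintype.card (Fin k) :=
        Fintype.card_fun
      rw [h3, hG, Fintype.card_fin]
    have h3 : Fintype.card (G × (Fin k → G)) = Fintype.card G * Fintype.card (Fin k → G) :=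
      Fintype.card_prod _ _
    rw [h3, hG, h2, pow_succ]
    push_cast
    ring
  have hF : ∑ y : G × (Fin k → G), (if y.1 = a then h y.2 else 0) = ∑ γ : Fin k → G, h γ := by
    rw [Fintype.sum_prod_type_right]
    refine Finset.sum_congr rfl fun γ _ => ?_
    rw [Finset.sum_ite_eq' univ a, if_pos (Finset.mem_univ a)]
  rw [hA, hB, hF] at h1
  have hk : k + 1 ≤ 2 ^ k := Nat.succ_le_of_lt Nat.lt_two_pow_self
  have h2 : (16 : ℝ) ^ (2 ^ k) = 16 ^ (k + 1) * 16 ^ (2 ^ k - (k + 1)) := by
    rw [← pow_add, Nat.add_sub_cancel' hk]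
  rw [h2, mul_assoc] at h1
  exact mul_left_cancel₀ (pow_ne_zero _ (by norm_num)) h1

end PP15
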